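import Mathlib
import Pool.Agent.Helper3.A9.Asy

set_option autoImplicit false

/-!
Iterated logarithms of counting functions under polynomial changes of the parameter.
-/

namespace Pool.Agent.Helper16.A9

open Filter Topology
open Pool.Agent.Helper3.A9

lemma ratio_log {f g : ℝ → ℝ} (hg : Tendsto g atTop atTop)
    (h : Tendsto (fun T => f T / g T) atTop (𝓝 1)) :
    Tendsto (fun T => Real.log (f T) / Real.log (g T)) atTop (𝓝 1) := by
  have h1 : Tendsto (fun T => Real.log (f T / g T)) atTop (𝓝 0) := by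
    have := (Real.continuousAt_log one_ne_zero).tendsto.comp h
    simpa [Function.comp_def] using this
  have hlg : Tendsto (fun T => Real.log (g T)) atTop atTop := Real.tendsto_log_atTop.comp hg
  have h2 : Tendsto (fun T => Real.log (f T / g T) / Real.log (g T) + 1) atTop (𝓝 (0 + 1)) :=
    (h1.div_atTop hlg).add tendsto_const_nhds
  rw [zero_add] at h2
  refine h2.congr' ?_
  filter_upwards [hg.eventually_gt_atTop 0, hlg.eventually_gt_atTop 0,
    h.eventually (lt_mem_nhds (show (0 : ℝ) < 1 by norm_num))] with T t1 t2 t3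
  have hf : 0 < f T := by
    have := mul_pos t3 t1
    rwa [div_mul_cancel₀ _ t1.ne'] at this
  rw [Real.log_div hf.ne' t1.ne']
  field_simp
  ring

lemma ilog_succ (k : ℕ) (x : ℝ) : Real.log^[k + 1] x = Real.log (Real.log^[k] x) :=
  Function.iterate_succ_apply' _ _ _

/-- Iterated logarithms do not see powers and constants. -/
lemma ratio_pow {A t : ℝ} (hA : 0 < A) (ht : 0 < t) (k : ℕ) :
    Tendsto (fun T : ℝ => Real.log^[k + 2] (A * T ^ t) / Real.log^[k + 2] T) atTop (𝓝 1) := by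
  induction k with
  | zero =>
    have e : ∀ x : ℝ, Real.log^[0 + 2] x = Real.log (Real.log x) := fun x => rfl
    simp only [e]
    have hℓ : Tendsto (fun T : ℝ => Real.log (Real.log T)) atTop atTop :=
      Real.tendsto_log_atTop.comp Real.tendsto_log_atTop
    have h1 : Tendsto (fun T : ℝ => Real.log A / Real.log T + t) atTop (𝓝 (0 + t)) :=
      (Real.tendsto_log_atTop.const_div_atTop _).add tendsto_const_nhds
    rw [zero_add] at h1
    have h2 : Tendsto (fun T : ℝ => Real.log (Real.log A / Real.log T + t)) atTop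
        (𝓝 (Real.log t)) := (Real.continuousAt_log ht.ne').tendsto.comp h1
    have h3 : Tendsto (fun T : ℝ => Real.log (Real.log A / Real.log T + t) /
        Real.log (Real.log T) + 1) atTop (𝓝 (0 + 1)) :=
      (h2.div_atTop hℓ).add tendsto_const_nhds
    rw [zero_add] at h3
    refine h3.congr' ?_
    filter_upwards [h1.eventually (lt_mem_nhds ht), hℓ.eventually_gt_atTop 0,
      Real.tendsto_log_atTop.eventually_gt_atTop 0, eventually_gt_atTop 0] with T g1 g2 g3 g4
    have e2 : Real.log (A * T ^ t) = (Real.log A / Real.log T + t) * Real.log T := by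
      rw [Real.log_mul hA.ne' (Real.rpow_pos_of_pos g4 t).ne', Real.log_rpow g4]
      field_simp
    rw [e2, Real.log_mul g1.ne' g3.ne']
    field_simp
  | succ k ih =>
    have := ratio_log (tendsto_ilog (k + 2)) ih
    refine this.congr fun T => ?_
    rw [← ilog_succ, ← ilog_succ]

/-- Beyond some point the iterated logarithm is monotone. -/
lemma ilog_mono (m : ℕ) : ∃ B : ℝ, 1 ≤ B ∧ ∀ x y : ℝ, B ≤ x → x ≤ y →
    0 < Real.log^[m] x ∧ Real.log^[m] x ≤ Real.log^[m] y := by
  induction m with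
  | zero =>
    refine ⟨1, le_rfl, fun x y hx hxy => ?_⟩
    simp only [Function.iterate_zero, id]
    exact ⟨by linarith, hxy⟩
  | succ m ih =>
    obtain ⟨B, hB1, hB⟩ := ih
    obtain ⟨B', hB'⟩ := (eventually_atTop.1 ((tendsto_ilog (m + 1)).eventually_gt_atTop 0))
    refine ⟨max B B', hB1.trans (le_max_left _ _), fun x y hx hxy => ?_⟩
    obtain ⟨h1, h2⟩ := hB x y ((le_max_left _ _).trans hx) hxy
    refine ⟨hB' x ((le_max_right _ _).trans hx), ?_⟩
    rw [ilog_succ, ilog_succ]
    exact Real.log_le_log h1 h2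

/-- If the iterated logarithm of a sequence of natural numbers is large, then the number is. -/
lemma large_of_ilog (m : ℕ) (B : ℕ) : ∃ M : ℝ, ∀ N : ℕ, N ≤ B → Real.log^[m] (N : ℝ) ≤ M ∧
    -M ≤ Real.log^[m] (N : ℝ) := by
  classical
  refine ⟨∑ N ∈ Finset.range (B + 1), |Real.log^[m] (N : ℝ)|, fun N hN => ?_⟩
  have h1 : |Real.log^[m] (N : ℝ)| ≤ ∑ N ∈ Finset.range (B + 1), |Real.log^[m] (N : ℝ)| :=
    Finset.single_le_sum (f := fun N : ℕ => |Real.log^[m] (N : ℝ)|) (fun _ _ => abs_nonneg _)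
      (Finset.mem_range.2 (by omega))
  have h2 := abs_le.1 h1
  exact ⟨h2.2, h2.1⟩

lemma tendsto_pow_change {A t : ℝ} (hA : 0 < A) (ht : 0 < t) :
    Tendsto (fun T : ℝ => A * T ^ t) atTop atTop :=
  (tendsto_rpow_atTop ht).const_mul_atTop hA

/-- Transfer of the limit `1`. -/
theorem order_transfer {N₁ N₂ : ℝ → ℕ} {A t B s : ℝ} (hA : 0 < A) (ht : 0 < t) (hB : 0 < B)
    (hs : 0 < s) (h1 : ∀ᶠ T in atTop, N₁ (A * T ^ t) ≤ N₂ T)
    (h2 : ∀ᶠ T in atTop, N₂ T ≤ N₁ (B * T ^ s)) (m a : ℕ) (hm : 2 ≤ m)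
    (h : Tendsto (fun T : ℝ => Real.log^[m] (N₁ T : ℝ) / Real.log^[m + a] T) atTop (𝓝 1)) :
    Tendsto (fun T : ℝ => Real.log^[m] (N₂ T : ℝ) / Real.log^[m + a] T) atTop (𝓝 1) := by
  obtain ⟨D, hD1, hD⟩ := ilog_mono m
  have hma := tendsto_ilog (m + a)
  -- the iterated logarithm of `N₁` tends to infinity
  have hlim : Tendsto (fun T : ℝ => Real.log^[m] (N₁ T : ℝ)) atTop atTop := by
    have h3 : Tendsto (fun T : ℝ => Real.log^[m] (N₁ T : ℝ) / Real.log^[m + a] T *
        Real.log^[m + a] T) atTop atTop := h.pos_mul_atTop one_pos hma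
    refine h3.congr' ?_
    filter_upwards [hma.eventually_gt_atTop 0] with T hT
    field_simp
  obtain ⟨M, hM⟩ := large_of_ilog m ⌈D⌉₊
  have hN1 : ∀ᶠ T in atTop, D ≤ (N₁ T : ℝ) := by
    filter_upwards [hlim.eventually_gt_atTop M] with T hT
    by_contra hcon
    push Not at hcon
    have h4 : N₁ T ≤ ⌈D⌉₊ := by
      have := hcon.le.trans (Nat.le_ceil D)
      exact_mod_cast this
    linarith [(hM _ h4).1]
  obtain ⟨j, hj⟩ := Nat.exists_eq_add_of_le' (show 2 ≤ m + a by omega)
  -- the two comparison functions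
  have hcmp : ∀ {A t : ℝ}, 0 < A → 0 < t →
      Tendsto (fun T : ℝ => Real.log^[m] (N₁ (A * T ^ t) : ℝ) / Real.log^[m + a] T) atTop
        (𝓝 1) := by
    intro A t hA ht
    have g1 := h.comp (tendsto_pow_change hA ht)
    have g2 := ratio_pow hA ht j
    rw [← hj] at g2
    have g3 := g1.mul g2
    rw [one_mul] at g3
    refine g3.congr' ?_
    filter_upwards [((tendsto_pow_change hA ht).eventually (hma.eventually_gt_atTop 0)),
      hma.eventually_gt_atTop 0] with T t1 t2
    simp only [Function.comp_apply]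
    field_simp
  refine tendsto_of_tendsto_of_tendsto_of_le_of_le' (hcmp hA ht) (hcmp hB hs) ?_ ?_
  · filter_upwards [h1, (tendsto_pow_change hA ht).eventually hN1, hma.eventually_gt_atTop 0]
      with T g1 g2 g3
    have := (hD _ (N₂ T : ℝ) g2 (by exact_mod_cast g1)).2
    gcongr
  · filter_upwards [h1, h2, (tendsto_pow_change hA ht).eventually hN1,
      hma.eventually_gt_atTop 0] with T g1 g1' g2 g3
    have h5 : D ≤ (N₂ T : ℝ) := g2.trans (by exact_mod_cast g1)
    have := (hD _ (N₁ (B * T ^ s) : ℝ) h5 (by exact_mod_cast g1')).2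
    gcongr

/-- Transfer of the limit `0`. -/
theorem order_transfer_zero {N₁ N₂ : ℝ → ℕ} {B s : ℝ} (hB : 0 < B)
    (hs : 0 < s) (h2 : ∀ᶠ T in atTop, N₂ T ≤ N₁ (B * T ^ s)) (m a : ℕ) (hm : 2 ≤ m)
    (h : Tendsto (fun T : ℝ => Real.log^[m] (N₁ T : ℝ) / Real.log^[m + a] T) atTop (𝓝 0)) :
    Tendsto (fun T : ℝ => Real.log^[m] (N₂ T : ℝ) / Real.log^[m + a] T) atTop (𝓝 0) := by
  obtain ⟨D, hD1, hD⟩ := ilog_mono m
  have hma := tendsto_ilog (m + a)
  obtain ⟨M, hM⟩ := large_of_ilog m ⌈D⌉₊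
  obtain ⟨j, hj⟩ := Nat.exists_eq_add_of_le' (show 2 ≤ m + a by omega)
  have hcmp : Tendsto (fun T : ℝ => Real.log^[m] (N₁ (B * T ^ s) : ℝ) / Real.log^[m + a] T) atTop
        (𝓝 0) := by
    have g1 := h.comp (tendsto_pow_change hB hs)
    have g2 := ratio_pow hB hs j
    rw [← hj] at g2
    have g3 := g1.mul g2
    rw [zero_mul] at g3
    refine g3.congr' ?_
    filter_upwards [((tendsto_pow_change hB hs).eventually (hma.eventually_gt_atTop 0)),
      hma.eventually_gt_atTop 0] with T t1 t2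
    simp only [Function.comp_apply]
    field_simp
  have hMlim : Tendsto (fun T : ℝ => |M| / Real.log^[m + a] T) atTop (𝓝 0) :=
    hma.const_div_atTop _
  have hup : Tendsto (fun T : ℝ => |M| / Real.log^[m + a] T +
      |Real.log^[m] (N₁ (B * T ^ s) : ℝ) / Real.log^[m + a] T|) atTop (𝓝 0) := by
    have := hMlim.add hcmp.abs
    simpa using this
  refine squeeze_zero_norm' ?_ hup
  filter_upwards [h2, hma.eventually_gt_atTop 0] with T g1 g3
  rw [Real.norm_eq_abs]
  by_cases hc : D ≤ (N₂ T : ℝ)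
  · obtain ⟨h5, h6⟩ := hD (N₂ T : ℝ) (N₁ (B * T ^ s) : ℝ) hc (by exact_mod_cast g1)
    have h7 : |Real.log^[m] (N₂ T : ℝ) / Real.log^[m + a] T| ≤
        |Real.log^[m] (N₁ (B * T ^ s) : ℝ) / Real.log^[m + a] T| := by
      rw [abs_of_nonneg (by positivity), abs_of_nonneg (div_nonneg (h5.le.trans h6) g3.le)]
      gcongr
    have : 0 ≤ |M| / Real.log^[m + a] T := by positivity
    linarith
  · push Not at hc
    have h4 : N₂ T ≤ ⌈D⌉₊ := by
      have := hc.le.trans (Nat.le_ceil D)
      exact_mod_cast this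
    obtain ⟨h8, h9⟩ := hM _ h4
    have h10 : |Real.log^[m] (N₂ T : ℝ)| ≤ |M| := by
      rw [abs_le]
      have := le_abs_self M
      constructor <;> linarith
    rw [abs_div, abs_of_pos g3]
    have : 0 ≤ |Real.log^[m] (N₁ (B * T ^ s) : ℝ) / Real.log^[m + a] T| := abs_nonneg _
    have : |Real.log^[m] (N₂ T : ℝ)| / Real.log^[m + a] T ≤ |M| / Real.log^[m + a] T := by
      gcongr
    linarith

end Pool.Agent.Helper16.A9
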