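import Mathlib
import Pool.Agent.Helper3.A9.Asy

set_option autoImplicit false

/-!
Counting functions which are polynomial in the logarithm have order one.
-/

namespace Pool.Agent.Helper16.A9

open Filter Topology
open Pool.Agent.Helper3.A9

theorem order_one {N : ℝ → ℝ} {c c' C C' : ℝ} (hc : 0 < c) (hc' : 0 < c') (hC : 0 < C)
    (hC' : 0 < C')
    (h : ∀ᶠ T in atTop, c * Real.log T ^ c' ≤ N T ∧ N T ≤ C * Real.log T ^ C') :
    Tendsto (fun T => Real.log^[2] (N T) / Real.log^[3] T) atTop (𝓝 1) := by
  have h1 : ∀ᶠ s in atTop, c * s ^ c' ≤ N (Real.exp s) := by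
    filter_upwards [Real.tendsto_exp_atTop.eventually h] with s hs
    rw [Real.log_exp] at hs
    exact hs.1
  have h2 : ∀ᶠ s in atTop, N (Real.exp s) ≤ C * s ^ C' := by
    filter_upwards [Real.tendsto_exp_atTop.eventually h] with s hs
    rw [Real.log_exp] at hs
    exact hs.2
  have h3 := order_zero (N := fun s => N (Real.exp s)) hc hc' hC hC' h1 h2
  have h4 := h3.comp Real.tendsto_log_atTop
  refine h4.congr' ?_
  filter_upwards [eventually_gt_atTop 0] with T hT
  simp only [Function.comp_apply]
  rw [Real.exp_log hT]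
  rfl

end Pool.Agent.Helper16.A9
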