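import Mathlib

set_option autoImplicit false

/-!
Polynomial growth of the naive height of the multiples of a point on an elliptic curve.
-/

namespace Pool.Agent.Helper16.A9

open Height WeierstrassCurve

section Bd

variable {L : Type*} [Field L] [AdmissibleAbsValues L]

/-- `z` has logarithmic height at most `k * S`. -/
def Bd (S : ℝ) (k : ℕ) (z : L) : Prop := logHeight₁ z ≤ k * S

variable {S : ℝ}

lemma Bd.mono {k l : ℕ} {z : L} (hS : 0 ≤ S) (h : Bd S k z) (hkl : k ≤ l) : Bd S l z := by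
  unfold Bd at *
  have : (k : ℝ) ≤ l := by exact_mod_cast hkl
  nlinarith

lemma Bd.add {k l : ℕ} {z w : L} (hS : totalWeight L * Real.log 2 ≤ S) (hz : Bd S k z)
    (hw : Bd S l w) : Bd S (k + l + 1) (z + w) := by
  unfold Bd at *
  have := logHeight₁_add_le z w
  push_cast
  linarith

lemma Bd.sub {k l : ℕ} {z w : L} (hS : totalWeight L * Real.log 2 ≤ S) (hz : Bd S k z)
    (hw : Bd S l w) : Bd S (k + l + 1) (z - w) := by
  unfold Bd at *
  have := logHeight₁_sub_le z w
  push_cast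
  linarith

lemma Bd.mul {k l : ℕ} {z w : L} (hz : Bd S k z) (hw : Bd S l w) : Bd S (k + l) (z * w) := by
  unfold Bd at *
  have := logHeight₁_mul_le z w
  push_cast
  linarith

lemma Bd.neg {k : ℕ} {z : L} (hz : Bd S k z) : Bd S k (-z) := by
  unfold Bd at *
  rwa [logHeight₁_neg]

lemma Bd.inv {k : ℕ} {z : L} (hz : Bd S k z) : Bd S k (z⁻¹) := by
  unfold Bd at *
  rwa [logHeight₁_inv]

lemma Bd.div {k l : ℕ} {z w : L} (hz : Bd S k z) (hw : Bd S l w) : Bd S (k + l) (z / w) := by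
  rw [div_eq_mul_inv]
  exact hz.mul hw.inv

lemma Bd.zero (hS : 0 ≤ S) (k : ℕ) : Bd S k (0 : L) := by
  unfold Bd
  rw [logHeight₁_zero]
  positivity

end Bd

section Pt

variable {L : Type*} [Field L] [AdmissibleAbsValues L] [DecidableEq L]

/-- The sum of the logarithmic heights of the affine coordinates (0 at the origin). -/
noncomputable def ht {W : Affine L} : W.Point → ℝ
  | .zero => 0
  | .some x y _ => logHeight₁ x + logHeight₁ y

omit [DecidableEq L] in
lemma ht_nonneg {W : Affine L} (P : W.Point) : 0 ≤ ht P := by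
  rcases P with _ | ⟨x, y, h⟩
  · exact le_rfl
  · exact add_nonneg (zero_le_logHeight₁ x) (zero_le_logHeight₁ y)

/-- The height of a sum is at most linear in the heights of the terms. -/
lemma ht_add_le (W : Affine L) : ∃ A : ℝ, 1 ≤ A ∧ ∀ P Q : W.Point,
    ht (P + Q) ≤ A * (ht P + ht Q + 1) := by
  set c0 : ℝ := totalWeight L * Real.log 2 + logHeight₁ W.a₁ + logHeight₁ W.a₂ + logHeight₁ W.a₃ +
    logHeight₁ W.a₄ + logHeight₁ (2 : L) + logHeight₁ (3 : L) + 1 with hc0
  have hl2 : 0 ≤ totalWeight L * Real.log 2 := by positivity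
  have n1 := zero_le_logHeight₁ W.a₁
  have n2 := zero_le_logHeight₁ W.a₂
  have n3 := zero_le_logHeight₁ W.a₃
  have n4 := zero_le_logHeight₁ W.a₄
  have n5 := zero_le_logHeight₁ (2 : L)
  have n6 := zero_le_logHeight₁ (3 : L)
  have hc1 : 1 ≤ c0 := by rw [hc0]; linarith
  refine ⟨1000 * c0, by linarith, fun P Q => ?_⟩
  have hP0 := ht_nonneg P
  have hQ0 := ht_nonneg Q
  rcases P with _ | ⟨x₁, y₁, h₁⟩
  · rw [← Affine.Point.zero_def, zero_add]
    have : ht (W := W) (0 : W.Point) = 0 := rfl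
    rw [this]
    nlinarith
  rcases Q with _ | ⟨x₂, y₂, h₂⟩
  · rw [← Affine.Point.zero_def, add_zero]
    have : ht (W := W) (0 : W.Point) = 0 := rfl
    rw [this]
    nlinarith
  set S : ℝ := logHeight₁ x₁ + logHeight₁ y₁ + logHeight₁ x₂ + logHeight₁ y₂ + c0 with hS
  have m1 := zero_le_logHeight₁ x₁
  have m2 := zero_le_logHeight₁ y₁
  have m3 := zero_le_logHeight₁ x₂
  have m4 := zero_le_logHeight₁ y₂
  have hS0 : 0 ≤ S := by linarith
  have hSw : totalWeight L * Real.log 2 ≤ S := by linarith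
  by_cases hxy : x₁ = x₂ ∧ y₁ = W.negY x₂ y₂
  · rw [Affine.Point.add_of_Y_eq hxy.1 hxy.2]
    have : ht (W := W) (0 : W.Point) = 0 := rfl
    rw [this]
    have : 0 ≤ ht (W := W) (.some x₁ y₁ h₁) + ht (W := W) (.some x₂ y₂ h₂) + 1 := by linarith
    positivity
  rw [Affine.Point.add_some hxy]
  change logHeight₁ _ + logHeight₁ _ ≤ 1000 * c0 *
    (logHeight₁ x₁ + logHeight₁ y₁ + (logHeight₁ x₂ + logHeight₁ y₂) + 1)
  have bx1 : Bd S 1 x₁ := by unfold Bd; push_cast; linarith
  have by1 : Bd S 1 y₁ := by unfold Bd; push_cast; linarith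
  have bx2 : Bd S 1 x₂ := by unfold Bd; push_cast; linarith
  have by2 : Bd S 1 y₂ := by unfold Bd; push_cast; linarith
  have ba1 : Bd S 1 W.a₁ := by unfold Bd; push_cast; linarith
  have ba2 : Bd S 1 W.a₂ := by unfold Bd; push_cast; linarith
  have ba3 : Bd S 1 W.a₃ := by unfold Bd; push_cast; linarith
  have ba4 : Bd S 1 W.a₄ := by unfold Bd; push_cast; linarith
  have b2 : Bd S 1 (2 : L) := by unfold Bd; push_cast; linarith
  have b3 : Bd S 1 (3 : L) := by unfold Bd; push_cast; linarith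
  have hneg : ∀ {k l : ℕ} {x y : L}, Bd S k x → Bd S l y → Bd S (k + l + 4) (W.negY x y) := by
    intro k l x y hx hy
    unfold Affine.negY
    exact (((hy.neg.sub hSw (ba1.mul hx)).sub hSw ba3)).mono hS0 (by omega)
  have hsl : Bd S 30 (W.slope x₁ x₂ y₁ y₂) := by
    unfold Affine.slope
    split_ifs with c1 c2
    · exact Bd.zero hS0 _
    · refine Bd.mono hS0 (Bd.div (k := 13) ?_ (by1.sub hSw (hneg bx1 by1))) (by omega)
      have t1 : Bd S 3 (3 * x₁ ^ 2) := by
        rw [pow_two]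
        exact (b3.mul (bx1.mul bx1))
      have t2 : Bd S 3 (2 * W.a₂ * x₁) := (b2.mul ba2).mul bx1
      exact (((t1.add hSw t2).add hSw ba4).sub hSw (ba1.mul by1)).mono hS0 (by omega)
    · exact ((by1.sub hSw by2).div (bx1.sub hSw bx2)).mono hS0 (by omega)
  have hX : Bd S 100 (W.addX x₁ x₂ (W.slope x₁ x₂ y₁ y₂)) := by
    unfold Affine.addX
    rw [pow_two]
    exact (((((hsl.mul hsl).add hSw (ba1.mul hsl)).sub hSw ba2).sub hSw bx1).sub hSw bx2).mono hS0
      (by omega)
  have hN : Bd S 140 (W.negAddY x₁ x₂ y₁ (W.slope x₁ x₂ y₁ y₂)) := by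
    unfold Affine.negAddY
    exact ((hsl.mul (hX.sub hSw bx1)).add hSw by1).mono hS0 (by omega)
  have hY : Bd S 300 (W.addY x₁ x₂ y₁ (W.slope x₁ x₂ y₁ y₂)) := by
    unfold Affine.addY
    exact (hneg hX hN).mono hS0 (by omega)
  unfold Bd at hX hY
  push_cast at hX hY
  have h1 : S ≤ c0 * (logHeight₁ x₁ + logHeight₁ y₁ + (logHeight₁ x₂ + logHeight₁ y₂) + 1) := by
    nlinarith
  nlinarith

/-- The heights of the multiples of a point grow at most polynomially. -/
theorem growth (W : Affine L) (P : W.Point) : ∃ C D : ℕ, ∀ k : ℕ,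
    ht (k • P) ≤ C * ((k : ℝ) + 1) ^ D := by
  obtain ⟨A, hA1, hA⟩ := ht_add_le W
  have hP0 := ht_nonneg P
  -- `n < 2 ^ j` implies `ht (n • P) ≤ B ^ (j + 1)`
  obtain ⟨B, hB⟩ : ∃ B : ℕ, 2 * A * A * 3 * (ht P + 3) ≤ B := exists_nat_ge _
  have hAA : 1 ≤ A * A := by nlinarith
  have hB1 : 6 * (ht P + 3) ≤ B := by nlinarith
  have hBA : A * (2 + A * (ht P + 2)) + 0 ≤ B := by nlinarith [mul_nonneg (mul_nonneg (zero_le_one.trans hA1) (zero_le_one.trans hA1)) hP0]
  have key : ∀ j n : ℕ, n < 2 ^ j → ht (n • P) ≤ (B : ℝ) ^ (2 * j) := by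
    intro j
    induction j with
    | zero =>
      intro n hn
      have : n = 0 := by simpa using hn
      subst this
      rw [zero_smul]
      have : ht (W := W) (0 : W.Point) = 0 := rfl
      rw [this]
      positivity
    | succ j ih =>
      intro n hn
      have hm : n / 2 < 2 ^ j := by
        rw [pow_succ] at hn
        omega
      have h1 := ih _ hm
      have hBj : (1 : ℝ) ≤ (B : ℝ) ^ (2 * j) := one_le_pow₀ (by linarith)
      have h2 := hA ((n / 2) • P) ((n / 2) • P)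
      have h0 := ht_nonneg ((n / 2) • P + (n / 2) • P)
      have h0' := ht_nonneg ((n / 2) • P)
      have hB0 : (0:ℝ) ≤ B := by linarith
      have h3 : ht ((n / 2) • P + (n / 2) • P) ≤ 3 * A * (B : ℝ) ^ (2 * j) := by nlinarith
      have hgoal : A * (3 * A * (B : ℝ) ^ (2 * j) + ht P + 1) ≤ (B : ℝ) ^ (2 * (j + 1)) := by
        have e : (B : ℝ) ^ (2 * (j + 1)) = (B : ℝ) ^ (2 * j) * (B * B) := by ring
        rw [e]
        have : A * (3 * A * (B : ℝ) ^ (2 * j) + ht P + 1) ≤
            (B : ℝ) ^ (2 * j) * (A * A * 3 * (ht P + 3)) := by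
          have q1 : A ≤ A * A := by nlinarith
          have q2 : 0 ≤ A * A := by nlinarith
          have q3 : A * (ht P + 1) ≤ A * A * (ht P + 1) := by nlinarith
          have q4 : A * A * (ht P + 1) ≤ (B : ℝ) ^ (2 * j) * (A * A * (ht P + 1)) := by
            have : 0 ≤ A * A * (ht P + 1) := by positivity
            nlinarith
          have q5 : 0 ≤ (B : ℝ) ^ (2 * j) * (A * A) := by positivity
          nlinarith
        have hBB : A * A * 3 * (ht P + 3) ≤ B * B := by
          have : A * A * 3 * (ht P + 3) ≤ B := by nlinarith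
          nlinarith
        have : (B : ℝ) ^ (2 * j) * (A * A * 3 * (ht P + 3)) ≤ (B : ℝ) ^ (2 * j) * (B * B) := by
          gcongr
        linarith
      rcases Nat.even_or_odd' n with ⟨m, rfl | rfl⟩
      · have e1 : 2 * m / 2 = m := by omega
        rw [e1] at h3 h1
        have e2 : (2 * m) • P = m • P + m • P := by rw [two_mul, add_smul]
        rw [e2]
        refine h3.trans (le_trans ?_ hgoal)
        have : 0 ≤ 3 * A * (B : ℝ) ^ (2 * j) := by positivity
        nlinarith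
      · have e1 : (2 * m + 1) / 2 = m := by omega
        rw [e1] at h3 h1
        have e2 : (2 * m + 1) • P = (m • P + m • P) + P := by
          rw [two_mul, add_smul, add_smul, one_smul]
        rw [e2]
        refine (hA _ _).trans (le_trans ?_ hgoal)
        gcongr
  refine ⟨B ^ 2, 2 * Nat.clog 2 B, fun k => ?_⟩
  have h1 := key (Nat.log 2 k + 1) k (Nat.lt_pow_succ_log_self one_lt_two k)
  refine h1.trans ?_
  have h2 : (2 : ℕ) ^ Nat.log 2 k ≤ k + 1 := by
    rcases Nat.eq_zero_or_pos k with rfl | hk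
    · simp
    · exact (Nat.pow_log_le_self 2 hk.ne').trans (Nat.le_succ k)
  have h3 : B ≤ 2 ^ Nat.clog 2 B := Nat.le_pow_clog one_lt_two B
  have h4 : B ^ (2 * (Nat.log 2 k + 1)) ≤ B ^ 2 * (k + 1) ^ (2 * Nat.clog 2 B) := by
    calc B ^ (2 * (Nat.log 2 k + 1)) = B ^ 2 * B ^ (2 * Nat.log 2 k) := by ring
      _ ≤ B ^ 2 * (2 ^ Nat.clog 2 B) ^ (2 * Nat.log 2 k) := by gcongr
      _ = B ^ 2 * (2 ^ Nat.log 2 k) ^ (2 * Nat.clog 2 B) := by
          rw [← pow_mul, ← pow_mul]
          congr 2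
          ring
      _ ≤ B ^ 2 * (k + 1) ^ (2 * Nat.clog 2 B) := by gcongr
  exact_mod_cast h4

end Pt

end Pool.Agent.Helper16.A9
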