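import Mathlib
import Pool.Agent.Helper16.A9.Growth

set_option autoImplicit false

/-!
Counting points on the image of an elliptic curve under a rational map.
-/

namespace Pool.Agent.Helper16.A9

open Height WeierstrassCurve Polynomial
open scoped Polynomial.Bivariate

section Heights

variable {L : Type*} [Field L] [AdmissibleAbsValues L]

lemma logHeight_powers (x : L) (d : ℕ) :
    logHeight (fun k : Fin (d + 1) => x ^ (k : ℕ)) ≤ d * logHeight₁ x := by
  classical
  have hX : ∀ _ : Fin d, (![x, 1] : Fin 2 → L) ≠ 0 := by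
    intro _ h
    have := congrFun h 1
    simp at this
  have h1 := logHeight_fun_prod_eq (K := L) (x := fun _ : Fin d => (![x, 1] : Fin 2 → L)) hX
  have h2 := logHeight_comp_le
    (fun (k : Fin (d + 1)) (a : Fin d) => if (a : ℕ) < k then (0 : Fin 2) else 1)
    (fun I : Fin d → Fin 2 => ∏ a, (![x, 1] : Fin 2 → L) (I a))
  have h3 : ((fun I : Fin d → Fin 2 => ∏ a, (![x, 1] : Fin 2 → L) (I a)) ∘
      (fun (k : Fin (d + 1)) (a : Fin d) => if (a : ℕ) < k then (0 : Fin 2) else 1)) =
      fun k : Fin (d + 1) => x ^ (k : ℕ) := by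
    funext k
    simp only [Function.comp_apply]
    have : ∀ a : Fin d, (![x, 1] : Fin 2 → L) (if (a : ℕ) < k then (0 : Fin 2) else 1) =
        if (a : ℕ) < k then x else 1 := by
      intro a
      split_ifs <;> simp
    simp only [this]
    rw [Finset.prod_ite, Finset.prod_const, Finset.prod_const_one, mul_one]
    congr 1
    have hk : (k : ℕ) ≤ d := Nat.lt_succ_iff.1 k.2
    rw [Fin.card_filter_val_lt]
    omega
  rw [h3, h1] at h2
  refine h2.trans ?_
  rw [Finset.sum_const, Finset.card_univ, Fintype.card_fin, nsmul_eq_mul, ← logHeight₁_eq_logHeight]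

/-- The value of the tuple `p i + q i * Y` at `(x, y)`. -/
noncomputable def val {n : ℕ} (p q : Fin n → L[X]) (x y : L) : Fin n → L :=
  fun i => (p i).eval x + (q i).eval x * y

lemma logHeight_val_le {n : ℕ} (p q : Fin n → L[X]) :
    ∃ C : ℝ, 0 ≤ C ∧ ∀ x y : L, logHeight (val p q x y) ≤ C * (logHeight₁ x + logHeight₁ y + 1) := by
  classical
  obtain ⟨d, hd⟩ : ∃ d : ℕ, ∀ i, (p i).natDegree ≤ d ∧ (q i).natDegree ≤ d := by
    refine ⟨∑ i, ((p i).natDegree + (q i).natDegree), fun i => ?_⟩
    have := Finset.single_le_sum (f := fun i => (p i).natDegree + (q i).natDegree)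
      (fun _ _ => Nat.zero_le _) (Finset.mem_univ i)
    omega
  let A : Fin n × (Fin (d + 1) × Fin 2) → L := fun t =>
    if t.2.2 = 0 then (q t.1).coeff t.2.1 else (p t.1).coeff t.2.1
  set c0 : ℝ := totalWeight L * Real.log (Nat.card (Fin (d + 1) × Fin 2)) + logHeight A with hc0
  have hc0' : 0 ≤ c0 := by
    have : 0 ≤ totalWeight L * Real.log (Nat.card (Fin (d + 1) × Fin 2)) := by
      apply mul_nonneg (Nat.cast_nonneg _)
      exact Real.log_natCast_nonneg _
    have := logHeight_nonneg A
    linarith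
  refine ⟨c0 + d + 1, by positivity, fun x y => ?_⟩
  have hx0 := zero_le_logHeight₁ x
  have hy0 := zero_le_logHeight₁ y
  have h1 := logHeight_linearMap_apply_le A
    (fun t : Fin (d + 1) × Fin 2 => x ^ (t.1 : ℕ) * (![y, 1] : Fin 2 → L) t.2)
  have h2 : (fun j => ∑ i : Fin (d + 1) × Fin 2, A (j, i) *
      (x ^ (i.1 : ℕ) * (![y, 1] : Fin 2 → L) i.2)) = val p q x y := by
    funext j
    unfold val
    rw [Fintype.sum_prod_type]
    simp only [Fin.sum_univ_two, A]
    rw [eval_eq_sum_range' (Nat.lt_succ_of_le (hd j).1), eval_eq_sum_range'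
      (Nat.lt_succ_of_le (hd j).2), Finset.sum_mul, ← Fin.sum_univ_eq_sum_range
      (fun i => (p j).coeff i * x ^ i), ← Fin.sum_univ_eq_sum_range
      (fun i => (q j).coeff i * x ^ i * y), ← Finset.sum_add_distrib]
    apply Finset.sum_congr rfl
    intro k _
    simp
    ring
  rw [h2] at h1
  have h3 : logHeight (fun t : Fin (d + 1) × Fin 2 => x ^ (t.1 : ℕ) * (![y, 1] : Fin 2 → L) t.2) =
      logHeight (fun k : Fin (d + 1) => x ^ (k : ℕ)) + logHeight (![y, 1] : Fin 2 → L) := by
    refine logHeight_fun_mul_eq (x := fun k : Fin (d + 1) => x ^ (k : ℕ))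
      (y := (![y, 1] : Fin 2 → L)) ?_ ?_
    · intro h
      have := congrFun h 0
      simp at this
    · intro h
      have := congrFun h 1
      simp at this
  rw [h3, ← logHeight₁_eq_logHeight] at h1
  have h4 := logHeight_powers x d
  calc logHeight (val p q x y) ≤ c0 + (d * logHeight₁ x + logHeight₁ y) := by
        rw [hc0]; linarith
    _ ≤ (c0 + d + 1) * (logHeight₁ x + logHeight₁ y + 1) := by
        have hd0 : (0 : ℝ) ≤ d := Nat.cast_nonneg d
        nlinarith [mul_nonneg hc0' hx0, mul_nonneg hc0' hy0, mul_nonneg hd0 hy0]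

end Heights

section Zeros

variable {L : Type*} [Field L]

/-- A nonzero function `p + q Y` on a Weierstrass curve has few zeros. -/
lemma zeros_card (W : Affine L) (m : ℕ) (p q : L[X]) (hp : p.natDegree ≤ m) (hq : q.natDegree ≤ m)
    (h0 : ¬(p = 0 ∧ q = 0)) :
    {z : L × L | W.Equation z.1 z.2 ∧ p.eval z.1 + q.eval z.1 * z.2 = 0}.Finite ∧
    {z : L × L | W.Equation z.1 z.2 ∧ p.eval z.1 + q.eval z.1 * z.2 = 0}.ncard ≤
      2 * (2 * m + 3) := by
  classical
  set R : L[X] := p ^ 2 - p * q * (C W.a₁ * X + C W.a₃) -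
    q ^ 2 * (X ^ 3 + C W.a₂ * X ^ 2 + C W.a₄ * X + C W.a₆) with hR
  have hnorm : Algebra.norm L[X] (p • (1 : W.CoordinateRing) + q • Affine.CoordinateRing.mk W Y) =
      R := by
    rw [Affine.CoordinateRing.norm_smul_basis]
  have hdeg := Affine.CoordinateRing.degree_norm_smul_basis (W' := W) p q
  rw [hnorm] at hdeg
  have hR0 : R ≠ 0 := by
    intro h
    rw [h, degree_zero] at hdeg
    rcases not_and_or.1 h0 with h1 | h1
    · have h2 : (2 • p.degree : WithBot ℕ) ≤ ⊥ := by
        rw [hdeg]; exact le_max_left _ _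
      rw [degree_eq_natDegree h1] at h2
      have h3 : (2 • ((p.natDegree : ℕ) : WithBot ℕ)) = ((2 * p.natDegree : ℕ) : WithBot ℕ) := by
        rw [nsmul_eq_mul]; push_cast; rfl
      rw [h3] at h2
      exact WithBot.coe_ne_bot (le_bot_iff.1 h2)
    · have h2 : (2 • q.degree + 3 : WithBot ℕ) ≤ ⊥ := by
        rw [hdeg]; exact le_max_right _ _
      rw [degree_eq_natDegree h1] at h2
      have h3 : (2 • ((q.natDegree : ℕ) : WithBot ℕ) + 3) =
          ((2 * q.natDegree + 3 : ℕ) : WithBot ℕ) := by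
        rw [nsmul_eq_mul]; push_cast; rfl
      rw [h3] at h2
      exact WithBot.coe_ne_bot (le_bot_iff.1 h2)
  have hRdeg : R.natDegree ≤ 2 * m + 3 := by
    rw [hR]
    have e1 : (p ^ 2).natDegree ≤ 2 * m + 3 := by
      refine (natDegree_pow_le).trans ?_
      omega
    have e2 : (p * q * (C W.a₁ * X + C W.a₃)).natDegree ≤ 2 * m + 3 := by
      refine (natDegree_mul_le).trans ?_
      have t1 : (p * q).natDegree ≤ 2 * m := (natDegree_mul_le).trans (by omega)
      have t2 : (C W.a₁ * X + C W.a₃).natDegree ≤ 1 := natDegree_linear_le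
      omega
    have e3 : (q ^ 2 * (X ^ 3 + C W.a₂ * X ^ 2 + C W.a₄ * X + C W.a₆)).natDegree ≤ 2 * m + 3 := by
      refine (natDegree_mul_le).trans ?_
      have t1 : (q ^ 2).natDegree ≤ 2 * m := (natDegree_pow_le).trans (by omega)
      have t2 : (X ^ 3 + C W.a₂ * X ^ 2 + C W.a₄ * X + C W.a₆).natDegree ≤ 3 := by
        compute_degree
      omega
    refine (natDegree_sub_le _ _).trans (max_le ((natDegree_sub_le _ _).trans (max_le e1 e2)) e3)
  -- projection to the `x`-coordinate
  have hx : ∀ z : L × L, W.Equation z.1 z.2 → p.eval z.1 + q.eval z.1 * z.2 = 0 →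
      z.1 ∈ R.roots.toFinset := by
    rintro ⟨x, y⟩ hE h
    rw [Multiset.mem_toFinset, mem_roots hR0, IsRoot, hR]
    simp only [eval_sub, eval_mul, eval_pow, eval_add, eval_C, eval_X]
    rw [Affine.equation_iff] at hE
    simp only at hE h
    have hp' : p.eval x = -(q.eval x * y) := by linear_combination h
    rw [hp']
    linear_combination (q.eval x) ^ 2 * hE
  have hyx : ∀ x : L, {y : L | W.Equation x y}.Finite ∧ {y : L | W.Equation x y}.ncard ≤ 2 := by
    intro x
    set S : L[X] := X ^ 2 + C (W.a₁ * x + W.a₃) * X -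
      C (x ^ 3 + W.a₂ * x ^ 2 + W.a₄ * x + W.a₆) with hS
    have hSm : S.natDegree ≤ 2 := by rw [hS]; compute_degree
    have hS0 : S ≠ 0 := by
      intro h
      have : S.coeff 2 = 1 := by
        rw [hS]
        generalize x ^ 3 + W.a₂ * x ^ 2 + W.a₄ * x + W.a₆ = c
        generalize W.a₁ * x + W.a₃ = b
        simp [coeff_X, coeff_C]
      rw [h] at this
      simp at this
    have hsub : {y : L | W.Equation x y} ⊆ (S.roots.toFinset : Set L) := by
      intro y hy
      have hy' : W.Equation x y := hy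
      rw [Affine.equation_iff] at hy'
      rw [Finset.mem_coe, Multiset.mem_toFinset, mem_roots hS0, IsRoot, hS]
      simp only [eval_sub, eval_mul, eval_pow, eval_add, eval_C, eval_X]
      linear_combination hy'
    refine ⟨(Finset.finite_toSet _).subset hsub, ?_⟩
    refine (Set.ncard_le_ncard hsub (Finset.finite_toSet _)).trans ?_
    rw [Set.ncard_coe_finset]
    exact (Multiset.toFinset_card_le _).trans ((card_roots' _).trans hSm)
  set T : Finset (L × L) := R.roots.toFinset.biUnion
    (fun x => ((hyx x).1.toFinset).image (fun y => (x, y))) with hT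
  have hsub : {z : L × L | W.Equation z.1 z.2 ∧ p.eval z.1 + q.eval z.1 * z.2 = 0} ⊆
      (T : Set (L × L)) := by
    rintro ⟨x, y⟩ ⟨h1, h2⟩
    rw [Finset.mem_coe, hT, Finset.mem_biUnion]
    refine ⟨x, hx (x, y) h1 h2, ?_⟩
    rw [Finset.mem_image]
    exact ⟨y, by rw [Set.Finite.mem_toFinset]; exact h1, rfl⟩
  refine ⟨(Finset.finite_toSet _).subset hsub, ?_⟩
  refine (Set.ncard_le_ncard hsub (Finset.finite_toSet _)).trans ?_
  rw [Set.ncard_coe_finset, hT]
  refine Finset.card_biUnion_le.trans ?_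
  have h1 : ∀ x ∈ R.roots.toFinset, (((hyx x).1.toFinset).image (fun y => (x, y))).card ≤ 2 := by
    intro x _
    refine Finset.card_image_le.trans ?_
    rw [← Set.ncard_eq_toFinset_card _ (hyx x).1]
    exact (hyx x).2
  refine (Finset.sum_le_card_nsmul _ _ _ h1).trans ?_
  rw [smul_eq_mul, mul_comm]
  apply Nat.mul_le_mul_left
  exact (Multiset.toFinset_card_le _).trans ((card_roots' _).trans hRdeg)

end Zeros

end Pool.Agent.Helper16.A9
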