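import Mathlib

set_option autoImplicit false

/-!
Polynomial upper bounds for the number of points of bounded height in projective space over a
number field.
-/

namespace Pool.Agent.Helper16.A9

open Height NumberField Module Polynomial

variable {L : Type*} [Field L] [NumberField L]

/-- Every archimedean absolute value is at most the height. -/
lemma place_le (x : L) (v : InfinitePlace L) : v x ≤ mulHeight₁ x := by
  classical
  rw [NumberField.mulHeight₁_eq]
  have h1 : ∀ w : InfinitePlace L, (1:ℝ) ≤ max (w x) 1 ^ w.mult :=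
    fun w => one_le_pow₀ (le_max_right _ _)
  have h2 : (1:ℝ) ≤ ∏ᶠ w : FinitePlace L, max (w x) 1 := by
    refine finprod_induction (p := fun y : ℝ => 1 ≤ y) le_rfl (fun a b ha hb => ?_)
      (fun w => le_max_right _ _)
    nlinarith
  have h3 : (1:ℝ) ≤ ∏ w ∈ Finset.univ.erase v, max (w x) 1 ^ w.mult := by
    refine Finset.prod_induction _ (fun y : ℝ => 1 ≤ y) (fun a b ha hb => ?_) le_rfl
      (fun w _ => h1 w)
    nlinarith
  have h4 : v x ≤ max (v x) 1 ^ v.mult := by
    refine (le_max_left (v x) 1).trans ?_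
    exact le_self_pow₀ (le_max_right _ _) v.mult_ne_zero
  rw [← Finset.mul_prod_erase Finset.univ (fun w : InfinitePlace L => max (w x) 1 ^ w.mult)
    (Finset.mem_univ v)]
  have h5 : (0:ℝ) ≤ max (v x) 1 ^ v.mult := zero_le_one.trans (h1 v)
  calc v x ≤ max (v x) 1 ^ v.mult * 1 * 1 := by rw [mul_one, mul_one]; exact h4
    _ ≤ _ := by gcongr

lemma embedding_le (x : L) (φ : L →+* ℂ) : ‖φ x‖ ≤ mulHeight₁ x := by
  have := place_le x (InfinitePlace.mk φ)
  simpa using this

/-- Number of algebraic integers with bounded conjugates. -/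
lemma card_integers (L : Type*) [Field L] [NumberField L] :
    ∃ C c : ℕ, ∀ R : ℕ, 1 ≤ R →
      {x : L | IsIntegral ℤ x ∧ ∀ φ : L →+* ℂ, ‖φ x‖ ≤ R}.Finite ∧
      {x : L | IsIntegral ℤ x ∧ ∀ φ : L →+* ℂ, ‖φ x‖ ≤ R}.ncard ≤ C * R ^ c := by
  classical
  set d := finrank ℚ L with hd
  set b := d.choose (d / 2) with hb
  have hbpos : 1 ≤ b := Nat.succ_le_iff.mpr (Nat.choose_pos (d.div_le_self 2))
  refine ⟨d * (3 * b) ^ (d + 1), d * (d + 1), fun R hR => ?_⟩
  have hfin := Embeddings.finite_of_norm_le L ℂ (R : ℝ)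
  refine ⟨hfin, ?_⟩
  set M : ℕ := R ^ d * b with hM
  have hMpos : 1 ≤ M := Nat.one_le_iff_ne_zero.mpr (by positivity)
  set s : Finset L := hfin.toFinset with hs
  rw [Set.ncard_eq_toFinset_card _ hfin, ← hs]
  -- the coefficient map
  let f : L → (Fin (d + 1) → ℤ) := fun x i => (minpoly ℤ x).coeff i
  have hmem : ∀ x ∈ s, IsIntegral ℤ x ∧ ∀ φ : L →+* ℂ, ‖φ x‖ ≤ R := by
    intro x hx
    simpa [hs] using hx
  have hdeg : ∀ x ∈ s, (minpoly ℤ x).natDegree ≤ d := by
    intro x hx
    have hi := (hmem x hx).1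
    have h_map := minpoly.isIntegrallyClosed_eq_field_fractions' ℚ hi
    rw [← (minpoly.monic hi).natDegree_map (algebraMap ℤ ℚ), ← h_map]
    exact minpoly.natDegree_le x
  have hcoef : ∀ x ∈ s, ∀ i, |(minpoly ℤ x).coeff i| ≤ (M : ℤ) := by
    intro x hx i
    have hi := (hmem x hx).1
    have h_map := minpoly.isIntegrallyClosed_eq_field_fractions' ℚ hi
    have h := Embeddings.coeff_bdd_of_norm_le (hmem x hx).2 i
    rw [h_map, coeff_map, eq_intCast, Int.norm_cast_rat, Int.norm_eq_abs] at h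
    have hmax : max (R : ℝ) 1 = R := max_eq_left (by exact_mod_cast hR)
    rw [hmax] at h
    have h' : ((|(minpoly ℤ x).coeff i| : ℤ) : ℝ) ≤ ((M : ℤ) : ℝ) := by
      rw [hM]; push_cast
      exact h
    exact_mod_cast h'
  have himage : s.image f ⊆ Fintype.piFinset (fun _ : Fin (d + 1) => Finset.Icc (-(M : ℤ)) M) := by
    intro g hg
    obtain ⟨x, hx, rfl⟩ := Finset.mem_image.1 hg
    rw [Fintype.mem_piFinset]
    intro i
    rw [Finset.mem_Icc, ← abs_le]
    exact hcoef x hx i
  have hfib : ∀ a ∈ s.image f, (s.filter (fun x => f x = a)).card ≤ d := by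
    intro a ha
    obtain ⟨x, hx, rfl⟩ := Finset.mem_image.1 ha
    have hi := (hmem x hx).1
    have hsub : s.filter (fun y => f y = f x) ⊆ ((minpoly ℤ x).map (algebraMap ℤ L)).roots.toFinset := by
      intro y hy
      rw [Finset.mem_filter] at hy
      have hyi := (hmem y hy.1).1
      have heq : minpoly ℤ y = minpoly ℤ x := by
        ext i
        by_cases hid : i < d + 1
        · exact congrFun hy.2 ⟨i, hid⟩
        · rw [coeff_eq_zero_of_natDegree_lt (by have := hdeg y hy.1; omega),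
            coeff_eq_zero_of_natDegree_lt (by have := hdeg x hx; omega)]
      rw [Multiset.mem_toFinset, mem_roots ((minpoly.monic hi).map _).ne_zero, IsRoot, eval_map,
        ← heq]
      exact minpoly.aeval ℤ y
    refine (Finset.card_le_card hsub).trans ((Multiset.toFinset_card_le _).trans ?_)
    refine (card_roots' _).trans ?_
    rw [(minpoly.monic hi).natDegree_map]
    exact hdeg x hx
  have h1 := Finset.card_le_mul_card_image s d hfib
  have h2 : (s.image f).card ≤ (2 * M + 1) ^ (d + 1) := by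
    refine (Finset.card_le_card himage).trans ?_
    rw [Fintype.card_piFinset]
    simp only [Int.card_Icc, Finset.prod_const, Finset.card_univ, Fintype.card_fin]
    apply Nat.pow_le_pow_left
    omega
  calc s.card ≤ d * (s.image f).card := h1
    _ ≤ d * (2 * M + 1) ^ (d + 1) := Nat.mul_le_mul_left _ h2
    _ ≤ d * (3 * M) ^ (d + 1) := by
        apply Nat.mul_le_mul_left
        apply Nat.pow_le_pow_left
        omega
    _ = d * (3 * b) ^ (d + 1) * R ^ (d * (d + 1)) := by
        rw [hM, pow_mul, ← mul_assoc, mul_comm 3 (R ^ d), mul_assoc, mul_pow]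
        ring

/-- Number of elements of bounded height. -/
lemma card_elements (L : Type*) [Field L] [NumberField L] :
    ∃ C c : ℕ, ∀ R : ℕ, 1 ≤ R →
      {x : L | mulHeight₁ x ≤ R}.Finite ∧ {x : L | mulHeight₁ x ≤ R}.ncard ≤ C * R ^ c := by
  classical
  obtain ⟨C, c, hC⟩ := card_integers L
  refine ⟨2 * C, 1 + 2 * c, fun R hR => ?_⟩
  have hfin : {x : L | mulHeight₁ x ≤ R}.Finite := finite_setOfPred_mulHeight₁_le L (R : ℝ)
  refine ⟨hfin, ?_⟩
  obtain ⟨hf2, hc2⟩ := hC (R ^ 2) (Nat.one_le_pow _ _ hR)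
  set t : Finset L := hf2.toFinset with ht
  choose n hn0 hn1 hn2 using fun x : L => exists_nat_le_mulHeight₁ x
  have key : Set.MapsTo (fun x : L => ((n x, (n x : L) * x) : ℕ × L))
      {x : L | mulHeight₁ x ≤ R} ((Finset.range (R + 1) ×ˢ t : Finset (ℕ × L)) : Set (ℕ × L)) := by
    intro x hx
    have hx' : mulHeight₁ x ≤ R := hx
    rw [Finset.mem_coe, Finset.mem_product]
    refine ⟨?_, ?_⟩
    · rw [Finset.mem_range]
      have : (n x : ℝ) ≤ R := (hn1 x).trans hx'
      have : n x ≤ R := by exact_mod_cast this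
      change n x < R + 1
      omega
    · rw [ht, Set.Finite.mem_toFinset]
      refine ⟨hn2 x, fun φ => ?_⟩
      have h1 : (n x : ℝ) ≤ R := (hn1 x).trans hx'
      have h2 : ‖φ x‖ ≤ R := (embedding_le x φ).trans hx'
      change ‖φ ((n x : L) * x)‖ ≤ _
      rw [map_mul, map_natCast, norm_mul, Complex.norm_natCast]
      push_cast
      rw [pow_two]
      gcongr
  have hinj : Set.InjOn (fun x : L => ((n x, (n x : L) * x) : ℕ × L))
      {x : L | mulHeight₁ x ≤ R} := by
    intro x _ y _ hxy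
    simp only [Prod.mk.injEq] at hxy
    have h0 : (n x : L) ≠ 0 := by exact_mod_cast hn0 x
    have := hxy.2
    rw [← hxy.1] at this
    exact mul_left_cancel₀ h0 this
  have h3 := Set.ncard_le_ncard_of_injOn _ key hinj (Finset.finite_toSet _)
  rw [Set.ncard_coe_finset, Finset.card_product, Finset.card_range] at h3
  refine h3.trans ?_
  rw [Set.ncard_eq_toFinset_card _ hf2, ← ht] at hc2
  calc (R + 1) * t.card ≤ (2 * R) * (C * (R ^ 2) ^ c) := by
        apply Nat.mul_le_mul _ hc2
        omega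
    _ = 2 * C * R ^ (1 + 2 * c) := by rw [← pow_mul, pow_add]; ring

lemma card_le_nat (L : Type*) [Field L] [NumberField L] (n : ℕ) :
    ∃ C c : ℕ, ∀ R : ℕ, 1 ≤ R →
      {P : Projectivization L (Fin (n + 1) → L) | P.mulHeight ≤ R}.Finite ∧
      {P : Projectivization L (Fin (n + 1) → L) | P.mulHeight ≤ R}.ncard ≤ C * R ^ c := by
  classical
  obtain ⟨C, c, hC⟩ := card_elements L
  refine ⟨C ^ (n + 1), c * (n + 1), fun R hR => ?_⟩
  obtain ⟨hf2, hc2⟩ := hC R hR
  set t : Finset L := hf2.toFinset with ht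
  have hex : ∀ P : Projectivization L (Fin (n + 1) → L), ∃ y : Fin (n + 1) → L, ∃ hy : y ≠ 0,
      P = Projectivization.mk L y hy ∧ ∀ i, mulHeight₁ (y i) ≤ P.mulHeight := by
    intro P
    obtain ⟨j, hj⟩ : ∃ j, P.rep j ≠ 0 := by
      by_contra hcon
      push Not at hcon
      exact P.rep_nonzero (funext hcon)
    have hy : (fun i => P.rep i / P.rep j) ≠ 0 := by
      intro h
      have := congrFun h j
      simp [hj] at this
    refine ⟨fun i => P.rep i / P.rep j, hy, ?_, fun i => ?_⟩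
    · conv_lhs => rw [← P.mk_rep]
      rw [Projectivization.mk_eq_mk_iff']
      refine ⟨P.rep j, ?_⟩
      funext i
      simp only [Pi.smul_apply, smul_eq_mul]
      field_simp
    · rw [mulHeight₁_div_eq_mulHeight]
      have h := mulHeight_comp_le (![i, j] : Fin 2 → Fin (n + 1)) P.rep
      have h2 : (P.rep ∘ ![i, j] : Fin 2 → L) = ![P.rep i, P.rep j] := by
        funext k
        fin_cases k <;> rfl
      rw [h2] at h
      refine h.trans ?_
      conv_rhs => rw [← P.mk_rep]
      rw [Projectivization.mulHeight_mk]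
  choose y hy hPy hyi using hex
  have key : Set.MapsTo y {P : Projectivization L (Fin (n + 1) → L) | P.mulHeight ≤ R}
      ((Fintype.piFinset (fun _ : Fin (n + 1) => t) : Finset (Fin (n + 1) → L)) :
        Set (Fin (n + 1) → L)) := by
    intro P hP
    rw [Finset.mem_coe, Fintype.mem_piFinset]
    intro i
    rw [ht, Set.Finite.mem_toFinset]
    exact (hyi P i).trans hP
  have hinj : Set.InjOn y {P : Projectivization L (Fin (n + 1) → L) | P.mulHeight ≤ R} := by
    intro P _ Q _ h
    rw [hPy P, hPy Q]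
    congr 1
  have hfin : {P : Projectivization L (Fin (n + 1) → L) | P.mulHeight ≤ R}.Finite :=
    Set.Finite.of_injOn key hinj (Finset.finite_toSet _)
  refine ⟨hfin, ?_⟩
  have h3 := Set.ncard_le_ncard_of_injOn _ key hinj (Finset.finite_toSet _)
  rw [Set.ncard_coe_finset, Fintype.card_piFinset] at h3
  simp only [Finset.prod_const, Finset.card_univ, Fintype.card_fin] at h3
  refine h3.trans ?_
  rw [Set.ncard_eq_toFinset_card _ hf2, ← ht] at hc2
  calc t.card ^ (n + 1) ≤ (C * R ^ c) ^ (n + 1) := Nat.pow_le_pow_left hc2 _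
    _ = C ^ (n + 1) * R ^ (c * (n + 1)) := by rw [mul_pow, ← pow_mul]

/-- The number of points of `ℙⁿ(L)` of height at most `B` is at most a power of `B`. -/
theorem card_le (L : Type*) [Field L] [NumberField L] (n : ℕ) :
    ∃ C c : ℝ, 0 < C ∧ 0 < c ∧ ∀ B : ℝ, 1 ≤ B →
      {P : Projectivization L (Fin (n + 1) → L) | P.mulHeight ≤ B}.Finite ∧
      ({P : Projectivization L (Fin (n + 1) → L) | P.mulHeight ≤ B}.ncard : ℝ) ≤ C * B ^ c := by
  obtain ⟨C, c, hC⟩ := card_le_nat L n
  refine ⟨(C + 1) * 2 ^ (c + 1), c + 1, by positivity, by positivity, fun B hB => ?_⟩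
  have hR : 1 ≤ ⌈B⌉₊ := by
    rw [Nat.one_le_iff_ne_zero]
    intro h
    rw [Nat.ceil_eq_zero] at h
    linarith
  obtain ⟨h1, h2⟩ := hC ⌈B⌉₊ hR
  have hsub : {P : Projectivization L (Fin (n + 1) → L) | P.mulHeight ≤ B} ⊆
      {P : Projectivization L (Fin (n + 1) → L) | P.mulHeight ≤ (⌈B⌉₊ : ℕ)} :=
    fun P hP => le_trans hP (Nat.le_ceil B)
  refine ⟨h1.subset hsub, ?_⟩
  have h3 := Set.ncard_le_ncard hsub h1
  have h4 : ((⌈B⌉₊ : ℕ) : ℝ) ≤ 2 * B := by
    have := Nat.ceil_lt_add_one (zero_le_one.trans hB)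
    linarith
  have hB0 : (0:ℝ) ≤ B := zero_le_one.trans hB
  have h5 : (({P : Projectivization L (Fin (n + 1) → L) | P.mulHeight ≤ B}.ncard : ℕ) : ℝ) ≤
      C * (⌈B⌉₊ : ℝ) ^ c := by exact_mod_cast h3.trans h2
  refine h5.trans ?_
  have h6 : B ^ ((c : ℝ) + 1) = B ^ (c + 1) := by
    rw [← Real.rpow_natCast]; push_cast; rfl
  rw [h6]
  calc (C : ℝ) * (⌈B⌉₊ : ℝ) ^ c ≤ (C + 1) * (2 * B) ^ c := by
        gcongr
        linarith
    _ ≤ (C + 1) * (2 * B) ^ (c + 1) := by
        have : (2 * B) ^ c ≤ (2 * B) ^ (c + 1) := pow_le_pow_right₀ (by linarith) (by omega)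
        gcongr
    _ = (C + 1) * 2 ^ (c + 1) * B ^ (c + 1) := by rw [mul_pow]; ring

end Pool.Agent.Helper16.A9
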