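import Mathlib
import Pool.Agent.Helper16.A9.Upper

set_option autoImplicit false

/-!
Points of infinite order: if the height of the `x`-coordinate is large, then a point of an
elliptic curve has infinite order.
-/

namespace Pool.Agent.Helper16.A9

open Height WeierstrassCurve

section Dbl

/-- Numerator of the duplication formula for the `x`-coordinate. -/
def phi {K : Type*} [Field K] (W : WeierstrassCurve K) (x : K) : K :=
  x ^ 4 - W.b₄ * x ^ 2 - 2 * W.b₆ * x - W.b₈

/-- Denominator of the duplication formula for the `x`-coordinate. -/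
def psi {K : Type*} [Field K] (W : WeierstrassCurve K) (x : K) : K :=
  4 * x ^ 3 + W.b₂ * x ^ 2 + 2 * W.b₄ * x + W.b₆

/-- The `x`-coordinate of twice a point. -/
def dbl {K : Type*} [Field K] (W : WeierstrassCurve K) (x : K) : K := phi W x / psi W x

lemma height_double {K : Type*} [Field K] [AdmissibleAbsValues K] (W : WeierstrassCurve K)
    [W.IsElliptic] :
    ∃ C : ℝ, ∀ x : K, 4 * logHeight₁ x - C ≤ logHeight ![phi W x, psi W x] := by
  obtain ⟨C, hC⟩ := WeierstrassCurve.abs_logHeight_addSubMap_sub_two_mul_logHeight_le W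
  refine ⟨C, fun x => ?_⟩
  have h := hC ![x ^ 2, 2 * x, 1]
  have hF : (fun i => MvPolynomial.eval ![x ^ 2, 2 * x, 1] (addSubMap W i)) =
      ![phi W x, psi W x, 0] := by
    funext i
    fin_cases i
    · simp [addSubMap, phi]
      ring
    · simp [addSubMap, psi]
      ring
    · simp [addSubMap]
      ring
  rw [hF] at h
  have h1 : logHeight ![phi W x, psi W x, 0] = logHeight ![phi W x, psi W x] := by
    simp
  rw [h1] at h
  have h2 : 2 * logHeight₁ x ≤ logHeight ![x ^ 2, 2 * x, 1] := by
    have e1 : logHeight₁ (x ^ 2) = 2 * logHeight₁ x := by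
      rw [logHeight₁_pow]
      norm_num
    rw [← e1, logHeight₁_eq_logHeight]
    have e2 := logHeight_comp_le (![0, 2] : Fin 2 → Fin 3) ![x ^ 2, 2 * x, 1]
    have e3 : (![x ^ 2, 2 * x, 1] ∘ ![0, 2] : Fin 2 → K) = ![x ^ 2, 1] := by
      funext i
      fin_cases i <;> simp
    rwa [e3] at e2
  have h3 := (abs_le.1 h).1
  linarith

lemma slope_aux {M : Type*} [Field M] (N D a b x : M) (hD : D ≠ 0) :
    (N / D) ^ 2 + a * (N / D) - b - x - x = (N ^ 2 + a * N * D - (b + 2 * x) * D ^ 2) / D ^ 2 := by
  field_simp
  ring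

lemma two_smul_some {M : Type*} [Field M] [DecidableEq M] (W : Affine M) {x y : M}
    (h : W.Nonsingular x y) (hpsi : psi W x ≠ 0) :
    ∃ y' h', (2 : ℕ) • Affine.Point.some x y h = Affine.Point.some (dbl W x) y' h' := by
  have hE := (W.equation_iff x y).1 h.1
  have hD : (2 * y + W.a₁ * x + W.a₃) ^ 2 = psi W x := by
    unfold psi WeierstrassCurve.b₂ WeierstrassCurve.b₄ WeierstrassCurve.b₆
    linear_combination 4 * hE
  have hD0 : 2 * y + W.a₁ * x + W.a₃ ≠ 0 := by
    intro h0
    rw [h0] at hD
    apply hpsi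
    rw [← hD]
    ring
  have hneg : y - W.negY x y = 2 * y + W.a₁ * x + W.a₃ := by
    unfold Affine.negY
    ring
  have hne : y ≠ W.negY x y := by
    intro h0
    apply hD0
    rw [← hneg, ← h0, sub_self]
  rw [two_smul, Affine.Point.add_self_of_Y_ne hne]
  have hX : W.addX x x (W.slope x x y y) = dbl W x := by
    rw [Affine.slope_of_Y_ne rfl hne, hneg]
    unfold Affine.addX dbl
    rw [← hD]
    have hF : (3 * x ^ 2 + 2 * W.a₂ * x + W.a₄ - W.a₁ * y) ^ 2 +
        W.a₁ * (3 * x ^ 2 + 2 * W.a₂ * x + W.a₄ - W.a₁ * y) * (2 * y + W.a₁ * x + W.a₃) -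
        (W.a₂ + 2 * x) * (2 * y + W.a₁ * x + W.a₃) ^ 2 = phi W x := by
      unfold phi WeierstrassCurve.b₄ WeierstrassCurve.b₆ WeierstrassCurve.b₈
      linear_combination (-(W.a₁ ^ 2 + 4 * W.a₂ + 8 * x)) * hE
    rw [← hF]
    exact slope_aux _ _ _ _ _ hD0
  refine ⟨W.addY x x y (W.slope x x y y), ?_, ?_⟩
  · rw [← hX]
    exact Affine.nonsingular_add h h fun hxy => hne hxy.right
  · simp only [Affine.Point.some.injEq, and_true]
    exact hX

lemma psi_map {K M : Type*} [Field K] [Field M] [Algebra K M] (W : WeierstrassCurve K) (x : K) :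
    psi (W.map (algebraMap K M)) (algebraMap K M x) = algebraMap K M (psi W x) := by
  simp [psi, map_ofNat]

lemma phi_map {K M : Type*} [Field K] [Field M] [Algebra K M] (W : WeierstrassCurve K) (x : K) :
    phi (W.map (algebraMap K M)) (algebraMap K M x) = algebraMap K M (phi W x) := by
  simp [phi, map_ofNat]

lemma dbl_map {K M : Type*} [Field K] [Field M] [Algebra K M] (W : WeierstrassCurve K) (x : K) :
    dbl (W.map (algebraMap K M)) (algebraMap K M x) = algebraMap K M (dbl W x) := by
  unfold dbl
  rw [psi_map, phi_map, map_div₀]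

/-- There is an `x`-coordinate over `K` such that every point with this `x`-coordinate over any
extension field has infinite order. -/
theorem inf_order {K : Type*} [Field K] [NumberField K] (W : WeierstrassCurve K)
    [W.IsElliptic] : ∃ x₀ : K, ∀ (M : Type*) [Field M] [Algebra K M] [DecidableEq M] (y : M)
      (h : (W.map (algebraMap K M)).toAffine.Nonsingular (algebraMap K M x₀) y) (n : ℕ),
      n ≠ 0 → n • (Affine.Point.some (algebraMap K M x₀) y h) ≠ 0 := by
  obtain ⟨C, hC⟩ := height_double W
  have hpsi : ∀ x : K, C < 4 * logHeight₁ x → psi W x ≠ 0 := by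
    intro x hx h0
    have h1 := hC x
    rw [h0] at h1
    have h2 : logHeight ![phi W x, (0 : K)] = 0 := by
      rw [← logHeight₁_div_eq_logHeight]
      simp
    rw [h2] at h1
    linarith
  have hdbl : ∀ x : K, 4 * logHeight₁ x - C ≤ logHeight₁ (dbl W x) := by
    intro x
    unfold dbl
    rw [logHeight₁_div_eq_logHeight]
    exact hC x
  -- a natural number of large height
  obtain ⟨N, hN⟩ := exists_nat_gt (Real.exp (|C| + 1))
  have hNh : |C| + 1 < logHeight₁ ((N : ℕ) : K) := by
    obtain ⟨v⟩ : Nonempty (NumberField.InfinitePlace K) := inferInstance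
    have h1 := place_le ((N : ℕ) : K) v
    have h2 : v ((N : ℕ) : K) = N := by
      rw [← v.norm_embedding_eq, map_natCast, Complex.norm_natCast]
    rw [h2] at h1
    rw [logHeight₁_eq_log_mulHeight₁, Real.lt_log_iff_exp_lt (mulHeight₁_pos _)]
    exact hN.trans_le h1
  set x₀ : K := ((N : ℕ) : K) with hx₀
  refine ⟨x₀, ?_⟩
  intro M _ _ _ y h n hn hzero
  -- the sequence of `x`-coordinates
  have hbig : ∀ k : ℕ, |C| + 1 < logHeight₁ ((dbl W)^[k] x₀) := by
    intro k
    induction k with
    | zero => exact hNh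
    | succ k ih =>
      rw [Function.iterate_succ_apply']
      have := hdbl ((dbl W)^[k] x₀)
      have := le_abs_self C
      have := abs_nonneg C
      linarith
  have hmono : StrictMono fun k : ℕ => logHeight₁ ((dbl W)^[k] x₀) := by
    apply strictMono_nat_of_lt_succ
    intro k
    simp only [Function.iterate_succ_apply']
    have := hdbl ((dbl W)^[k] x₀)
    have := hbig k
    have := le_abs_self C
    have := abs_nonneg C
    linarith
  have hpow : ∀ k : ℕ, ∃ y' h', (2 ^ k) • (Affine.Point.some (algebraMap K M x₀) y h) =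
      Affine.Point.some (algebraMap K M ((dbl W)^[k] x₀)) y' h' := by
    intro k
    induction k with
    | zero => exact ⟨y, h, by simp⟩
    | succ k ih =>
      obtain ⟨y', h', hk⟩ := ih
      have hp : psi (W.map (algebraMap K M)) (algebraMap K M ((dbl W)^[k] x₀)) ≠ 0 := by
        rw [psi_map]
        have h1 := hpsi ((dbl W)^[k] x₀) (by
          have := hbig k
          have := le_abs_self C
          have := abs_nonneg C
          linarith)
        exact (map_ne_zero _).2 h1
      obtain ⟨y2, h2, h3⟩ := two_smul_some (W.map (algebraMap K M)).toAffine h' hp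
      have e : (2 ^ (k + 1)) • (Affine.Point.some (algebraMap K M x₀) y h) =
          (2 : ℕ) • ((2 ^ k) • (Affine.Point.some (algebraMap K M x₀) y h)) := by
        rw [← mul_smul, pow_succ, mul_comm]
      have h4 : dbl (W.map (algebraMap K M)) (algebraMap K M ((dbl W)^[k] x₀)) =
          algebraMap K M ((dbl W)^[k + 1] x₀) := by
        rw [dbl_map, Function.iterate_succ_apply']
      refine ⟨y2, ?_, ?_⟩
      · rw [← h4]
        exact h2
      · rw [e, hk, h3]
        simp only [Affine.Point.some.injEq, and_true]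
        exact h4
  -- finiteness of the multiples of a torsion point
  have hfin : (Set.range fun k : ℕ => k • (Affine.Point.some (algebraMap K M x₀) y h)).Finite := by
    refine ((Set.finite_Iio n).image
      (fun k : ℕ => k • (Affine.Point.some (algebraMap K M x₀) y h))).subset ?_
    rintro _ ⟨k, rfl⟩
    refine ⟨k % n, Nat.mod_lt _ (Nat.pos_of_ne_zero hn), ?_⟩
    simp only
    conv_rhs => rw [← Nat.mod_add_div k n, add_smul, mul_comm, mul_smul, hzero, smul_zero, add_zero]
  have hinj : Function.Injective fun k : ℕ =>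
      (2 ^ k) • (Affine.Point.some (algebraMap K M x₀) y h) := by
    intro k l hkl
    obtain ⟨y1, h1, e1⟩ := hpow k
    obtain ⟨y2, h2, e2⟩ := hpow l
    simp only [e1, e2, Affine.Point.some.injEq] at hkl
    have h3 := (algebraMap K M).injective hkl.1
    exact hmono.injective (congrArg logHeight₁ h3)
  have hinf := Set.infinite_range_of_injective hinj
  apply hinf
  refine hfin.subset ?_
  rintro _ ⟨k, rfl⟩
  exact ⟨2 ^ k, rfl⟩

end Dbl

end Pool.Agent.Helper16.A9
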