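import Mathlib
import Pool.Agent.Helper16.A9.Upper
import Pool.Agent.Helper16.A9.Ell
import Pool.Agent.Helper16.A9.NonTorsion
import Pool.Agent.Helper3.A9.Lower

set_option autoImplicit false

/-!
Lower bound for the counting function from an elliptic curve.
-/

namespace Pool.Agent.Helper16.A9

open Height WeierstrassCurve Polynomial Filter Topology
open Pool.Agent.Helper3.A9

variable {K : Type} [Field K] {n : ℕ}

lemma cardLe (n : ℕ) : CardLe n := fun L _ _ => card_le L n

/-- The elliptic lower bound, with everything defined over `L`. -/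
lemma core [NumberField K] {X : Set (PP (AlgebraicClosure K) n)}
    {H : PP (AlgebraicClosure K) n → ℝ} (hH : Comparable X H)
    {U : Set (PP (AlgebraicClosure K) n)} (hU : IsOpenIn K X U)
    (L : IntermediateField K (AlgebraicClosure K)) (hL : FiniteDimensional K L)
    (W : WeierstrassCurve L) (p q : Fin (n + 1) → Polynomial L)
    [DecidableEq (AlgebraicClosure K)]
    (x y : L) (hxy : (W.map (algebraMap L (AlgebraicClosure K))).toAffine.Nonsingular
      (algebraMap L (AlgebraicClosure K) x) (algebraMap L (AlgebraicClosure K) y))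
    (hinf : ∀ k : ℕ, k ≠ 0 → k • (Affine.Point.some _ _ hxy) ≠ 0)
    (hp : Meets (fun (P : Aff (W.map (algebraMap L (AlgebraicClosure K)))) i =>
      ((p i).map (algebraMap L (AlgebraicClosure K))).eval P.1.1 +
      ((q i).map (algebraMap L (AlgebraicClosure K))).eval P.1.1 * P.1.2) X U) :
    ∃ c c' : ℝ, 0 < c ∧ 0 < c' ∧ ∀ᶠ T : ℝ in atTop, c * Real.log T ^ c' ≤ count U H L T := by
  classical
  have : NumberField L := NumberField.of_module_finite K L
  obtain ⟨Z, bad, hbf, hbZ, hgood, hfib⟩ := meets_fin (tame_ellFun _)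
    (fun i => mem_ellFun _ _ _) hU hp
  obtain ⟨C₁, α, β, hC₁, hα, hβ, hv⟩ := hH L hL
  have hUX : U ⊆ X := by
    obtain ⟨-, Z, -, rfl⟩ := hU
    exact Set.sdiff_subset
  -- the point over `L`
  have hxyL : (W.baseChange L).toAffine.Nonsingular x y :=
    (Affine.baseChange_nonsingular (W := W) (f := Algebra.ofId L (AlgebraicClosure K))
      (algebraMap L (AlgebraicClosure K)).injective x y).1 hxy
  set P : (W.baseChange L).toAffine.Point := Affine.Point.some x y hxyL with hP
  let φ : (W.baseChange L).toAffine.Point →+ (W.baseChange (AlgebraicClosure K)).toAffine.Point :=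
    Affine.Point.map (W' := W) (Algebra.ofId L (AlgebraicClosure K))
  have hφP : φ P = Affine.Point.some _ _ hxy := rfl
  have hφinj : Function.Injective φ := Affine.Point.map_injective (W' := W) _
  have hinfL : ∀ k : ℕ, k ≠ 0 → k • P ≠ 0 := by
    intro k hk h0
    apply hinf k hk
    have h1 := congrArg φ h0
    rw [map_nsmul, map_zero, hφP] at h1
    exact h1
  have hex : ∀ k : ℕ, ∃ z : L × L, ∃ hz : (W.baseChange L).toAffine.Nonsingular z.1 z.2,
      (k + 1) • P = Affine.Point.some z.1 z.2 hz := by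
    intro k
    rcases hkp : (k + 1) • P with _ | ⟨x', y', hxy'⟩
    · exact absurd hkp (hinfL _ (Nat.succ_ne_zero k))
    · exact ⟨(x', y'), hxy', rfl⟩
  choose z hz hzk using hex
  have hzinj : Function.Injective z := by
    intro k l hkl
    have h3 : (k + 1) • P = (l + 1) • P := by
      rw [hzk k, hzk l]
      simp only [Affine.Point.some.injEq]
      exact ⟨by rw [hkl], by rw [hkl]⟩
    by_contra hne
    rcases Nat.lt_or_gt_of_ne hne with hlt | hlt
    · apply hinfL (l - k) (by omega)
      have : (l - k) • P + (k + 1) • P = (k + 1) • P := by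
        rw [← add_smul, h3]
        congr 1
        omega
      simpa using this
    · apply hinfL (k - l) (by omega)
      have : (k - l) • P + (l + 1) • P = (l + 1) • P := by
        rw [← add_smul, ← h3]
        congr 1
        omega
      simpa using this
  -- the parameters over the closure
  have heq : ∀ k : ℕ, (W.map (algebraMap L (AlgebraicClosure K))).toAffine.Equation
      (algebraMap L (AlgebraicClosure K) (z k).1) (algebraMap L (AlgebraicClosure K) (z k).2) := by
    intro k
    exact ((Affine.baseChange_nonsingular (W := W) (f := Algebra.ofId L (AlgebraicClosure K))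
      (algebraMap L (AlgebraicClosure K)).injective (z k).1 (z k).2).2 (hz k)).1
  let a : ℕ → Aff (W.map (algebraMap L (AlgebraicClosure K))) := fun k =>
    ⟨(algebraMap L (AlgebraicClosure K) (z k).1, algebraMap L (AlgebraicClosure K) (z k).2), heq k⟩
  have ha : Function.Injective a := by
    intro k l hkl
    apply hzinj
    have h1 := congrArg Subtype.val hkl
    simp only [a, Prod.mk.injEq] at h1
    exact Prod.ext ((algebraMap L (AlgebraicClosure K)).injective h1.1)
      ((algebraMap L (AlgebraicClosure K)).injective h1.2)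
  let v : ℕ → Fin (n + 1) → L := fun k => val p q (z k).1 (z k).2
  let f : Aff (W.map (algebraMap L (AlgebraicClosure K))) → Fin (n + 1) → AlgebraicClosure K :=
    fun P i => ((p i).map (algebraMap L (AlgebraicClosure K))).eval P.1.1 +
      ((q i).map (algebraMap L (AlgebraicClosure K))).eval P.1.1 * P.1.2
  have hlift : ∀ k, lift L (v k) = f (a k) := by
    intro k
    funext i
    simp only [lift, v, val, f, a, eval_map_algebraMap]
    rw [aeval_algebraMap_apply, aeval_algebraMap_apply]
    simp only [coe_aeval_eq_eval]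
    rfl
  -- heights
  obtain ⟨A, hA, hA'⟩ := logHeight_val_le p q
  obtain ⟨B, D, hB⟩ := growth (W.baseChange L).toAffine P
  have hht : ∀ k : ℕ, height L hL (v k) ≤ Real.exp (A * (B * ((k : ℝ) + 2) ^ D + 1)) := by
    intro k
    have h1 := hA' (z k).1 (z k).2
    have h2 := hB (k + 1)
    rw [hzk k] at h2
    have h2' : logHeight₁ (z k).1 + logHeight₁ (z k).2 ≤ B * (((k + 1 : ℕ) : ℝ) + 1) ^ D := h2
    have h3 : logHeight (v k) ≤ A * (B * ((k : ℝ) + 2) ^ D + 1) := by
      refine h1.trans ?_
      have e : (((k + 1 : ℕ) : ℝ) + 1) = (k : ℝ) + 2 := by push_cast; ring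
      rw [e] at h2'
      gcongr
    have h4 : (0 : ℝ) < mulHeight (v k) := mulHeight_pos _
    rw [logHeight_eq_log_mulHeight] at h3
    have h5 := Real.exp_le_exp.2 h3
    rw [Real.exp_log h4] at h5
    exact h5
  set E : ℝ := (D : ℝ) + 1 with hE
  have hE0 : 0 < E := by positivity
  set C₂ : ℝ := |Real.log C₁| + β * (A * (B * 2 ^ D + 1)) + 1 with hC₂
  have hC₂0 : 0 < C₂ := by positivity
  have hHk : ∀ (k : ℕ) (h : lift L (v k) ≠ 0), Projectivization.mk _ (lift L (v k)) h ∈ X →
      H (Projectivization.mk _ (lift L (v k)) h) ≤ Real.exp (C₂ * ((k : ℝ) + 1) ^ E) := by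
    intro k h hX
    refine (hv (v k) h hX).2.trans ?_
    have h0 : (0 : ℝ) ≤ height L hL (v k) := (Height.mulHeight_pos _).le
    have hk0 : (0 : ℝ) ≤ k := Nat.cast_nonneg k
    have hk1 : (1 : ℝ) ≤ ((k : ℝ) + 1) ^ E := Real.one_le_rpow (by linarith) hE0.le
    have hk2 : ((k : ℝ) + 1) ^ D ≤ ((k : ℝ) + 1) ^ E := by
      rw [← Real.rpow_natCast]
      apply Real.rpow_le_rpow_of_exponent_le (by linarith)
      rw [hE]; linarith
    have hk3 : ((k : ℝ) + 2) ^ D ≤ 2 ^ D * ((k : ℝ) + 1) ^ D := by
      rw [← mul_pow]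
      apply pow_le_pow_left₀ (by positivity)
      linarith
    have hB0 : (0 : ℝ) ≤ B := Nat.cast_nonneg B
    calc C₁ * height L hL (v k) ^ β ≤
          C₁ * (Real.exp (A * (B * ((k : ℝ) + 2) ^ D + 1))) ^ β := by
          gcongr
          exact hht k
      _ = Real.exp (Real.log C₁ + β * (A * (B * ((k : ℝ) + 2) ^ D + 1))) := by
          rw [Real.exp_add, Real.exp_log hC₁, ← Real.exp_mul, mul_comm β]
      _ ≤ Real.exp (C₂ * ((k : ℝ) + 1) ^ E) := by
          apply Real.exp_le_exp.2
          have t1 : Real.log C₁ ≤ |Real.log C₁| * ((k : ℝ) + 1) ^ E := by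
            have := le_abs_self (Real.log C₁)
            have := abs_nonneg (Real.log C₁)
            nlinarith
          have t2 : B * ((k : ℝ) + 2) ^ D + 1 ≤ (B * 2 ^ D + 1) * ((k : ℝ) + 1) ^ E := by
            have s1 : (B : ℝ) * ((k : ℝ) + 2) ^ D ≤ B * (2 ^ D * ((k : ℝ) + 1) ^ E) := by
              gcongr
              exact hk3.trans (by gcongr)
            linarith
          have t3 : β * (A * (B * ((k : ℝ) + 2) ^ D + 1)) ≤
              β * (A * ((B * 2 ^ D + 1) * ((k : ℝ) + 1) ^ E)) := by gcongr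
          have t4 : (0 : ℝ) ≤ ((k : ℝ) + 1) ^ E := by linarith
          rw [hC₂]
          nlinarith
  obtain ⟨c, hc, hcT⟩ := seq_lower_log (N := fun T => (count U H L T : ℝ)) (Z := Z + 1)
    (by omega) hC₂0 hE0 (by
      intro T M hM
      have h1 := count_ge (f := f) (U := U) (H := H)
        (L := L) (T := T) (Z := Z + 1) hbf (by omega) hgood
        (fun a h => ⟨(hfib a h).1, (hfib a h).2.trans (by omega)⟩) a ha M
        (fun k _ => ⟨v k, hlift k⟩)
        (by
          intro k hk h
          have h' : lift L (v k) ≠ 0 := by rw [hlift k]; exact h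
          have e1 : Projectivization.mk (AlgebraicClosure K) (lift L (v k)) h' =
              Projectivization.mk (AlgebraicClosure K) (f (a k)) h := by
            congr 1
            exact hlift k
          have h2 := hHk k h' (by rw [e1]; exact hp.1 _ h)
          rw [e1] at h2
          exact h2.trans (hM k hk))
        (((upper (cardLe n) hH L hL).1 T).subset (by
          rintro P ⟨h1, h2, h3⟩
          exact ⟨hUX h1, h2, h3⟩))
      exact_mod_cast h1)
  exact ⟨c, 1 / E, hc, by positivity, hcT⟩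

lemma exists_descent {L : IntermediateField K (AlgebraicClosure K)}
    (W : WeierstrassCurve (AlgebraicClosure K))
    (h : ({W.a₁, W.a₂, W.a₃, W.a₄, W.a₆} : Set (AlgebraicClosure K)) ⊆ L) :
    ∃ V : WeierstrassCurve L, V.map (algebraMap L (AlgebraicClosure K)) = W := by
  refine ⟨⟨⟨W.a₁, h (by simp)⟩, ⟨W.a₂, h (by simp)⟩, ⟨W.a₃, h (by simp)⟩, ⟨W.a₄, h (by simp)⟩,
    ⟨W.a₆, h (by simp)⟩⟩, ?_⟩
  rfl

/-- An elliptic curve over the algebraic closure of a number field has a point of infinite
order. -/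
lemma exists_inf_order [NumberField K] [DecidableEq (AlgebraicClosure K)]
    (W : WeierstrassCurve (AlgebraicClosure K)) [hW : W.IsElliptic] :
    ∃ (x y : AlgebraicClosure K) (hxy : W.toAffine.Nonsingular x y),
      ∀ k : ℕ, k ≠ 0 → k • (Affine.Point.some x y hxy) ≠ 0 := by
  obtain ⟨L₁, hL₁, hs₁⟩ := exists_field
    ({W.a₁, W.a₂, W.a₃, W.a₄, W.a₆} : Set (AlgebraicClosure K)) (Set.toFinite _)
  obtain ⟨V, rfl⟩ := exists_descent W hs₁
  have : NumberField L₁ := NumberField.of_module_finite K L₁
  have hV : V.IsElliptic := by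
    refine ⟨?_⟩
    rw [isUnit_iff_ne_zero]
    intro h0
    have h1 := hW.isUnit
    rw [map_Δ, h0, map_zero] at h1
    exact not_isUnit_zero h1
  obtain ⟨x₀, hx₀⟩ := inf_order V
  -- a point over the closure
  set F := algebraMap L₁ (AlgebraicClosure K) with hF
  obtain ⟨y, hy⟩ : ∃ y : AlgebraicClosure K, (V.map F).toAffine.Equation (F x₀) y := by
    set b := (V.map F).a₁ * F x₀ + (V.map F).a₃ with hb
    set c := F x₀ ^ 3 + (V.map F).a₂ * F x₀ ^ 2 + (V.map F).a₄ * F x₀ + (V.map F).a₆ with hc
    have hdeg : (X ^ 2 + C b * X - C c : (AlgebraicClosure K)[X]).degree ≠ 0 := by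
      have : (X ^ 2 + C b * X - C c : (AlgebraicClosure K)[X]).degree = 2 := by
        compute_degree!
      rw [this]
      norm_num
    obtain ⟨y, hy⟩ := IsAlgClosed.exists_root _ hdeg
    refine ⟨y, ?_⟩
    rw [Affine.equation_iff]
    rw [IsRoot] at hy
    simp only [eval_sub, eval_add, eval_mul, eval_pow, eval_X, eval_C] at hy
    rw [hb, hc] at hy
    linear_combination hy
  have hns : (V.map F).toAffine.Nonsingular (F x₀) y := Affine.equation_iff_nonsingular.1 hy
  exact ⟨F x₀, y, hns, fun k hk => hx₀ (AlgebraicClosure K) y hns k hk⟩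

/-- Part (B), lower bound: if an elliptic curve maps to `X` and meets `U`, then `U` has at least
`c (log T) ^ c'` points of height at most `T` over all large fields. -/
theorem lower_elliptic [NumberField K] {X : Set (PP (AlgebraicClosure K) n)}
    {H : PP (AlgebraicClosure K) n → ℝ} (hH : Comparable X H)
    {U : Set (PP (AlgebraicClosure K) n)} (hU : IsOpenIn K X U)
    (W : WeierstrassCurve (AlgebraicClosure K)) (hW : W.IsElliptic)
    (p q : Fin (n + 1) → Polynomial (AlgebraicClosure K))
    (hp : Meets (fun (P : Aff W) i => (p i).eval P.1.1 + (q i).eval P.1.1 * P.1.2) X U) :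
    ∃ L₀ : IntermediateField K (AlgebraicClosure K), FiniteDimensional K L₀ ∧
      ∀ L : IntermediateField K (AlgebraicClosure K), L₀ ≤ L → FiniteDimensional K L →
        ∃ c c' : ℝ, 0 < c ∧ 0 < c' ∧ ∀ᶠ T : ℝ in atTop, c * Real.log T ^ c' ≤ count U H L T := by
  classical
  obtain ⟨x, y, hxy, hinf⟩ := exists_inf_order W
  obtain ⟨L₀, hL₀, hs⟩ := exists_field
    (({W.a₁, W.a₂, W.a₃, W.a₄, W.a₆} ∪ {x, y} : Set (AlgebraicClosure K)) ∪
      ((⋃ i, Set.range (fun k => (p i).coeff k)) ∪ (⋃ i, Set.range (fun k => (q i).coeff k))))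
    ((Set.toFinite _).union ((finite_coeffs p).union (finite_coeffs q)))
  refine ⟨L₀, hL₀, fun L hLL hL => ?_⟩
  have hcp : ∀ i k, (p i).coeff k ∈ L := fun i k =>
    hLL (hs (Or.inr (Or.inl (Set.mem_iUnion.mpr ⟨i, ⟨k, rfl⟩⟩))))
  have hcq : ∀ i k, (q i).coeff k ∈ L := fun i k =>
    hLL (hs (Or.inr (Or.inr (Set.mem_iUnion.mpr ⟨i, ⟨k, rfl⟩⟩))))
  have hx : x ∈ L := hLL (hs (Or.inl (Or.inr (by simp))))
  have hy : y ∈ L := hLL (hs (Or.inl (Or.inr (by simp))))
  have hWs : ({W.a₁, W.a₂, W.a₃, W.a₄, W.a₆} : Set (AlgebraicClosure K)) ⊆ L :=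
    fun a ha => hLL (hs (Or.inl (Or.inl ha)))
  choose p' hp' using fun i => exists_lift_poly L (p i) (hcp i)
  choose q' hq' using fun i => exists_lift_poly L (q i) (hcq i)
  obtain ⟨V, rfl⟩ := exists_descent W hWs
  refine core hH hU L hL V p' q' ⟨x, hx⟩ ⟨y, hy⟩ hxy hinf ?_
  simpa only [hp', hq'] using hp

end Pool.Agent.Helper16.A9
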