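import Mathlib
import Pool.Agent.Helper16.A9.LowerE
import Pool.Agent.Helper16.A9.Asy2

set_option autoImplicit false

/-!
The arithmetic order is a birational invariant.
-/

namespace Pool.Agent.Helper16.A9

open Filter Topology
open Pool.Agent.Helper3.A9

variable {K : Type} [Field K] {n m : ℕ}

/-- The values of a tuple of polynomials over `K` at a vector. -/
noncomputable def ev {R : Type} [CommRing R] [Algebra K R]
    (F : Fin (m + 1) → MvPolynomial (Fin (n + 1)) K) (v : Fin (n + 1) → R) : Fin (m + 1) → R :=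
  fun j => MvPolynomial.aeval v (F j)

open Classical in
/-- The point with the coordinates `F_j(P)`, if these are not all zero (otherwise a junk value). -/
noncomputable def app (F : Fin (m + 1) → MvPolynomial (Fin (n + 1)) K)
    (P : PP (AlgebraicClosure K) n) : PP (AlgebraicClosure K) m :=
  if h : ev F P.rep ≠ 0 then Projectivization.mk _ (ev F P.rep) h
    else Projectivization.mk _ (fun _ => 1) (fun h0 => one_ne_zero (congrFun h0 0))

/-- `F` maps `U` to `V`, without base points, and `G` gives back the point. -/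
def Inverts (F : Fin (m + 1) → MvPolynomial (Fin (n + 1)) K)
    (G : Fin (n + 1) → MvPolynomial (Fin (m + 1)) K) (U : Set (PP (AlgebraicClosure K) n))
    (V : Set (PP (AlgebraicClosure K) m)) : Prop :=
  ∀ P ∈ U, ev F P.rep ≠ 0 ∧ app F P ∈ V ∧ app G (app F P) = P

/-- `X` and `Y` are birational over `K`: there are tuples of forms `F` and `G` over `K` which give
mutually inverse bijections between a nonempty open subset of `X` and one of `Y`. -/
def Birational (K : Type) [Field K] {n m : ℕ} (X : Set (PP (AlgebraicClosure K) n))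
    (Y : Set (PP (AlgebraicClosure K) m)) : Prop :=
  ∃ (d e : ℕ) (F : Fin (m + 1) → MvPolynomial (Fin (n + 1)) K)
    (G : Fin (n + 1) → MvPolynomial (Fin (m + 1)) K) (U : Set (PP (AlgebraicClosure K) n))
    (V : Set (PP (AlgebraicClosure K) m)),
    (∀ j, (F j).IsHomogeneous d) ∧ (∀ i, (G i).IsHomogeneous e) ∧ IsOpenIn K X U ∧
      IsOpenIn K Y V ∧ Inverts F G U V ∧ Inverts G F V U

/-- `X` is irreducible over `K`: any two nonempty open subsets meet. -/
def Irred (K : Type) [Field K] {n : ℕ} (X : Set (PP (AlgebraicClosure K) n)) : Prop :=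
  ∀ U V, IsOpenIn K X U → IsOpenIn K X V → (U ∩ V).Nonempty

lemma Birational.symm {X : Set (PP (AlgebraicClosure K) n)} {Y : Set (PP (AlgebraicClosure K) m)}
    (h : Birational K X Y) : Birational K Y X := by
  obtain ⟨d, e, F, G, U, V, hF, hG, hU, hV, h1, h2⟩ := h
  exact ⟨e, d, G, F, V, U, hG, hF, hV, hU, h2, h1⟩

lemma ev_smul {R : Type} [Field R] [Algebra K R] {F : Fin (m + 1) → MvPolynomial (Fin (n + 1)) K}
    {d : ℕ} (hF : ∀ j, (F j).IsHomogeneous d) (c : R) (v : Fin (n + 1) → R) :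
    ev F (c • v) = c ^ d • ev F v := by
  funext j
  simp only [ev, Pi.smul_apply, smul_eq_mul]
  exact aeval_smul_hom (hF j) c v

lemma ev_rep {F : Fin (m + 1) → MvPolynomial (Fin (n + 1)) K}
    {d : ℕ} (hF : ∀ j, (F j).IsHomogeneous d) (v : Fin (n + 1) → AlgebraicClosure K) (hv : v ≠ 0)
    (h : ev F (Projectivization.mk (AlgebraicClosure K) v hv).rep ≠ 0) :
    ∃ h' : ev F v ≠ 0, app F (Projectivization.mk _ v hv) = Projectivization.mk _ (ev F v) h' := by
  obtain ⟨a, ha⟩ := Projectivization.exists_smul_eq_mk_rep (AlgebraicClosure K) v hv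
  have h1 : ev F (Projectivization.mk (AlgebraicClosure K) v hv).rep =
      ((a : AlgebraicClosure K) ^ d) • ev F v := by
    rw [← ha, Units.smul_def, ev_smul hF]
  have h' : ev F v ≠ 0 := by
    intro h0
    apply h
    rw [h1, h0, smul_zero]
  refine ⟨h', ?_⟩
  unfold app
  rw [dif_pos h, Projectivization.mk_eq_mk_iff']
  exact ⟨_, h1.symm⟩

lemma app_of {F : Fin (m + 1) → MvPolynomial (Fin (n + 1)) K} {P : PP (AlgebraicClosure K) n}
    (h : ev F P.rep ≠ 0) : app F P = Projectivization.mk _ (ev F P.rep) h := by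
  unfold app
  rw [dif_pos h]

lemma mem_of_isOpenIn {X U : Set (PP (AlgebraicClosure K) n)} (hU : IsOpenIn K X U) : U ⊆ X := by
  obtain ⟨-, Z, -, rfl⟩ := hU
  exact Set.sdiff_subset

lemma isOpen_pull {X : Set (PP (AlgebraicClosure K) n)} {Y : Set (PP (AlgebraicClosure K) m)}
    {F : Fin (m + 1) → MvPolynomial (Fin (n + 1)) K} {d : ℕ} (hF : ∀ j, (F j).IsHomogeneous d)
    {U : Set (PP (AlgebraicClosure K) n)} {V : Set (PP (AlgebraicClosure K) m)}
    (hU : IsOpenIn K X U) (hV : IsOpenIn K Y V)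
    (hmap : ∀ P ∈ U, ev F P.rep ≠ 0 ∧ app F P ∈ Y) (hne : ∃ P ∈ U, app F P ∈ V) :
    IsOpenIn K X {P | P ∈ U ∧ app F P ∈ V} := by
  obtain ⟨-, _, ⟨S, hS, rfl⟩, rfl⟩ := hU
  obtain ⟨-, _, ⟨S', hS', rfl⟩, rfl⟩ := hV
  refine ⟨hne, zeros {h : MvPolynomial (Fin (n + 1)) K | ∃ g ∈ S, ∃ g' ∈ S',
    h = g * (MvPolynomial.aeval F g' : MvPolynomial (Fin (n + 1)) K)}, ⟨_, ?_, rfl⟩, ?_⟩
  · rintro _ ⟨g, hg, g', hg', rfl⟩
    obtain ⟨d1, hd1⟩ := hS g hg
    obtain ⟨d2, hd2⟩ := hS' g' hg'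
    exact ⟨_, hd1.mul (hd2.aeval F hF)⟩
  · ext P
    have key : ∀ g' : MvPolynomial (Fin (m + 1)) K,
        MvPolynomial.aeval P.rep (MvPolynomial.aeval F g' : MvPolynomial (Fin (n + 1)) K) =
        MvPolynomial.aeval (ev F P.rep) g' := by
      intro g'
      exact MvPolynomial.comp_aeval_apply (f := F) (MvPolynomial.aeval P.rep) g'
    constructor
    · rintro ⟨hPU, hPV⟩
      refine ⟨hPU.1, ?_⟩
      intro hP
      obtain ⟨h1, h2⟩ := hmap P hPU
      have h3 : ∃ g ∈ S, MvPolynomial.aeval P.rep g ≠ 0 := by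
        by_contra hcon
        push Not at hcon
        exact hPU.2 hcon
      obtain ⟨g, hg, hg0⟩ := h3
      rw [app_of h1] at hPV
      have h4 : ∃ g' ∈ S', MvPolynomial.aeval (ev F P.rep) g' ≠ 0 := by
        by_contra hcon
        push Not at hcon
        exact hPV.2 ((mk_mem_zeros hS' _ h1).2 hcon)
      obtain ⟨g', hg', hg0'⟩ := h4
      have h5 := hP _ ⟨g, hg, g', hg', rfl⟩
      rw [map_mul, key] at h5
      exact (mul_ne_zero hg0 hg0') h5
    · rintro ⟨hPX, hP⟩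
      have h1 : ∃ g ∈ S, ∃ g' ∈ S', MvPolynomial.aeval P.rep
          (g * (MvPolynomial.aeval F g' : MvPolynomial (Fin (n + 1)) K)) ≠ 0 := by
        by_contra hcon
        push Not at hcon
        apply hP
        rintro _ ⟨g, hg, g', hg', rfl⟩
        exact hcon g hg g' hg'
      obtain ⟨g, hg, g', hg', h2⟩ := h1
      rw [map_mul, key] at h2
      have hPU : P ∈ X \ zeros S := ⟨hPX, fun h3 => left_ne_zero_of_mul h2 (h3 g hg)⟩
      obtain ⟨h4, h5⟩ := hmap P hPU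
      refine ⟨hPU, h5, ?_⟩
      rw [app_of h4, mk_mem_zeros hS' _ h4]
      intro h6
      exact right_ne_zero_of_mul h2 (h6 g' hg')

lemma lift_ev (L : IntermediateField K (AlgebraicClosure K))
    (F : Fin (m + 1) → MvPolynomial (Fin (n + 1)) K) (v : Fin (n + 1) → L) :
    lift L (ev F v) = ev F (lift L v) := by
  funext j
  simp only [lift, ev]
  exact (MvPolynomial.aeval_algebraMap_apply (AlgebraicClosure K) v (F j)).symm

lemma rat_app (L : IntermediateField K (AlgebraicClosure K))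
    {F : Fin (m + 1) → MvPolynomial (Fin (n + 1)) K} {d : ℕ} (hF : ∀ j, (F j).IsHomogeneous d)
    {P : PP (AlgebraicClosure K) n} (hP : P ∈ rat L) (h : ev F P.rep ≠ 0) : app F P ∈ rat L := by
  obtain ⟨v, hv, rfl⟩ := hP
  obtain ⟨h1, h2⟩ := ev_rep hF _ hv h
  refine ⟨ev F v, ?_, ?_⟩
  · rw [lift_ev]
    exact h1
  · rw [h2]
    congr 1
    exact (lift_ev L F v).symm

lemma height_ev [NumberField K] (L : IntermediateField K (AlgebraicClosure K))
    (hL : FiniteDimensional K L)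
    {F : Fin (m + 1) → MvPolynomial (Fin (n + 1)) K} {d : ℕ} (hF : ∀ j, (F j).IsHomogeneous d) :
    ∃ C : ℝ, 0 < C ∧ ∀ v : Fin (n + 1) → L, height L hL (ev F v) ≤ C * height L hL v ^ (d + 1) := by
  have : NumberField L := NumberField.of_module_finite K L
  obtain ⟨C, hC, h⟩ := Height.mulHeight_eval_le'
    (p := fun j => MvPolynomial.map (algebraMap K L) (F j)) (fun j => (hF j).map _)
  refine ⟨C, hC, fun v => ?_⟩
  have h1 := h v
  have e1 : (fun j => MvPolynomial.eval v (MvPolynomial.map (algebraMap K L) (F j))) = ev F v := by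
    funext j
    simp only [ev, MvPolynomial.eval_map]
    rfl
  rw [e1] at h1
  have h2 : (1 : ℝ) ≤ Height.mulHeight v := Height.one_le_mulHeight v
  refine h1.trans ?_
  have h3 : Height.mulHeight v ^ d ≤ Height.mulHeight v ^ (d + 1) :=
    pow_le_pow_right₀ h2 (Nat.le_succ d)
  have : C * Height.mulHeight v ^ d ≤ C * Height.mulHeight v ^ (d + 1) := by gcongr
  exact this

/-- The height of the image. -/
lemma ht_app [NumberField K] {X : Set (PP (AlgebraicClosure K) n)}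
    {Y : Set (PP (AlgebraicClosure K) m)} {H : PP (AlgebraicClosure K) n → ℝ}
    {H' : PP (AlgebraicClosure K) m → ℝ} (hH : Comparable X H) (hH' : Comparable Y H')
    {F : Fin (m + 1) → MvPolynomial (Fin (n + 1)) K} {d : ℕ} (hF : ∀ j, (F j).IsHomogeneous d)
    (L : IntermediateField K (AlgebraicClosure K)) (hL : FiniteDimensional K L) :
    ∃ C u : ℝ, 0 < C ∧ 0 < u ∧ ∀ P, P ∈ X → P ∈ rat L → ev F P.rep ≠ 0 → app F P ∈ Y →
      0 < H P ∧ H' (app F P) ≤ C * H P ^ u := by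
  have : NumberField L := NumberField.of_module_finite K L
  obtain ⟨C₁, α, β, hC₁, hα, hβ, h1⟩ := hH L hL
  obtain ⟨C₂, α', β', hC₂, hα', hβ', h2⟩ := hH' L hL
  obtain ⟨C₃, hC₃, h3⟩ := height_ev L hL hF
  refine ⟨C₂ * (C₃ * C₁ ^ ((d + 1 : ℕ) / α)) ^ β', (d + 1 : ℕ) / α * β', by positivity,
    by positivity, ?_⟩
  rintro P hPX ⟨v, hv, rfl⟩ hF0 hPY
  obtain ⟨h4, h5⟩ := ev_rep hF _ hv hF0
  have h6 : lift L (ev F v) ≠ 0 := by rw [lift_ev]; exact h4
  have h7 : app F (Projectivization.mk _ (lift L v) hv) =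
      Projectivization.mk _ (lift L (ev F v)) h6 := by
    rw [h5]
    congr 1
    exact (lift_ev L F v).symm
  have hpos : 0 < height L hL v := Height.mulHeight_pos _
  have hpos' : 0 < height L hL (ev F v) := Height.mulHeight_pos _
  have h8 := (h1 v hv hPX).1
  have hHpos : 0 < H (Projectivization.mk _ (lift L v) hv) :=
    lt_of_lt_of_le (by positivity) h8
  refine ⟨hHpos, ?_⟩
  rw [h7] at hPY ⊢
  refine (h2 _ h6 hPY).2.trans ?_
  have h9 : height L hL v ^ α ≤ C₁ * H (Projectivization.mk _ (lift L v) hv) := by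
    rwa [inv_mul_le_iff₀ hC₁] at h8
  set h := H (Projectivization.mk _ (lift L v) hv) with hh
  have h10 : height L hL v ^ (d + 1) ≤ (C₁ * h) ^ (((d + 1 : ℕ) : ℝ) / α) := by
    calc height L hL v ^ (d + 1) = (height L hL v ^ α) ^ (((d + 1 : ℕ) : ℝ) / α) := by
          rw [← Real.rpow_mul hpos.le, mul_div_cancel₀ _ hα.ne', Real.rpow_natCast]
      _ ≤ (C₁ * h) ^ (((d + 1 : ℕ) : ℝ) / α) :=
          Real.rpow_le_rpow (by positivity) h9 (by positivity)
  have h11 : height L hL (ev F v) ≤ C₃ * (C₁ * h) ^ (((d + 1 : ℕ) : ℝ) / α) :=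
    (h3 v).trans (by gcongr)
  calc C₂ * height L hL (ev F v) ^ β' ≤
        C₂ * (C₃ * (C₁ * h) ^ (((d + 1 : ℕ) : ℝ) / α)) ^ β' := by gcongr
    _ = C₂ * (C₃ * C₁ ^ (((d + 1 : ℕ) : ℝ) / α)) ^ β' * h ^ (((d + 1 : ℕ) : ℝ) / α * β') := by
        rw [Real.mul_rpow hC₁.le hHpos.le, ← mul_assoc, Real.mul_rpow (by positivity)
          (by positivity), ← Real.rpow_mul hHpos.le, ← mul_assoc]

/-- Comparison of the counting functions under an injective map given by forms. -/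
lemma count_le_count [NumberField K] {X : Set (PP (AlgebraicClosure K) n)}
    {Y : Set (PP (AlgebraicClosure K) m)} {H : PP (AlgebraicClosure K) n → ℝ}
    {H' : PP (AlgebraicClosure K) m → ℝ} (hH : Comparable X H) (hH' : Comparable Y H')
    {F : Fin (m + 1) → MvPolynomial (Fin (n + 1)) K} {d : ℕ} (hF : ∀ j, (F j).IsHomogeneous d)
    {G : Fin (n + 1) → MvPolynomial (Fin (m + 1)) K}
    {U : Set (PP (AlgebraicClosure K) n)} {V : Set (PP (AlgebraicClosure K) m)} (hUX : U ⊆ X)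
    (hVY : V ⊆ Y) (hinv : Inverts F G U V)
    (L : IntermediateField K (AlgebraicClosure K)) (hL : FiniteDimensional K L) :
    ∃ C u : ℝ, 0 < C ∧ 0 < u ∧ ∀ T T' : ℝ, 0 ≤ T → C * T ^ u ≤ T' →
      count U H L T ≤ count V H' L T' := by
  obtain ⟨C, u, hC, hu, h⟩ := ht_app hH hH' hF L hL
  refine ⟨C, u, hC, hu, fun T T' hT0 hT => ?_⟩
  unfold count
  refine Set.ncard_le_ncard_of_injOn (app F) ?_ ?_ ?_
  · rintro P ⟨hP1, hP2, hP3⟩
    obtain ⟨h1, h2, h3⟩ := hinv P hP1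
    obtain ⟨h4, h5⟩ := h P (hUX hP1) hP2 h1 (hVY h2)
    refine ⟨h2, rat_app L hF hP2 h1, h5.trans (le_trans ?_ hT)⟩
    gcongr
  · rintro P ⟨hP1, hP2, hP3⟩ Q ⟨hQ1, hQ2, hQ3⟩ hPQ
    rw [← (hinv P hP1).2.2, ← (hinv Q hQ1).2.2, hPQ]
  · exact ((upper (cardLe m) hH' L hL).1 T').subset (by
      rintro P ⟨h1, h2, h3⟩
      exact ⟨hVY h1, h2, h3⟩)

lemma invert_change {C u : ℝ} (hC : 0 < C) (hu : 0 < u) :
    ∃ A t : ℝ, 0 < A ∧ 0 < t ∧ ∀ T : ℝ, 0 ≤ T → C * (A * T ^ t) ^ u ≤ T := by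
  refine ⟨(1 / C) ^ (1 / u), 1 / u, by positivity, by positivity, fun T hT => le_of_eq ?_⟩
  rw [← Real.mul_rpow (by positivity) hT, ← Real.rpow_mul (by positivity),
    one_div_mul_cancel hu.ne', Real.rpow_one]
  field_simp

/-- Restriction of a birational correspondence to smaller open subsets. -/
lemma restrict {X : Set (PP (AlgebraicClosure K) n)} {Y : Set (PP (AlgebraicClosure K) m)}
    {F : Fin (m + 1) → MvPolynomial (Fin (n + 1)) K} {d : ℕ} (hF : ∀ j, (F j).IsHomogeneous d)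
    {G : Fin (n + 1) → MvPolynomial (Fin (m + 1)) K}
    {U : Set (PP (AlgebraicClosure K) n)} {V V' : Set (PP (AlgebraicClosure K) m)}
    (hU : IsOpenIn K X U) (hV : IsOpenIn K Y V) (hV' : IsOpenIn K Y V') (hVV : V' ⊆ V)
    (h1 : Inverts F G U V) (h2 : Inverts G F V U) :
    IsOpenIn K X {P | P ∈ U ∧ app F P ∈ V'} ∧ Inverts F G {P | P ∈ U ∧ app F P ∈ V'} V' ∧
      Inverts G F V' {P | P ∈ U ∧ app F P ∈ V'} := by
  refine ⟨isOpen_pull hF hU hV' (fun P hP => ⟨(h1 P hP).1, mem_of_isOpenIn hV (h1 P hP).2.1⟩) ?_,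
    ?_, ?_⟩
  · obtain ⟨Q, hQ⟩ := hV'.1
    refine ⟨app G Q, (h2 Q (hVV hQ)).2.1, ?_⟩
    rw [(h2 Q (hVV hQ)).2.2]
    exact hQ
  · rintro P ⟨hP1, hP2⟩
    exact ⟨(h1 P hP1).1, hP2, (h1 P hP1).2.2⟩
  · intro Q hQ
    obtain ⟨h3, h4, h5⟩ := h2 Q (hVV hQ)
    exact ⟨h3, ⟨h4, by rw [h5]; exact hQ⟩, h5⟩

/-- The common part of the two transfer theorems. -/
lemma transfer_sets {X : Set (PP (AlgebraicClosure K) n)} {Y : Set (PP (AlgebraicClosure K) m)}
    (hX : Irred K X) (hXY : Birational K X Y) (U₀ : Set (PP (AlgebraicClosure K) n))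
    (hU₀ : IsOpenIn K X U₀) :
    ∃ (d e : ℕ) (F : Fin (m + 1) → MvPolynomial (Fin (n + 1)) K)
      (G : Fin (n + 1) → MvPolynomial (Fin (m + 1)) K), (∀ j, (F j).IsHomogeneous d) ∧
      (∀ i, (G i).IsHomogeneous e) ∧ ∃ V₀, IsOpenIn K Y V₀ ∧ ∀ V, IsOpenIn K Y V → V ⊆ V₀ →
        ∃ U, IsOpenIn K X U ∧ U ⊆ U₀ ∧ Inverts F G U V ∧ Inverts G F V U := by
  obtain ⟨d, e, F, G, U, V, hF, hG, hU, hV, h1, h2⟩ := hXY
  refine ⟨d, e, F, G, hF, hG, {Q | Q ∈ V ∧ app G Q ∈ U₀}, ?_, ?_⟩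
  · refine isOpen_pull hG hV hU₀
      (fun Q hQ => ⟨(h2 Q hQ).1, mem_of_isOpenIn hU (h2 Q hQ).2.1⟩) ?_
    obtain ⟨P, hP, hP0⟩ := hX U U₀ hU hU₀
    refine ⟨app F P, (h1 P hP).2.1, ?_⟩
    rw [(h1 P hP).2.2]
    exact hP0
  · intro V' hV' hV'V
    obtain ⟨h3, h4, h5⟩ := restrict hF hU hV hV' (fun Q hQ => (hV'V hQ).1) h1 h2
    refine ⟨_, h3, ?_, h4, h5⟩
    rintro P ⟨hP1, hP2⟩
    have := (hV'V hP2).2
    rwa [(h1 P hP1).2.2] at this

/-- The arithmetic order is a birational invariant (one direction). -/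
theorem order_birational [NumberField K] {X : Set (PP (AlgebraicClosure K) n)}
    {Y : Set (PP (AlgebraicClosure K) m)} {H : PP (AlgebraicClosure K) n → ℝ}
    {H' : PP (AlgebraicClosure K) m → ℝ} (hH : Comparable X H) (hH' : Comparable Y H')
    (hX : Irred K X) (hXY : Birational K X Y) (a : ℕ) (h : HasOrder K X H a) :
    HasOrder K Y H' a := by
  obtain ⟨k, hk, U₀, hU₀, h⟩ := h
  obtain ⟨d, e, F, G, hF, hG, V₀, hV₀, hV⟩ := transfer_sets hX hXY U₀ hU₀
  refine ⟨k, hk, V₀, hV₀, fun V hVo hVV => ?_⟩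
  obtain ⟨U, hU, hUU, h1, h2⟩ := hV V hVo hVV
  obtain ⟨L₀, hL₀, hlim⟩ := h U hU hUU
  refine ⟨L₀, hL₀, fun L hLL hL => ?_⟩
  obtain ⟨C, u, hC, hu, hc1⟩ := count_le_count hH hH' hF (mem_of_isOpenIn hU)
    (mem_of_isOpenIn hVo) h1 L hL
  obtain ⟨B, s, hB, hs, hc2⟩ := count_le_count hH' hH hG (mem_of_isOpenIn hVo)
    (mem_of_isOpenIn hU) h2 L hL
  obtain ⟨A, t, hA, ht, hAt⟩ := invert_change hC hu
  refine order_transfer (N₁ := count U H L) (N₂ := count V H' L) hA ht hB hs ?_ ?_ k a hk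
    (hlim L hLL hL)
  · filter_upwards [eventually_ge_atTop 0] with T hT
    exact hc1 _ _ (by positivity) (hAt T hT)
  · filter_upwards [eventually_ge_atTop 0] with T hT
    exact hc2 _ _ hT le_rfl

/-- The same for order infinity. -/
theorem orderTop_birational [NumberField K] {X : Set (PP (AlgebraicClosure K) n)}
    {Y : Set (PP (AlgebraicClosure K) m)} {H : PP (AlgebraicClosure K) n → ℝ}
    {H' : PP (AlgebraicClosure K) m → ℝ} (hH : Comparable X H) (hH' : Comparable Y H')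
    (hX : Irred K X) (hXY : Birational K X Y) (h : HasOrderTop K X H) :
    HasOrderTop K Y H' := by
  obtain ⟨k, hk, U₀, hU₀, h⟩ := h
  obtain ⟨d, e, F, G, hF, hG, V₀, hV₀, hV⟩ := transfer_sets hX hXY U₀ hU₀
  refine ⟨k, hk, V₀, hV₀, fun V hVo hVV L hL a => ?_⟩
  obtain ⟨U, hU, hUU, h1, h2⟩ := hV V hVo hVV
  obtain ⟨B, s, hB, hs, hc2⟩ := count_le_count hH' hH hG (mem_of_isOpenIn hVo)
    (mem_of_isOpenIn hU) h2 L hL
  refine order_transfer_zero (N₁ := count U H L) (N₂ := count V H' L) hB hs ?_ k a hk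
    (h U hU hUU L hL a)
  filter_upwards [eventually_ge_atTop 0] with T hT
  exact hc2 _ _ hT le_rfl

end Pool.Agent.Helper16.A9
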