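import Mathlib
import Pool.Agent.Helper3.A9.Curve

set_option autoImplicit false

/-!
Orbits of maps given by forms: visits to a Zariski open set have bounded gaps.
-/

namespace Pool.Agent.Helper16.A9

open Pool.Agent.Helper3.A9 MvPolynomial

variable {K : Type} [Field K] {N m : ℕ}

/-- The values of a tuple of polynomials at the coordinates of a point. -/
noncomputable def vals (F : Fin (m + 1) → MvPolynomial (Fin (N + 1)) (AlgebraicClosure K))
    (P : PP (AlgebraicClosure K) N) : Fin (m + 1) → AlgebraicClosure K :=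
  fun i => eval P.rep (F i)

/-- The polynomials of the family are forms of one and the same degree. -/
def SameDeg {R σ ι : Type} [CommSemiring R] (F : ι → MvPolynomial σ R) : Prop :=
  ∃ d : ℕ, ∀ i, (F i).IsHomogeneous d

/-- The point `P` is sent to `Q` by the map given, on pieces, by the tuples `F 0, …, F (r - 1)`: at
least one of the tuples does not vanish at `P`, and each of those which do not vanish at `P` gives
`Q`. -/
def Step {r : ℕ} (F : Fin r → Fin (m + 1) → MvPolynomial (Fin (N + 1)) (AlgebraicClosure K))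
    (P : PP (AlgebraicClosure K) N) (Q : PP (AlgebraicClosure K) m) : Prop :=
  (∃ α, vals (F α) P ≠ 0) ∧
    ∀ (α : Fin r) (h : vals (F α) P ≠ 0), Q = Projectivization.mk _ (vals (F α) P) h

/-- The set of indices at which a family of points satisfies some homogeneous equations. -/
def SeqClosed {ι : Type} (s : ι → PP (AlgebraicClosure K) N) (A : Set ι) : Prop :=
  ∃ S : Set (MvPolynomial (Fin (N + 1)) (AlgebraicClosure K)),
    (∀ G ∈ S, ∃ d : ℕ, 0 < d ∧ G.IsHomogeneous d) ∧ A = {k | ∀ G ∈ S, eval (s k).rep G = 0}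

lemma SeqClosed.iInter {ι J : Type} {s : ι → PP (AlgebraicClosure K) N} {A : J → Set ι}
    (hA : ∀ j, SeqClosed s (A j)) : SeqClosed s (⋂ j, A j) := by
  choose S hS hAS using hA
  refine ⟨⋃ j, S j, ?_, ?_⟩
  · intro G hG
    obtain ⟨j, hj⟩ := Set.mem_iUnion.1 hG
    exact hS j G hj
  · ext k
    simp only [Set.mem_iInter, Set.mem_iUnion, Set.mem_setOf_eq]
    constructor
    · rintro h G ⟨j, hj⟩
      have := h j
      rw [hAS j] at this
      exact this G hj
    · intro h j
      rw [hAS j]
      exact fun G hG => h G ⟨j, hG⟩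

/-- Descending chains of closed sets of indices stabilise. -/
lemma seq_dcc {ι : Type} {s : ι → PP (AlgebraicClosure K) N} {A : ℕ → Set ι}
    (hA : ∀ j, SeqClosed s (A j)) (hanti : Antitone A) : ∃ r, ∀ j, r ≤ j → A j = A r := by
  let I : ℕ → Ideal (MvPolynomial (Fin (N + 1)) (AlgebraicClosure K)) := fun j =>
    ⨅ k : A j, RingHom.ker (eval (s k).rep)
  have hI : ∀ j G, G ∈ I j ↔ ∀ k ∈ A j, eval (s k).rep G = 0 := by
    intro j G
    simp only [I, Ideal.mem_iInf, RingHom.mem_ker, Subtype.forall]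
  have hmono : Monotone I := by
    intro i j hij G hG
    rw [hI] at hG ⊢
    exact fun k hk => hG k (hanti hij hk)
  obtain ⟨r, hr⟩ := monotone_stabilizes_iff_noetherian.2
    (inferInstance : IsNoetherian (MvPolynomial (Fin (N + 1)) (AlgebraicClosure K))
      (MvPolynomial (Fin (N + 1)) (AlgebraicClosure K))) ⟨I, hmono⟩
  have hA' : ∀ j, A j = {k | ∀ G ∈ I j, eval (s k).rep G = 0} := by
    intro j
    ext k
    constructor
    · intro hk G hG
      exact (hI j G).1 hG k hk
    · intro hk
      obtain ⟨S, hS, hAS⟩ := hA j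
      rw [hAS]
      intro G hG
      apply hk
      rw [hI]
      intro l hl
      rw [hAS] at hl
      exact hl G hG
  refine ⟨r, fun j hj => ?_⟩
  have h := hr j hj
  simp only [OrderHom.coe_mk] at h
  rw [hA' j, hA' r, h]

lemma eval_smul_hom {R : Type} [Field R] {G : MvPolynomial (Fin (N + 1)) R} {d : ℕ}
    (hG : G.IsHomogeneous d) (c : R) (v : Fin (N + 1) → R) :
    eval (c • v) G = c ^ d * eval v G := by
  have h := aeval_smul_hom (F := R) hG c v
  rwa [aeval_eq_eval, aeval_eq_eval] at h

lemma eval_zero_hom {R : Type} [Field R] {G : MvPolynomial (Fin (N + 1)) R} {d : ℕ} (hd : 0 < d)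
    (hG : G.IsHomogeneous d) : eval (0 : Fin (N + 1) → R) G = 0 := by
  have := eval_smul_hom hG 0 0
  rw [zero_smul, zero_pow hd.ne', zero_mul] at this
  exact this

/-- The preimage of a closed set of indices under a map which follows a step is closed. -/
lemma SeqClosed.preimage {ι : Type} {s : ι → PP (AlgebraicClosure K) N} {σ : ι → ι} {r : ℕ}
    {F : Fin r → Fin (N + 1) → MvPolynomial (Fin (N + 1)) (AlgebraicClosure K)}
    (hF : ∀ α, SameDeg (F α)) (hs : ∀ k, Step F (s k) (s (σ k))) {A : Set ι}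
    (hA : SeqClosed s A) : SeqClosed s (σ ⁻¹' A) := by
  obtain ⟨S, hS, rfl⟩ := hA
  choose d hd using hF
  refine ⟨{G' | ∃ G ∈ S, ∃ α i, G' = X i * (aeval (F α) G : MvPolynomial (Fin (N + 1))
    (AlgebraicClosure K))}, ?_, ?_⟩
  · rintro _ ⟨G, hG, α, i, rfl⟩
    obtain ⟨e, he, hGe⟩ := hS G hG
    exact ⟨1 + e * d α, by omega, (isHomogeneous_X _ i).mul (by
      have := hGe.aeval (F α) (hd α)
      rwa [mul_comm] at this)⟩
  · ext k
    have key : ∀ (G : MvPolynomial (Fin (N + 1)) (AlgebraicClosure K)) (α : Fin r),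
        eval (s k).rep (aeval (F α) G : MvPolynomial (Fin (N + 1)) (AlgebraicClosure K)) =
        eval (vals (F α) (s k)) G := by
      intro G α
      exact MvPolynomial.comp_aeval_apply (f := F α) (aeval (s k).rep) G
    simp only [Set.mem_preimage, Set.mem_setOf_eq]
    constructor
    · rintro h _ ⟨G, hG, α, i, rfl⟩
      rw [map_mul, key]
      by_cases h0 : vals (F α) (s k) = 0
      · obtain ⟨e, he, hGe⟩ := hS G hG
        rw [h0, eval_zero_hom he hGe, mul_zero]
      · have h1 := (hs k).2 α h0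
        have h2 := h G hG
        obtain ⟨e, he, hGe⟩ := hS G hG
        rw [h1] at h2
        obtain ⟨a, ha⟩ := Projectivization.exists_smul_eq_mk_rep (AlgebraicClosure K) _ h0
        rw [← ha, Units.smul_def, eval_smul_hom hGe] at h2
        rcases mul_eq_zero.1 h2 with h3 | h3
        · exact absurd h3 (pow_ne_zero _ a.ne_zero)
        · rw [h3, mul_zero]
    · intro h G hG
      obtain ⟨⟨α, hα⟩, h1⟩ := hs k
      obtain ⟨e, he, hGe⟩ := hS G hG
      rw [h1 α hα]
      obtain ⟨a, ha⟩ := Projectivization.exists_smul_eq_mk_rep (AlgebraicClosure K) _ hα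
      rw [← ha, Units.smul_def, eval_smul_hom hGe]
      have h2 : ∃ i, (s k).rep i ≠ 0 := by
        by_contra hcon
        push Not at hcon
        exact (s k).rep_nonzero (funext hcon)
      obtain ⟨i, hi⟩ := h2
      have h3 := h _ ⟨G, hG, α, i, rfl⟩
      rw [map_mul, key, eval_X] at h3
      rcases mul_eq_zero.1 h3 with h4 | h4
      · exact absurd h4 hi
      · rw [h4, mul_zero]

/-- The set of indices whose image under a tuple of forms is undefined or in a closed set. -/
lemma seqClosed_compl {ι : Type} (s : ι → PP (AlgebraicClosure K) N)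
    {φ : Fin (m + 1) → MvPolynomial (Fin (N + 1)) (AlgebraicClosure K)} (hφ : SameDeg φ)
    {Z : Set (PP (AlgebraicClosure K) m)} (hZ : IsClosedOver K Z) :
    SeqClosed s {k | ∀ h : vals φ (s k) ≠ 0, Projectivization.mk _ (vals φ (s k)) h ∈ Z} := by
  obtain ⟨S, hS, rfl⟩ := hZ
  obtain ⟨d, hd⟩ := hφ
  refine ⟨{G' | ∃ G ∈ S, ∃ i j, G' = X i * (φ j * (aeval φ G : MvPolynomial (Fin (N + 1))
    (AlgebraicClosure K)))}, ?_, ?_⟩
  · rintro _ ⟨G, hG, i, j, rfl⟩
    obtain ⟨e, hGe⟩ := hS G hG
    exact ⟨1 + (d + d * e), by omega, (isHomogeneous_X _ i).mul ((hd j).mul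
      (hGe.aeval φ hd))⟩
  · ext k
    have key : ∀ (G : MvPolynomial (Fin (m + 1)) K),
        eval (s k).rep (aeval φ G : MvPolynomial (Fin (N + 1)) (AlgebraicClosure K)) =
        aeval (vals φ (s k)) G := by
      intro G
      exact MvPolynomial.comp_aeval_apply (f := φ)
        ((aeval (s k).rep : MvPolynomial (Fin (N + 1)) (AlgebraicClosure K) →ₐ[AlgebraicClosure K]
          AlgebraicClosure K).restrictScalars K) G
    simp only [Set.mem_setOf_eq]
    constructor
    · rintro h _ ⟨G, hG, i, j, rfl⟩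
      rw [map_mul, map_mul, key]
      by_cases h0 : vals φ (s k) = 0
      · have : eval (s k).rep (φ j) = 0 := congrFun h0 j
        rw [this, zero_mul, mul_zero]
      · have h1 := (mk_mem_zeros hS _ h0).1 (h h0) G hG
        rw [h1, mul_zero, mul_zero]
    · intro h h0
      rw [mk_mem_zeros hS]
      intro G hG
      obtain ⟨i, hi⟩ : ∃ i, (s k).rep i ≠ 0 := by
        by_contra hcon
        push Not at hcon
        exact (s k).rep_nonzero (funext hcon)
      obtain ⟨j, hj⟩ : ∃ j, eval (s k).rep (φ j) ≠ 0 := by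
        by_contra hcon
        push Not at hcon
        exact h0 (funext hcon)
      have h3 := h _ ⟨G, hG, i, j, rfl⟩
      rw [map_mul, map_mul, key, eval_X] at h3
      rcases mul_eq_zero.1 h3 with h4 | h4
      · exact absurd h4 hi
      · rcases mul_eq_zero.1 h4 with h5 | h5
        · exact absurd h5 hj
        · exact h5

/-- Visits of an orbit to the complement of a closed set: if there are infinitely many, their gaps
are bounded. -/
theorem bounded_gaps {s : ℕ → PP (AlgebraicClosure K) N} {r : ℕ}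
    {F : Fin r → Fin (N + 1) → MvPolynomial (Fin (N + 1)) (AlgebraicClosure K)}
    (hF : ∀ α, SameDeg (F α)) (hs : ∀ k, Step F (s k) (s (k + 1))) {A : Set ℕ}
    (hA : SeqClosed s A) (hinf : ∀ m, ∃ k, m ≤ k ∧ k ∉ A) :
    ∃ g : ℕ, ∀ n, ∃ j, j ≤ g ∧ n + j ∉ A := by
  have hsh : ∀ j : ℕ, SeqClosed s {k | k + j ∈ A} := by
    intro j
    induction j with
    | zero => exact hA
    | succ j ih =>
      have h := SeqClosed.preimage (σ := fun k => k + 1) hF hs ih
      have e : ((fun k => k + 1) ⁻¹' {k | k + j ∈ A} : Set ℕ) = {k | k + (j + 1) ∈ A} := by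
        ext k
        simp only [Set.mem_preimage, Set.mem_setOf_eq]
        rw [show k + 1 + j = k + (j + 1) by ring]
      rwa [e] at h
  let B : ℕ → Set ℕ := fun m => {k | ∀ j ≤ m, k + j ∈ A}
  have hB : ∀ m, SeqClosed s (B m) := by
    intro m
    have h := SeqClosed.iInter (s := s) (J := Fin (m + 1)) (A := fun j => {k | k + (j : ℕ) ∈ A})
      (fun j => hsh j)
    have e : (⋂ j : Fin (m + 1), {k | k + (j : ℕ) ∈ A} : Set ℕ) = B m := by
      ext k
      simp only [Set.mem_iInter, Set.mem_setOf_eq, B]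
      constructor
      · intro h j hj
        exact h ⟨j, by omega⟩
      · intro h j
        exact h j (by omega)
    rwa [e] at h
  obtain ⟨g, hg⟩ := seq_dcc hB (fun i j hij k hk l hl => hk l (hl.trans hij))
  refine ⟨g, fun n => ?_⟩
  by_contra hcon
  push Not at hcon
  obtain ⟨k, hk, hkA⟩ := hinf n
  have h1 : n ∈ B (max g (k - n)) := by
    rw [hg _ (le_max_left _ _)]
    exact hcon
  have h2 := h1 (k - n) (le_max_right _ _)
  rw [show n + (k - n) = k by omega] at h2
  exact hkA h2

/-- Orbits of invertible maps return: an orbit infinite in both directions which starts outside a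
closed set is outside of it infinitely often. -/
theorem returns {s : ℤ → PP (AlgebraicClosure K) N} {r r' : ℕ}
    {F : Fin r → Fin (N + 1) → MvPolynomial (Fin (N + 1)) (AlgebraicClosure K)}
    {F' : Fin r' → Fin (N + 1) → MvPolynomial (Fin (N + 1)) (AlgebraicClosure K)}
    (hF : ∀ α, SameDeg (F α)) (hF' : ∀ α, SameDeg (F' α))
    (hs : ∀ k, Step F (s k) (s (k + 1))) (hs' : ∀ k, Step F' (s k) (s (k - 1))) {A : Set ℤ}
    (hA : SeqClosed s A) (h0 : (0 : ℤ) ∉ A) (n : ℕ) : ∃ k : ℕ, n ≤ k ∧ (k : ℤ) ∉ A := by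
  by_contra hcon
  push Not at hcon
  have hsh : ∀ j : ℕ, SeqClosed s {k | k + (j : ℤ) ∈ A} := by
    intro j
    induction j with
    | zero => simpa using hA
    | succ j ih =>
      have h := SeqClosed.preimage (σ := fun k => k + 1) hF hs ih
      have e : ((fun k => k + 1) ⁻¹' {k | k + (j : ℤ) ∈ A} : Set ℤ) =
          {k | k + ((j + 1 : ℕ) : ℤ) ∈ A} := by
        ext k
        simp only [Set.mem_preimage, Set.mem_setOf_eq]
        rw [show k + 1 + (j : ℤ) = k + ((j + 1 : ℕ) : ℤ) by push_cast; ring]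
      rwa [e] at h
  let B : Set ℤ := {k | ∀ j : ℕ, k + (j : ℤ) ∈ A}
  have hB : SeqClosed s B := by
    have h := SeqClosed.iInter (s := s) hsh
    have e : (⋂ j : ℕ, {k | k + (j : ℤ) ∈ A} : Set ℤ) = B := by
      ext k
      simp only [Set.mem_iInter, Set.mem_setOf_eq, B]
    rwa [e] at h
  let C : ℕ → Set ℤ := fun m => {k | k - (m : ℤ) ∈ B}
  have hC : ∀ m, SeqClosed s (C m) := by
    intro m
    induction m with
    | zero => simpa [C] using hB
    | succ m ih =>
      have h := SeqClosed.preimage (σ := fun k => k - 1) hF' hs' ih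
      have e : ((fun k => k - 1) ⁻¹' C m : Set ℤ) = C (m + 1) := by
        ext k
        simp only [Set.mem_preimage, Set.mem_setOf_eq, C]
        rw [show k - 1 - (m : ℤ) = k - ((m + 1 : ℕ) : ℤ) by push_cast; ring]
      rwa [e] at h
  have hBs : ∀ k : ℤ, ∀ j : ℕ, k ∈ B → k + j ∈ B := by
    intro k j hk i
    have := hk (j + i)
    rw [show k + (j : ℤ) + (i : ℤ) = k + ((j + i : ℕ) : ℤ) by push_cast; ring]
    exact this
  have hanti : Antitone C := by
    intro i j hij k hk
    have h1 := hBs _ (j - i) hk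
    have e : k - (j : ℤ) + ((j - i : ℕ) : ℤ) = k - i := by
      have : ((j - i : ℕ) : ℤ) = (j : ℤ) - i := by omega
      rw [this]; ring
    rw [e] at h1
    exact h1
  obtain ⟨g, hg⟩ := seq_dcc hC hanti
  have hstep : ∀ k : ℤ, k + 1 ∈ B → k ∈ B := by
    intro k hk
    have h1 : k + 1 + (g : ℤ) ∈ C g := by
      show k + 1 + (g : ℤ) - (g : ℤ) ∈ B
      rwa [add_sub_cancel_right]
    rw [← hg (g + 1) (by omega)] at h1
    have h2 : k + 1 + (g : ℤ) - ((g + 1 : ℕ) : ℤ) ∈ B := h1
    rwa [show k + 1 + (g : ℤ) - ((g + 1 : ℕ) : ℤ) = k by push_cast; ring] at h2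
  have hn : (n : ℤ) ∈ B := by
    intro j
    have := hcon (n + j) (by omega)
    push_cast at this
    exact this
  have hall : ∀ i : ℕ, i ≤ n → ((n - i : ℕ) : ℤ) ∈ B := by
    intro i
    induction i with
    | zero => intro _; simpa using hn
    | succ i ih =>
      intro hi
      apply hstep
      have := ih (by omega)
      rw [show ((n - (i + 1) : ℕ) : ℤ) + 1 = ((n - i : ℕ) : ℤ) by omega]
      exact this
  have h1 := hall n le_rfl 0
  simp only [Nat.sub_self] at h1
  exact h0 (by simpa using h1)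

end Pool.Agent.Helper16.A9
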