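import Mathlib
import Pool.Agent.Helper16.A9.Noeth
import Pool.Agent.Helper16.A9.LowerE

set_option autoImplicit false

/-!
Orbits of maps given by forms: lower bounds for the counting function.
-/

namespace Pool.Agent.Helper16.A9

open Filter Topology Height MvPolynomial
open Pool.Agent.Helper3.A9

variable {K : Type} [Field K] {N m n : ℕ}

lemma exists_lift_mv (L : IntermediateField K (AlgebraicClosure K)) {σ : Type}
    (p : MvPolynomial σ (AlgebraicClosure K)) (h : ((p.coeffs : Finset _) : Set _) ⊆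
      (L : Set (AlgebraicClosure K))) :
    ∃ p' : MvPolynomial σ L, map (algebraMap L (AlgebraicClosure K)) p' = p := by
  have : p ∈ Set.range (map (σ := σ) (algebraMap L (AlgebraicClosure K))) := by
    rw [mem_range_map_iff_coeffs_subset]
    intro c hc
    exact ⟨⟨c, h hc⟩, rfl⟩
  exact this

lemma sameDeg_of_map {L F σ ι : Type} [Field L] [Field F] [Algebra L F]
    {p : ι → MvPolynomial σ L} (h : SameDeg (fun i => map (algebraMap L F) (p i))) :
    SameDeg p := by
  obtain ⟨d, hd⟩ := h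
  refine ⟨d, fun i e he => hd i ?_⟩
  rw [coeff_map]
  intro h0
  apply he
  exact (algebraMap L F).injective (by rw [h0, map_zero])

lemma vals_mk {F : Fin (m + 1) → MvPolynomial (Fin (N + 1)) (AlgebraicClosure K)} {d : ℕ}
    (hF : ∀ i, (F i).IsHomogeneous d) (v : Fin (N + 1) → AlgebraicClosure K) (hv : v ≠ 0) :
    ∃ c : AlgebraicClosure K, c ≠ 0 ∧
      vals F (Projectivization.mk _ v hv) = c • (fun i => eval v (F i)) := by
  obtain ⟨a, ha⟩ := Projectivization.exists_smul_eq_mk_rep (AlgebraicClosure K) v hv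
  refine ⟨(a : AlgebraicClosure K) ^ d, pow_ne_zero _ a.ne_zero, ?_⟩
  funext i
  simp only [vals, Pi.smul_apply, smul_eq_mul]
  rw [← ha, Units.smul_def, eval_smul_hom (hF i)]

/-- The logarithmic height over `L`. -/
noncomputable def lht [NumberField K] (L : IntermediateField K (AlgebraicClosure K))
    (hL : FiniteDimensional K L) (v : Fin (n + 1) → L) : ℝ :=
  Real.log (height L hL v)

lemma lht_nonneg [NumberField K] (L : IntermediateField K (AlgebraicClosure K))
    (hL : FiniteDimensional K L) (v : Fin (n + 1) → L) : 0 ≤ lht L hL v := by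
  haveI : NumberField L := NumberField.of_module_finite K L
  exact logHeight_nonneg v

/-- One step: rationality and height. -/
lemma step_lift [NumberField K] (L : IntermediateField K (AlgebraicClosure K))
    (hL : FiniteDimensional K L) {r : ℕ} {F' : Fin r → Fin (m + 1) → MvPolynomial (Fin (N + 1)) L}
    (hF' : ∀ α, SameDeg (F' α)) :
    ∃ D C : ℝ, 1 ≤ D ∧ 0 ≤ C ∧ ∀ (v : Fin (N + 1) → L) (h : lift L v ≠ 0)
      (Q : PP (AlgebraicClosure K) m),
      Step (fun α i => map (algebraMap L (AlgebraicClosure K)) (F' α i))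
        (Projectivization.mk _ (lift L v) h) Q →
      ∃ (w : Fin (m + 1) → L) (h' : lift L w ≠ 0), Q = Projectivization.mk _ (lift L w) h' ∧
        lht L hL w ≤ D * lht L hL v + C := by
  haveI : NumberField L := NumberField.of_module_finite K L
  choose d hd using hF'
  choose c hc using fun α => logHeight_eval_le' (hd α)
  refine ⟨∑ α, (d α : ℝ) + 1, ∑ α, |c α|, ?_, Finset.sum_nonneg fun α _ => abs_nonneg _, ?_⟩
  · have : 0 ≤ ∑ α, (d α : ℝ) := Finset.sum_nonneg fun α _ => Nat.cast_nonneg _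
    linarith
  · rintro v h Q ⟨⟨α, hα⟩, hQ⟩
    have hQα := hQ α hα
    have hmap : ∀ i, (map (algebraMap L (AlgebraicClosure K)) (F' α i)).IsHomogeneous (d α) :=
      fun i => (hd α i).map _
    obtain ⟨a, ha0, ha⟩ := vals_mk hmap (lift L v) h
    have hev : lift L (fun i => eval v (F' α i)) =
        fun i => eval (lift L v) (map (algebraMap L (AlgebraicClosure K)) (F' α i)) := by
      funext i
      have e := MvPolynomial.eval₂_comp_right (algebraMap L (AlgebraicClosure K)) (RingHom.id L) v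
        (F' α i)
      rw [eval_map]
      rw [MvPolynomial.map_id] at e
      exact e
    have hne : lift L (fun i => eval v (F' α i)) ≠ 0 := by
      intro h0
      apply hα
      rw [ha, ← hev, h0, smul_zero]
    refine ⟨fun i => eval v (F' α i), hne, ?_, ?_⟩
    · rw [hQα, Projectivization.mk_eq_mk_iff']
      exact ⟨a, by rw [ha, hev]⟩
    · have h1 := hc α v
      have h2 : c α ≤ ∑ α, |c α| := (le_abs_self _).trans
        (Finset.single_le_sum (f := fun α => |c α|) (fun i _ => abs_nonneg _) (Finset.mem_univ α))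
      have h3 : (d α : ℝ) ≤ ∑ α, (d α : ℝ) := Finset.single_le_sum (f := fun α => (d α : ℝ))
        (fun i _ => Nat.cast_nonneg _) (Finset.mem_univ α)
      have h4 : 0 ≤ logHeight v := logHeight_nonneg v
      have h5 : lht L hL v = logHeight v := rfl
      have h6 : lht L hL (fun i => eval v (F' α i)) = logHeight (fun i => eval v (F' α i)) := rfl
      rw [h5, h6]
      nlinarith

/-- Counting the visits. -/
lemma count_visits {U : Set (PP (AlgebraicClosure K) n)} {H : PP (AlgebraicClosure K) n → ℝ}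
    {L : IntermediateField K (AlgebraicClosure K)} {T : ℝ}
    (hfin : {P | P ∈ U ∧ P ∈ rat L ∧ H P ≤ T}.Finite) (V : Set ℕ)
    (Q : ℕ → PP (AlgebraicClosure K) n) {b g : ℕ} (hQ : ∀ k ∈ V, Q k ∈ U ∧ Q k ∈ rat L)
    (hb : ∀ (P : PP (AlgebraicClosure K) n) (S : Finset ℕ), (∀ k ∈ S, k ∈ V ∧ Q k = P) →
      S.card ≤ b)
    (hg : ∀ l, ∃ j, j ≤ g ∧ l + j ∈ V) {M : ℕ} (hM : ∀ k, k < M → k ∈ V → H (Q k) ≤ T) :
    M ≤ (g + 1) * (b * count U H L T + 1) := by
  classical
  let W := (Finset.range M).filter (· ∈ V)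
  have h1 : W.card ≤ b * (W.image Q).card := by
    refine Finset.card_le_mul_card_image _ _ fun P _ => hb P _ ?_
    intro k hk
    simp only [W, Finset.mem_filter] at hk
    exact ⟨hk.1.2, hk.2⟩
  have h2 : (W.image Q).card ≤ count U H L T := by
    unfold count
    rw [← Set.ncard_coe_finset]
    refine Set.ncard_le_ncard ?_ hfin
    intro P hP
    simp only [Finset.coe_image, Set.mem_image, W, Finset.coe_filter, Finset.mem_range,
      Set.mem_setOf_eq] at hP
    obtain ⟨k, ⟨hk1, hk2⟩, rfl⟩ := hP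
    exact ⟨(hQ k hk2).1, (hQ k hk2).2, hM k hk1 hk2⟩
  choose j hj hjV using hg
  have h3 : M / (g + 1) ≤ W.card := by
    have h4 : ((Finset.range (M / (g + 1))).image (fun i => i * (g + 1) + j (i * (g + 1)))).card =
        M / (g + 1) := by
      rw [Finset.card_image_of_injective, Finset.card_range]
      intro a c hac
      have ha := hj (a * (g + 1))
      have hc := hj (c * (g + 1))
      simp only at hac
      by_contra hne
      rcases Nat.lt_or_gt_of_ne hne with hlt | hlt
      · have : (a + 1) * (g + 1) ≤ c * (g + 1) := Nat.mul_le_mul_right _ hlt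
        nlinarith
      · have : (c + 1) * (g + 1) ≤ a * (g + 1) := Nat.mul_le_mul_right _ hlt
        nlinarith
    rw [← h4]
    apply Finset.card_le_card
    intro x hx
    simp only [Finset.mem_image, Finset.mem_range] at hx
    obtain ⟨i, hi, rfl⟩ := hx
    simp only [W, Finset.mem_filter, Finset.mem_range]
    refine ⟨?_, hjV _⟩
    have h5 := hj (i * (g + 1))
    have h6 : (i + 1) * (g + 1) ≤ M / (g + 1) * (g + 1) := Nat.mul_le_mul_right _ hi
    have h7 := Nat.div_mul_le_self M (g + 1)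
    nlinarith
  have h8 := Nat.lt_div_mul_add (a := M) (b := g + 1) (by omega)
  have h9 : M / (g + 1) ≤ b * count U H L T :=
    h3.trans (h1.trans (Nat.mul_le_mul_left _ h2))
  calc M ≤ M / (g + 1) * (g + 1) + (g + 1) := h8.le
    _ ≤ b * count U H L T * (g + 1) + (g + 1) := by gcongr
    _ = _ := by ring

/-- The images of the points `s k` under the tuple of forms `φ` are in `X` (as far as they are
defined), infinitely many indices give points of `U`, and no point is obtained from more than `b`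
indices, for some `b`. -/
def Hits (s : ℕ → PP (AlgebraicClosure K) N)
    (φ : Fin (n + 1) → MvPolynomial (Fin (N + 1)) (AlgebraicClosure K))
    (X U : Set (PP (AlgebraicClosure K) n)) : Prop :=
  (∀ (k : ℕ) (h : vals φ (s k) ≠ 0), Projectivization.mk _ (vals φ (s k)) h ∈ X) ∧
  (∀ l : ℕ, ∃ k, l ≤ k ∧ ∃ h : vals φ (s k) ≠ 0, Projectivization.mk _ (vals φ (s k)) h ∈ U) ∧
  ∃ b : ℕ, ∀ (P : PP (AlgebraicClosure K) n) (S : Finset ℕ),
    (∀ k ∈ S, ∃ h : vals φ (s k) ≠ 0, Projectivization.mk _ (vals φ (s k)) h = P) → S.card ≤ b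

lemma seqClosed_visits {ι : Type} (s : ι → PP (AlgebraicClosure K) N)
    {φ : Fin (n + 1) → MvPolynomial (Fin (N + 1)) (AlgebraicClosure K)} (hφ : SameDeg φ)
    {X U : Set (PP (AlgebraicClosure K) n)} (hU : IsOpenIn K X U)
    (hX : ∀ (k : ι) (h : vals φ (s k) ≠ 0), Projectivization.mk _ (vals φ (s k)) h ∈ X) :
    SeqClosed s {k | ∀ h : vals φ (s k) ≠ 0, Projectivization.mk _ (vals φ (s k)) h ∉ U} := by
  obtain ⟨hne, Z, hZ, rfl⟩ := hU
  have h1 := seqClosed_compl s hφ hZ
  have e : {k | ∀ h : vals φ (s k) ≠ 0, Projectivization.mk _ (vals φ (s k)) h ∈ Z} =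
      {k | ∀ h : vals φ (s k) ≠ 0, Projectivization.mk _ (vals φ (s k)) h ∉ X \ Z} := by
    ext k
    simp only [Set.mem_setOf_eq, Set.mem_sdiff, not_and, not_not]
    constructor
    · intro h2 h3 _
      exact h2 h3
    · intro h2 h3
      exact h2 h3 (hX k h3)
  rwa [e] at h1

lemma dyn_core [NumberField K] {X : Set (PP (AlgebraicClosure K) n)}
    {H : PP (AlgebraicClosure K) n → ℝ} (hH : Comparable X H)
    {U : Set (PP (AlgebraicClosure K) n)} (hU : IsOpenIn K X U) {r : ℕ}
    {F : Fin r → Fin (N + 1) → MvPolynomial (Fin (N + 1)) (AlgebraicClosure K)}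
    (hF : ∀ α, SameDeg (F α)) {s : ℕ → PP (AlgebraicClosure K) N}
    (hs : ∀ k, Step F (s k) (s (k + 1)))
    {φ : Fin (n + 1) → MvPolynomial (Fin (N + 1)) (AlgebraicClosure K)} (hφ : SameDeg φ)
    (hit : Hits s φ X U) :
    ∃ L₀ : IntermediateField K (AlgebraicClosure K), FiniteDimensional K L₀ ∧
      ∀ L : IntermediateField K (AlgebraicClosure K), L₀ ≤ L → ∀ hL : FiniteDimensional K L,
        ∃ (v : ℕ → Fin (N + 1) → L) (hv : ∀ k, lift L (v k) ≠ 0),
          (∀ k, s k = Projectivization.mk _ (lift L (v k)) (hv k)) ∧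
          ∃ (D C A : ℝ) (Z : ℕ), 1 ≤ D ∧ 0 ≤ C ∧ 0 < A ∧ 0 < Z ∧
            (∀ k, lht L hL (v (k + 1)) ≤ D * lht L hL (v k) + C) ∧
            ∀ (T : ℝ) (M : ℕ), (∀ k < M, Real.exp (A * (lht L hL (v k) + 1)) ≤ T) →
              (M : ℝ) ≤ Z + Z * count U H L T := by
  classical
  obtain ⟨L₀, hL₀, hsub⟩ := exists_field
    ((Set.range (s 0).rep ∪ (⋃ α, ⋃ i, (((F α i).coeffs : Finset _) : Set _))) ∪
      (⋃ i, (((φ i).coeffs : Finset _) : Set (AlgebraicClosure K))))
    (((Set.finite_range _).union (Set.finite_iUnion fun α => Set.finite_iUnion fun i =>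
      Finset.finite_toSet _)).union (Set.finite_iUnion fun i => Finset.finite_toSet _))
  refine ⟨L₀, hL₀, fun L hLL hL => ?_⟩
  haveI : NumberField L := NumberField.of_module_finite K L
  have hFL : ∀ α i, (((F α i).coeffs : Finset _) : Set _) ⊆ (L : Set (AlgebraicClosure K)) :=
    fun α i c hc => hLL (hsub (Or.inl (Or.inr
      (Set.mem_iUnion.2 ⟨α, Set.mem_iUnion.2 ⟨i, hc⟩⟩))))
  have hφL : ∀ i, (((φ i).coeffs : Finset _) : Set _) ⊆ (L : Set (AlgebraicClosure K)) :=
    fun i c hc => hLL (hsub (Or.inr (Set.mem_iUnion.2 ⟨i, hc⟩)))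
  have hsL : ∀ i, (s 0).rep i ∈ L := fun i => hLL (hsub (Or.inl (Or.inl ⟨i, rfl⟩)))
  choose F' hF' using fun α i => exists_lift_mv L (F α i) (hFL α i)
  choose φ' hφ' using fun i => exists_lift_mv L (φ i) (hφL i)
  have hFeq : F = fun α i => map (algebraMap L (AlgebraicClosure K)) (F' α i) := by
    funext α i
    exact (hF' α i).symm
  have hφeq : φ = fun i => map (algebraMap L (AlgebraicClosure K)) (φ' i) := by
    funext i
    exact (hφ' i).symm
  have hF'd : ∀ α, SameDeg (F' α) := by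
    intro α
    apply sameDeg_of_map (F := AlgebraicClosure K)
    have := hF α
    rw [hFeq] at this
    exact this
  have hφ'd : SameDeg φ' := by
    apply sameDeg_of_map (F := AlgebraicClosure K)
    rw [hφeq] at hφ
    exact hφ
  obtain ⟨D, C, hD, hC, hstep⟩ := step_lift L hL hF'd
  obtain ⟨D₁, C₁, hD₁, hC₁, hstep₁⟩ := step_lift (r := 1) L hL (F' := fun _ => φ')
    (fun _ => hφ'd)
  -- the lifts
  let S := {p : ℕ × (Fin (N + 1) → L) // ∃ h : lift L p.2 ≠ 0,
    s p.1 = Projectivization.mk _ (lift L p.2) h}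
  have hnext : ∀ p : S, ∃ q : S, q.1.1 = p.1.1 + 1 ∧
      lht L hL q.1.2 ≤ D * lht L hL p.1.2 + C := by
    rintro ⟨⟨k, v⟩, h, hk⟩
    have h1 := hs k
    simp only at h hk
    rw [hk, hFeq] at h1
    obtain ⟨w, h', hw, hle⟩ := hstep v h _ h1
    exact ⟨⟨(k + 1, w), h', hw⟩, rfl, hle⟩
  choose nxt hn1 hn2 using hnext
  have hlift0 : lift L (fun i => (⟨(s 0).rep i, hsL i⟩ : L)) = (s 0).rep := rfl
  let p₀ : S := ⟨(0, fun i => ⟨(s 0).rep i, hsL i⟩), (s 0).rep_nonzero,
    ((s 0).mk_rep).symm⟩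
  let p : ℕ → S := fun k => Nat.rec p₀ (fun _ q => nxt q) k
  have hp : ∀ k, (p k).1.1 = k := by
    intro k
    induction k with
    | zero => rfl
    | succ k ih =>
      have : p (k + 1) = nxt (p k) := rfl
      rw [this, hn1, ih]
  have hpk : ∀ k, ∃ h : lift L (p k).1.2 ≠ 0, s k = Projectivization.mk _ (lift L (p k).1.2) h := by
    intro k
    obtain ⟨h, h1⟩ := (p k).2
    refine ⟨h, ?_⟩
    rw [← h1, hp k]
  choose hv hvs using hpk
  obtain ⟨C₂, α, β, hC₂, hα, hβ, hcmp⟩ := hH L hL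
  obtain ⟨g, hg⟩ := bounded_gaps hF hs
    (seqClosed_visits s hφ hU hit.1) (by
      intro l
      obtain ⟨k, hk, h, hkU⟩ := hit.2.1 l
      exact ⟨k, hk, fun h1 => h1 h hkU⟩)
  obtain ⟨b, hb⟩ := hit.2.2
  let V : Set ℕ := {k | ∃ h : vals φ (s k) ≠ 0, Projectivization.mk _ (vals φ (s k)) h ∈ U}
  let Q : ℕ → PP (AlgebraicClosure K) n := fun k =>
    if h : vals φ (s k) ≠ 0 then Projectivization.mk _ (vals φ (s k)) h
      else Projectivization.mk _ (fun _ => 1) (fun h0 => one_ne_zero (congrFun h0 0))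
  have hQ : ∀ k (h : vals φ (s k) ≠ 0), Q k = Projectivization.mk _ (vals φ (s k)) h := by
    intro k h
    simp only [Q, dif_pos h]
  have hUX : U ⊆ X := by
    obtain ⟨-, Z, -, rfl⟩ := hU
    exact Set.sdiff_subset
  have hw : ∀ k ∈ V, ∃ (w : Fin (n + 1) → L) (h' : lift L w ≠ 0),
      Q k = Projectivization.mk _ (lift L w) h' ∧
        lht L hL w ≤ D₁ * lht L hL (p k).1.2 + C₁ := by
    rintro k ⟨h, hk⟩
    apply hstep₁ _ (hv k)
    rw [← hvs k]
    refine ⟨⟨0, ?_⟩, fun _ h1 => ?_⟩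
    · simpa only [← hφeq] using h
    · rw [hQ k h]
      congr 1
      simp only [← hφeq]
  refine ⟨fun k => (p k).1.2, hv, hvs, D, C, |Real.log C₂| + β * (D₁ + C₁) + 1,
    (g + 1) * (b + 1), hD, hC, by positivity, by positivity, fun k => ?_, ?_⟩
  · have h1 : p (k + 1) = nxt (p k) := rfl
    show lht L hL (p (k + 1)).1.2 ≤ _
    rw [h1]
    exact hn2 (p k)
  · intro T M hM
    have h1 := count_visits (U := U) (H := H) (L := L) (T := T) (b := b) (g := g)
      (((upper (cardLe n) hH L hL).1 T).subset (by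
        rintro P ⟨h1, h2, h3⟩
        exact ⟨hUX h1, h2, h3⟩)) V Q (by
        rintro k hk
        obtain ⟨w, h', hw1, hw2⟩ := hw k hk
        refine ⟨?_, ⟨w, h', hw1⟩⟩
        obtain ⟨h, hkU⟩ := hk
        rwa [hQ k h])
      (by
        intro P S hS
        apply hb P S
        intro k hk
        obtain ⟨⟨h, h1⟩, h2⟩ := hS k hk
        exact ⟨h, by rw [← hQ k h]; exact h2⟩)
      (by
        intro l
        obtain ⟨j, hj, hj'⟩ := hg l
        refine ⟨j, hj, ?_⟩
        simp only [Set.mem_setOf_eq, not_forall, not_not] at hj'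
        exact hj') (M := M)
      (by
        intro k hk hkV
        refine le_trans ?_ (hM k hk)
        obtain ⟨w, h', hw1, hw2⟩ := hw k hkV
        have hX : Projectivization.mk _ (lift L w) h' ∈ X := by
          rw [← hw1]
          obtain ⟨h, hkU⟩ := hkV
          rw [hQ k h]
          exact hUX hkU
        rw [hw1]
        refine (hcmp w h' hX).2.trans ?_
        have hpos : 0 < height L hL w := Height.mulHeight_pos _
        have h3 : height L hL w ^ β = Real.exp (β * lht L hL w) := by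
          unfold lht
          rw [Real.rpow_def_of_pos hpos, mul_comm]
        rw [h3, ← Real.exp_log hC₂, ← Real.exp_add, Real.exp_log hC₂]
        apply Real.exp_le_exp.2
        have h4 := lht_nonneg L hL (p k).1.2
        have h5 : Real.log C₂ ≤ |Real.log C₂| := le_abs_self _
        have h6 : 0 ≤ |Real.log C₂| := abs_nonneg _
        have h7 : β * lht L hL w ≤ β * (D₁ * lht L hL (p k).1.2 + C₁) := by gcongr
        have h8 : β * (D₁ * lht L hL (p k).1.2 + C₁) ≤
            β * (D₁ + C₁) * (lht L hL (p k).1.2 + 1) := by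
          have : 0 ≤ β * (D₁ + C₁ * lht L hL (p k).1.2) := by positivity
          nlinarith
        nlinarith)
    have h2 : (M : ℝ) ≤ ((g + 1) * (b * count U H L T + 1) : ℕ) := by exact_mod_cast h1
    refine h2.trans ?_
    push_cast
    have h3 : (0 : ℝ) ≤ count U H L T := Nat.cast_nonneg _
    have h4 : (0 : ℝ) ≤ b := Nat.cast_nonneg _
    have h5 : (0 : ℝ) ≤ g := Nat.cast_nonneg _
    have h6 : 0 ≤ (g + 1) * ((b : ℝ) + count U H L T) := by positivity
    nlinarith

lemma seq_lower_loglog {N : ℝ → ℝ} {Z : ℕ} (hZ : 0 < Z) {C : ℝ} (hC : 0 < C)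
    (h : ∀ T : ℝ, ∀ M : ℕ, (∀ k < M, Real.exp (Real.exp (C * ((k : ℝ) + 1))) ≤ T) →
      (M : ℝ) ≤ Z + Z * N T) :
    ∃ c > 0, ∀ᶠ T in atTop, c * Real.log (Real.log T) ≤ N T := by
  obtain ⟨c, hc, h1⟩ := seq_lower_log (N := fun s => N (Real.exp s)) hZ hC one_pos (by
    intro s M hM
    refine h _ M (fun k hk => Real.exp_le_exp.mpr ?_)
    have := hM k hk
    rwa [Real.rpow_one] at this)
  refine ⟨c, hc, ?_⟩
  filter_upwards [Real.tendsto_log_atTop.eventually h1, eventually_gt_atTop 0] with T h2 h3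
  rw [Real.exp_log h3] at h2
  simpa using h2

/-- Orbits give at least `c log log T` points. -/
theorem lower_dyn [NumberField K] {X : Set (PP (AlgebraicClosure K) n)}
    {H : PP (AlgebraicClosure K) n → ℝ} (hH : Comparable X H)
    {U : Set (PP (AlgebraicClosure K) n)} (hU : IsOpenIn K X U) {r : ℕ}
    {F : Fin r → Fin (N + 1) → MvPolynomial (Fin (N + 1)) (AlgebraicClosure K)}
    (hF : ∀ α, SameDeg (F α)) {s : ℕ → PP (AlgebraicClosure K) N}
    (hs : ∀ k, Step F (s k) (s (k + 1)))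
    {φ : Fin (n + 1) → MvPolynomial (Fin (N + 1)) (AlgebraicClosure K)} (hφ : SameDeg φ)
    (hit : Hits s φ X U) :
    ∃ L₀ : IntermediateField K (AlgebraicClosure K), FiniteDimensional K L₀ ∧
      ∀ L : IntermediateField K (AlgebraicClosure K), L₀ ≤ L → FiniteDimensional K L →
        ∃ c : ℝ, 0 < c ∧ ∀ᶠ T : ℝ in atTop, c * Real.log (Real.log T) ≤ count U H L T := by
  obtain ⟨L₀, hL₀, h⟩ := dyn_core hH hU hF hs hφ hit
  refine ⟨L₀, hL₀, fun L hLL hL => ?_⟩
  obtain ⟨v, hv, hvs, D, C, A, Z, hD, hC, hA, hZ, hrec, hcount⟩ := h L hLL hL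
  have hgrow : ∀ k, lht L hL (v k) + C ≤ (D + 1) ^ k * (lht L hL (v 0) + C) := by
    intro k
    induction k with
    | zero => simp
    | succ k ih =>
      have h1 := hrec k
      have h2 := lht_nonneg L hL (v k)
      calc lht L hL (v (k + 1)) + C ≤ (D + 1) * (lht L hL (v k) + C) := by nlinarith
        _ ≤ (D + 1) * ((D + 1) ^ k * (lht L hL (v 0) + C)) := by gcongr
        _ = _ := by ring
  set B := A * (lht L hL (v 0) + C + 1) with hB
  have h0 := lht_nonneg L hL (v 0)
  have hB0 : 0 < B := by positivity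
  set E := |Real.log B| + Real.log (D + 1) + 1 with hE
  have hlD : 0 ≤ Real.log (D + 1) := Real.log_nonneg (by linarith)
  have hE0 : 0 < E := by positivity
  obtain ⟨c, hc, hcT⟩ := seq_lower_loglog (N := fun T => (count U H L T : ℝ)) hZ hE0 (by
    intro T M hM
    apply hcount T M
    intro k hk
    refine le_trans (Real.exp_le_exp.2 ?_) (hM k hk)
    have h1 := hgrow k
    have h2 : (1 : ℝ) ≤ (D + 1) ^ k := one_le_pow₀ (by linarith)
    have h3 : A * (lht L hL (v k) + 1) ≤ B * (D + 1) ^ k := by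
      have : lht L hL (v k) + 1 ≤ (D + 1) ^ k * (lht L hL (v 0) + C + 1) := by
        nlinarith
      calc A * (lht L hL (v k) + 1) ≤ A * ((D + 1) ^ k * (lht L hL (v 0) + C + 1)) := by gcongr
        _ = _ := by rw [hB]; ring
    refine h3.trans ?_
    have h4 : B * (D + 1) ^ k = Real.exp (Real.log B + k * Real.log (D + 1)) := by
      rw [Real.exp_add, Real.exp_log hB0, mul_comm (k : ℝ), Real.exp_mul, Real.exp_log
        (by linarith), Real.rpow_natCast]
    rw [h4]
    apply Real.exp_le_exp.2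
    have h5 := le_abs_self (Real.log B)
    have h6 := abs_nonneg (Real.log B)
    have h7 : (0 : ℝ) ≤ k := Nat.cast_nonneg k
    rw [hE]
    nlinarith)
  exact ⟨c, hc, hcT⟩

/-- The logarithmic heights of the points `s k` grow at most polynomially in `k`, over all large
number fields. -/
def PolyHeight [NumberField K] (s : ℕ → PP (AlgebraicClosure K) N) : Prop :=
  ∃ L₁ : IntermediateField K (AlgebraicClosure K), FiniteDimensional K L₁ ∧
    ∀ L : IntermediateField K (AlgebraicClosure K), L₁ ≤ L → ∀ hL : FiniteDimensional K L,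
      ∃ (B : ℝ) (e : ℕ), ∀ (k : ℕ) (v : Fin (N + 1) → L) (h : lift L v ≠ 0),
        s k = Projectivization.mk _ (lift L v) h →
          Real.log (height L hL v) ≤ B * ((k : ℝ) + 1) ^ e

/-- Orbits of polynomial height growth give at least `c (log T) ^ c'` points. -/
theorem lower_dyn_poly [NumberField K] {X : Set (PP (AlgebraicClosure K) n)}
    {H : PP (AlgebraicClosure K) n → ℝ} (hH : Comparable X H)
    {U : Set (PP (AlgebraicClosure K) n)} (hU : IsOpenIn K X U) {r : ℕ}
    {F : Fin r → Fin (N + 1) → MvPolynomial (Fin (N + 1)) (AlgebraicClosure K)}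
    (hF : ∀ α, SameDeg (F α)) {s : ℕ → PP (AlgebraicClosure K) N}
    (hs : ∀ k, Step F (s k) (s (k + 1))) (hpoly : PolyHeight s)
    {φ : Fin (n + 1) → MvPolynomial (Fin (N + 1)) (AlgebraicClosure K)} (hφ : SameDeg φ)
    (hit : Hits s φ X U) :
    ∃ L₀ : IntermediateField K (AlgebraicClosure K), FiniteDimensional K L₀ ∧
      ∀ L : IntermediateField K (AlgebraicClosure K), L₀ ≤ L → FiniteDimensional K L →
        ∃ c c' : ℝ, 0 < c ∧ 0 < c' ∧ ∀ᶠ T : ℝ in atTop, c * Real.log T ^ c' ≤ count U H L T := by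
  obtain ⟨L₀, hL₀, h⟩ := dyn_core hH hU hF hs hφ hit
  obtain ⟨L₁, hL₁, hp⟩ := hpoly
  haveI := hL₀
  haveI := hL₁
  refine ⟨L₀ ⊔ L₁, IntermediateField.finiteDimensional_sup L₀ L₁, fun L hLL hL => ?_⟩
  obtain ⟨v, hv, hvs, D, C, A, Z, hD, hC, hA, hZ, hrec, hcount⟩ :=
    h L (le_sup_left.trans hLL) hL
  obtain ⟨B, e, hBe⟩ := hp L (le_sup_right.trans hLL) hL
  have hE0 : (0 : ℝ) < (e : ℝ) + 1 := by positivity
  obtain ⟨c, hc, hcT⟩ := seq_lower_log (N := fun T => (count U H L T : ℝ)) (Z := Z) hZ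
    (C := A * (|B| + 1)) (E := (e : ℝ) + 1) (by positivity) hE0 (by
      intro T M hM
      apply hcount T M
      intro k hk
      refine le_trans (Real.exp_le_exp.2 ?_) (hM k hk)
      have h1 : lht L hL (v k) ≤ B * ((k : ℝ) + 1) ^ e := hBe k (v k) (hv k) (hvs k)
      have hk0 : (0 : ℝ) ≤ k := Nat.cast_nonneg k
      have hk1 : (1 : ℝ) ≤ ((k : ℝ) + 1) ^ ((e : ℝ) + 1) := Real.one_le_rpow (by linarith) hE0.le
      have hk2 : ((k : ℝ) + 1) ^ e ≤ ((k : ℝ) + 1) ^ ((e : ℝ) + 1) := by
        rw [← Real.rpow_natCast]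
        exact Real.rpow_le_rpow_of_exponent_le (by linarith) (by linarith)
      have hk3 : (0 : ℝ) ≤ ((k : ℝ) + 1) ^ e := by positivity
      have h2 : B * ((k : ℝ) + 1) ^ e ≤ |B| * ((k : ℝ) + 1) ^ ((e : ℝ) + 1) :=
        (mul_le_mul_of_nonneg_right (le_abs_self B) hk3).trans (by gcongr)
      calc A * (lht L hL (v k) + 1) ≤
            A * (|B| * ((k : ℝ) + 1) ^ ((e : ℝ) + 1) + ((k : ℝ) + 1) ^ ((e : ℝ) + 1)) := by
            gcongr
            exact h1.trans h2
        _ = _ := by ring)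
  exact ⟨c, 1 / ((e : ℝ) + 1), hc, by positivity, hcT⟩

end Pool.Agent.Helper16.A9
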