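import Mathlib
import Pool.Agent.Helper16.A9.DynCount

set_option autoImplicit false

/-!
The arithmetic order of varieties with dense orbits.
-/

namespace Pool.Agent.Helper16.A9

open Filter Topology MvPolynomial
open Pool.Agent.Helper3.A9

variable {K : Type} [Field K] {N m n : ℕ}

lemma log_exp_shift {N : ℝ → ℝ} {c : ℝ}
    (hlo : ∀ᶠ T in atTop, c * Real.log (Real.log T) ≤ N T) :
    ∀ᶠ s in atTop, c * Real.log s ^ (1 : ℝ) ≤ N (Real.exp s) := by
  filter_upwards [Real.tendsto_exp_atTop.eventually hlo] with s hs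
  rw [Real.log_exp] at hs
  rwa [Real.rpow_one]

lemma ilog_exp (k : ℕ) (s : ℝ) : Real.log^[k + 1] (Real.exp s) = Real.log^[k] s := by
  rw [Function.iterate_succ_apply, Real.log_exp]

lemma order_le_two {N : ℝ → ℝ} {c : ℝ} (hc : 0 < c)
    (hlo : ∀ᶠ T in atTop, c * Real.log (Real.log T) ≤ N T) (m a : ℕ) (hm : 1 ≤ m)
    (h : Tendsto (fun T : ℝ => Real.log^[m] (N T) / Real.log^[m + a] T) atTop (𝓝 1)) :
    a ≤ 2 := by
  by_contra hcon
  push Not at hcon
  obtain ⟨a, rfl⟩ := Nat.exists_eq_add_of_le' (show 1 ≤ a by omega)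
  have h1 := h.comp Real.tendsto_exp_atTop
  have h2 : (fun T : ℝ => Real.log^[m] (N T) / Real.log^[m + (a + 1)] T) ∘ Real.exp =
      fun s : ℝ => Real.log^[m] ((fun s => N (Real.exp s)) s) / Real.log^[m + a] s := by
    funext s
    simp only [Function.comp_apply]
    rw [show m + (a + 1) = (m + a) + 1 by ring, ilog_exp]
  rw [h2] at h1
  have := order_le_one hc one_pos (log_exp_shift hlo) m a hm h1
  omega

lemma not_order_top_two {N : ℝ → ℝ} {c : ℝ} (hc : 0 < c)
    (hlo : ∀ᶠ T in atTop, c * Real.log (Real.log T) ≤ N T) (m : ℕ) (hm : 1 ≤ m)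
    (h : Tendsto (fun T : ℝ => Real.log^[m] (N T) / Real.log^[m + 2] T) atTop (𝓝 0)) :
    False := by
  have h1 := h.comp Real.tendsto_exp_atTop
  have h2 : (fun T : ℝ => Real.log^[m] (N T) / Real.log^[m + 2] T) ∘ Real.exp =
      fun s : ℝ => Real.log^[m] ((fun s => N (Real.exp s)) s) / Real.log^[m + 1] s := by
    funext s
    simp only [Function.comp_apply]
    rw [show m + 2 = (m + 1) + 1 by ring, ilog_exp]
  rw [h2] at h1
  exact not_order_top hc one_pos (log_exp_shift hlo) m hm h1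

/-- Each nonempty open subset `U` of `X` is visited infinitely often by (the image under a tuple of
forms, with bounded multiplicities, of) an orbit of a self-map which is given, on pieces, by
forms over the algebraic closure. -/
def DenseOrbits (K : Type) [Field K] {n : ℕ} (X : Set (PP (AlgebraicClosure K) n)) : Prop :=
  ∀ U, IsOpenIn K X U → ∃ (N r : ℕ)
    (F : Fin r → Fin (N + 1) → MvPolynomial (Fin (N + 1)) (AlgebraicClosure K))
    (s : ℕ → PP (AlgebraicClosure K) N)
    (φ : Fin (n + 1) → MvPolynomial (Fin (N + 1)) (AlgebraicClosure K)),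
    (∀ α, SameDeg (F α)) ∧ (∀ k, Step F (s k) (s (k + 1))) ∧ SameDeg φ ∧ Hits s φ X U

/-- As `DenseOrbits`, with orbits of polynomial height growth. -/
def DenseSlowOrbits (K : Type) [Field K] [NumberField K] {n : ℕ}
    (X : Set (PP (AlgebraicClosure K) n)) : Prop :=
  ∀ U, IsOpenIn K X U → ∃ (N r : ℕ)
    (F : Fin r → Fin (N + 1) → MvPolynomial (Fin (N + 1)) (AlgebraicClosure K))
    (s : ℕ → PP (AlgebraicClosure K) N)
    (φ : Fin (n + 1) → MvPolynomial (Fin (N + 1)) (AlgebraicClosure K)),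
    (∀ α, SameDeg (F α)) ∧ (∀ k, Step F (s k) (s (k + 1))) ∧ PolyHeight s ∧ SameDeg φ ∧
      Hits s φ X U

/-- If orbits are dense in `X`, then the arithmetic order of `X`, if it exists, is at most two. -/
theorem order_le_two_of_orbits [NumberField K] {X : Set (PP (AlgebraicClosure K) n)}
    {H : PP (AlgebraicClosure K) n → ℝ} (hH : Comparable X H) (hD : DenseOrbits K X) {a : ℕ}
    (h : HasOrder K X H a) : a ≤ 2 := by
  obtain ⟨m, hm, U₀, hU₀, h1⟩ := h
  obtain ⟨L₁, hL₁, h2⟩ := h1 U₀ hU₀ subset_rfl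
  obtain ⟨N, r, F, s, φ, hF, hs, hφ, hit⟩ := hD U₀ hU₀
  obtain ⟨L₂, hL₂, h3⟩ := lower_dyn hH hU₀ hF hs hφ hit
  haveI := hL₁
  haveI := hL₂
  have hL : FiniteDimensional K (L₁ ⊔ L₂ : IntermediateField K (AlgebraicClosure K)) :=
    IntermediateField.finiteDimensional_sup L₁ L₂
  obtain ⟨c, hc, hlo⟩ := h3 (L₁ ⊔ L₂) le_sup_right hL
  exact order_le_two (N := fun T => (count U₀ H (L₁ ⊔ L₂) T : ℝ)) hc hlo m a (by omega)
    (h2 (L₁ ⊔ L₂) le_sup_left hL)

/-- If orbits are dense in `X`, then `X` does not have arithmetic order infinity. -/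
theorem not_top_of_orbits [NumberField K] {X : Set (PP (AlgebraicClosure K) n)}
    {H : PP (AlgebraicClosure K) n → ℝ} (hH : Comparable X H) (hD : DenseOrbits K X) :
    ¬ HasOrderTop K X H := by
  rintro ⟨m, hm, U₀, hU₀, h1⟩
  obtain ⟨N, r, F, s, φ, hF, hs, hφ, hit⟩ := hD U₀ hU₀
  obtain ⟨L₂, hL₂, h3⟩ := lower_dyn hH hU₀ hF hs hφ hit
  obtain ⟨c, hc, hlo⟩ := h3 L₂ le_rfl hL₂
  exact not_order_top_two (N := fun T => (count U₀ H L₂ T : ℝ)) hc hlo m (by omega)
    (h1 U₀ hU₀ subset_rfl L₂ hL₂ 2)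

/-- If orbits of polynomial height growth are dense in `X`, then the arithmetic order of `X`, if it
exists, is at most one. -/
theorem order_le_one_of_orbits [NumberField K] {X : Set (PP (AlgebraicClosure K) n)}
    {H : PP (AlgebraicClosure K) n → ℝ} (hH : Comparable X H) (hD : DenseSlowOrbits K X) {a : ℕ}
    (h : HasOrder K X H a) : a ≤ 1 := by
  obtain ⟨m, hm, U₀, hU₀, h1⟩ := h
  obtain ⟨L₁, hL₁, h2⟩ := h1 U₀ hU₀ subset_rfl
  obtain ⟨N, r, F, s, φ, hF, hs, hp, hφ, hit⟩ := hD U₀ hU₀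
  obtain ⟨L₂, hL₂, h3⟩ := lower_dyn_poly hH hU₀ hF hs hp hφ hit
  haveI := hL₁
  haveI := hL₂
  have hL : FiniteDimensional K (L₁ ⊔ L₂ : IntermediateField K (AlgebraicClosure K)) :=
    IntermediateField.finiteDimensional_sup L₁ L₂
  obtain ⟨c, c', hc, hc', hlo⟩ := h3 (L₁ ⊔ L₂) le_sup_right hL
  exact order_le_one (N := fun T => (count U₀ H (L₁ ⊔ L₂) T : ℝ)) hc hc' hlo m a (by omega)
    (h2 (L₁ ⊔ L₂) le_sup_left hL)

lemma DenseSlowOrbits.denseOrbits [NumberField K] {X : Set (PP (AlgebraicClosure K) n)}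
    (h : DenseSlowOrbits K X) : DenseOrbits K X := by
  intro U hU
  obtain ⟨N, r, F, s, φ, hF, hs, hp, hφ, hit⟩ := h U hU
  exact ⟨N, r, F, s, φ, hF, hs, hφ, hit⟩

/-! ### Automorphisms -/

/-- The identity of projective space, as a tuple of forms. -/
lemma vals_X (P : PP (AlgebraicClosure K) n) :
    vals (fun i => (X i : MvPolynomial (Fin (n + 1)) (AlgebraicClosure K))) P = P.rep := by
  funext i
  simp [vals]

/-- The points of `X` with an infinite orbit under a bijective self-map of `X`, given with its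
inverse by forms on pieces, are Zariski dense in `X`: each nonempty open subset contains such a
point, for some self-map (which may depend on the open subset). -/
def DenseAut (K : Type) [Field K] {n : ℕ} (X : Set (PP (AlgebraicClosure K) n)) : Prop :=
  ∀ U, IsOpenIn K X U → ∃ (r r' : ℕ)
    (F : Fin r → Fin (n + 1) → MvPolynomial (Fin (n + 1)) (AlgebraicClosure K))
    (F' : Fin r' → Fin (n + 1) → MvPolynomial (Fin (n + 1)) (AlgebraicClosure K))
    (s : ℤ → PP (AlgebraicClosure K) n),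
    (∀ α, SameDeg (F α)) ∧ (∀ α, SameDeg (F' α)) ∧ (∀ k, Step F (s k) (s (k + 1))) ∧
      (∀ k, Step F' (s k) (s (k - 1))) ∧ Function.Injective s ∧ (∀ k, s k ∈ X) ∧ s 0 ∈ U

lemma DenseAut.denseOrbits {X : Set (PP (AlgebraicClosure K) n)}
    (h : DenseAut K X) : DenseOrbits K X := by
  intro U hU
  obtain ⟨r, r', F, F', s, hF, hF', hs, hs', hinj, hX, h0⟩ := h U hU
  have hφ : SameDeg (fun i => (MvPolynomial.X i : MvPolynomial (Fin (n + 1))
      (AlgebraicClosure K))) := ⟨1, fun i => isHomogeneous_X _ i⟩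
  have hmk : ∀ (P : PP (AlgebraicClosure K) n) (h : vals (fun i => (MvPolynomial.X i :
      MvPolynomial (Fin (n + 1)) (AlgebraicClosure K))) P ≠ 0),
      Projectivization.mk _ (vals (fun i => (MvPolynomial.X i :
      MvPolynomial (Fin (n + 1)) (AlgebraicClosure K))) P) h = P := by
    intro P h
    have : Projectivization.mk _ P.rep P.rep_nonzero = P := P.mk_rep
    conv_rhs => rw [← this]
    congr 1
    exact vals_X P
  refine ⟨n, r, F, fun k => s k, fun i => MvPolynomial.X i, hF, ?_, hφ, ?_, ?_, ?_⟩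
  · intro k
    have := hs k
    push_cast
    exact this
  · intro k h
    rw [hmk]
    exact hX k
  · intro l
    have h1 := seqClosed_visits s hφ hU (fun k h => by rw [hmk]; exact hX k)
    obtain ⟨k, hk, hk'⟩ := returns hF hF' hs hs' h1 (by
      intro h2
      have h3 : vals (fun i => (MvPolynomial.X i : MvPolynomial (Fin (n + 1))
        (AlgebraicClosure K))) (s 0) ≠ 0 := by
        rw [vals_X]
        exact (s 0).rep_nonzero
      apply h2 h3
      rw [hmk]
      exact h0) l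
    refine ⟨k, hk, ?_⟩
    simp only [Set.mem_setOf_eq, not_forall, not_not] at hk'
    exact hk'
  · refine ⟨1, fun P S hS => ?_⟩
    rw [Finset.card_le_one]
    intro a ha b hb
    obtain ⟨h1, h2⟩ := hS a ha
    obtain ⟨h3, h4⟩ := hS b hb
    rw [hmk] at h2 h4
    have h5 : s a = s b := h2.trans h4.symm
    exact_mod_cast hinj h5

end Pool.Agent.Helper16.A9
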