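import Mathlib
import Pool.Agent.Helper16.A9.Upper
import Pool.Agent.Helper16.A9.Ell

set_option autoImplicit false

/-!
Lower bound for the number of points of bounded height on the image of an elliptic curve.
-/

namespace Pool.Agent.Helper16.A9

open Height WeierstrassCurve Polynomial

variable {L : Type*} [Field L] [NumberField L] [DecidableEq L]

/-- The number of points of height at most `T` on the image of an elliptic curve of positive rank
is at least a power of `log T`. -/
theorem ell_count (W : Affine L) (P₀ : W.Point) (hP : ∀ n : ℕ, n ≠ 0 → n • P₀ ≠ 0) {N : ℕ}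
    (p q : Fin (N + 1) → L[X]) (i j : Fin (N + 1))
    (hind : ∀ a b : L, a ≠ 0 ∨ b ≠ 0 → ¬(C a * p i - C b * p j = 0 ∧ C a * q i - C b * q j = 0))
    (g h : L[X]) (hgh : ¬(g = 0 ∧ h = 0)) :
    ∃ c e T₀ : ℝ, 0 < c ∧ 0 < e ∧ ∀ T : ℝ, T₀ ≤ T → c * Real.log T ^ e ≤
      ({v : Projectivization L (Fin (N + 1) → L) | v.mulHeight ≤ T ∧
        ∃ x y, W.Equation x y ∧ g.eval x + h.eval x * y ≠ 0 ∧ ∃ hv : val p q x y ≠ 0,
          v = Projectivization.mk L (val p q x y) hv}.ncard : ℝ) := by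
  classical
  -- degree bound
  obtain ⟨m, hm1, hm2, hm3, hm4, hm5, hm6⟩ : ∃ m : ℕ, (p i).natDegree ≤ m ∧ (q i).natDegree ≤ m ∧
      (p j).natDegree ≤ m ∧ (q j).natDegree ≤ m ∧ g.natDegree ≤ m ∧ h.natDegree ≤ m :=
    ⟨(p i).natDegree + (q i).natDegree + (p j).natDegree + (q j).natDegree + g.natDegree +
      h.natDegree, by omega, by omega, by omega, by omega, by omega, by omega⟩
  set F : ℕ := 2 * (2 * m + 3) with hF
  have hFpos : 0 < F := by omega
  obtain ⟨z1, z1c⟩ := zeros_card W m g h hm5 hm6 hgh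
  have hi0 : ¬(p i = 0 ∧ q i = 0) := by
    intro hcon
    refine hind 1 0 (Or.inl one_ne_zero) ?_
    rw [hcon.1, hcon.2]
    simp
  obtain ⟨z2, z2c⟩ := zeros_card W m (p i) (q i) hm1 hm2 hi0
  -- the coordinates of the multiples
  have hex : ∀ k : ℕ, ∃ z : L × L, (k ≠ 0 → ∃ hz : W.Nonsingular z.1 z.2,
      k • P₀ = Affine.Point.some z.1 z.2 hz) := by
    intro k
    by_cases hk : k = 0
    · exact ⟨(0, 0), fun h => absurd hk h⟩
    · rcases hkp : k • P₀ with _ | ⟨x, y, hxy⟩
      · exact absurd hkp (hP k hk)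
      · exact ⟨(x, y), fun _ => ⟨hxy, rfl⟩⟩
  choose z hz using hex
  have hzinj : ∀ k l : ℕ, k ≠ 0 → l ≠ 0 → z k = z l → k = l := by
    intro k l hk hl hkl
    obtain ⟨h1, e1⟩ := hz k hk
    obtain ⟨h2, e2⟩ := hz l hl
    have h3 : k • P₀ = l • P₀ := by
      rw [e1, e2]
      simp only [Affine.Point.some.injEq]
      exact ⟨by rw [hkl], by rw [hkl]⟩
    by_contra hne
    rcases Nat.lt_or_gt_of_ne hne with hlt | hlt
    · apply hP (l - k) (by omega)
      have : (l - k) • P₀ + k • P₀ = k • P₀ := by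
        rw [← add_smul, Nat.sub_add_cancel hlt.le, h3]
      simpa using this
    · apply hP (k - l) (by omega)
      have : (k - l) • P₀ + l • P₀ = l • P₀ := by
        rw [← add_smul, Nat.sub_add_cancel hlt.le, h3]
      simpa using this
  have hzeq : ∀ k : ℕ, k ≠ 0 → W.Equation (z k).1 (z k).2 := by
    intro k hk
    obtain ⟨h1, e1⟩ := hz k hk
    exact h1.1
  -- heights
  obtain ⟨C1, hC1, hC1'⟩ := logHeight_val_le p q
  obtain ⟨C2, D, hC2⟩ := growth W P₀
  have hth : ∀ k : ℕ, k ≠ 0 → logHeight (val p q (z k).1 (z k).2) ≤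
      C1 * (C2 * ((k : ℝ) + 1) ^ D + 1) := by
    intro k hk
    refine (hC1' _ _).trans ?_
    have h1 := hC2 k
    obtain ⟨hk1, hk2⟩ := hz k hk
    rw [hk2] at h1
    have h1' : logHeight₁ (z k).1 + logHeight₁ (z k).2 ≤ C2 * ((k : ℝ) + 1) ^ D := h1
    gcongr
  set C3 : ℝ := C1 * (C2 + 1) + 1 with hC3
  have hC3pos : 0 < C3 := by positivity
  have hth2 : ∀ k B : ℕ, k ≠ 0 → k ≤ B → logHeight (val p q (z k).1 (z k).2) ≤
      C3 * ((B : ℝ) + 1) ^ (D + 1) := by
    intro k B hk hkB
    refine (hth k hk).trans ?_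
    have h1 : ((k : ℝ) + 1) ^ D ≤ ((B : ℝ) + 1) ^ (D + 1) := by
      have hkB' : (k : ℝ) ≤ B := by exact_mod_cast hkB
      calc ((k : ℝ) + 1) ^ D ≤ ((B : ℝ) + 1) ^ D := by gcongr
        _ ≤ ((B : ℝ) + 1) ^ (D + 1) := by
            apply pow_le_pow_right₀ _ (Nat.le_succ D)
            have : (0 : ℝ) ≤ B := Nat.cast_nonneg B
            linarith
    have h2 : (1 : ℝ) ≤ ((B : ℝ) + 1) ^ (D + 1) := by
      apply one_le_pow₀
      have : (0 : ℝ) ≤ B := Nat.cast_nonneg B
      linarith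
    have hC20 : (0 : ℝ) ≤ C2 := Nat.cast_nonneg C2
    calc C1 * (C2 * ((k : ℝ) + 1) ^ D + 1) ≤
          C1 * (C2 * ((B : ℝ) + 1) ^ (D + 1) + ((B : ℝ) + 1) ^ (D + 1)) := by gcongr
      _ = C1 * (C2 + 1) * ((B : ℝ) + 1) ^ (D + 1) := by ring
      _ ≤ C3 * ((B : ℝ) + 1) ^ (D + 1) := by
          have : (0 : ℝ) ≤ ((B : ℝ) + 1) ^ (D + 1) := zero_le_one.trans h2
          rw [hC3]
          nlinarith
  -- the set
  let S : ℝ → Set (Projectivization L (Fin (N + 1) → L)) := fun T =>
    {v | v.mulHeight ≤ T ∧ ∃ x y, W.Equation x y ∧ g.eval x + h.eval x * y ≠ 0 ∧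
      ∃ hv : val p q x y ≠ 0, v = Projectivization.mk L (val p q x y) hv}
  -- finiteness
  obtain ⟨_, _, _, _, hup⟩ := card_le L N
  have hSfin : ∀ T : ℝ, 1 ≤ T → (S T).Finite := fun T hT =>
    (hup T hT).1.subset fun v hv => hv.1
  -- good indices
  have hcount : ∀ B : ℕ, ∀ T : ℝ, 1 ≤ T → C3 * ((B : ℝ) + 1) ^ (D + 1) ≤ Real.log T →
      (B : ℝ) - 2 * F ≤ F * (S T).ncard := by
    intro B T hT hBT
    let Gd : Finset ℕ := (Finset.Icc 1 B).filter (fun k => z k ∉ z1.toFinset ∪ z2.toFinset)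
    have hGd : B ≤ Gd.card + 2 * F := by
      have h1 := Finset.card_filter_add_card_filter_not (s := Finset.Icc 1 B)
        (fun k => z k ∈ z1.toFinset ∪ z2.toFinset)
      rw [Nat.card_Icc] at h1
      have h2 : ((Finset.Icc 1 B).filter (fun k => z k ∈ z1.toFinset ∪ z2.toFinset)).card ≤
          (z1.toFinset ∪ z2.toFinset).card := by
        apply Finset.card_le_card_of_injOn z
        · intro k hk
          exact (Finset.mem_filter.1 (Finset.mem_coe.1 hk)).2
        · intro k hk l hl hkl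
          have hk1 := (Finset.mem_Icc.1 (Finset.mem_filter.1 (Finset.mem_coe.1 hk)).1).1
          have hl1 := (Finset.mem_Icc.1 (Finset.mem_filter.1 (Finset.mem_coe.1 hl)).1).1
          exact hzinj k l (by omega) (by omega) hkl
      have h3 : (z1.toFinset ∪ z2.toFinset).card ≤ F + F := by
        refine (Finset.card_union_le _ _).trans ?_
        rw [← Set.ncard_eq_toFinset_card _ z1, ← Set.ncard_eq_toFinset_card _ z2]
        exact Nat.add_le_add z1c z2c
      have h4 : Gd.card = ((Finset.Icc 1 B).filter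
        (fun k => ¬(z k ∈ z1.toFinset ∪ z2.toFinset))).card := rfl
      omega
    -- properties of good indices
    have hgood : ∀ k ∈ Gd, k ≠ 0 ∧ k ≤ B ∧
        g.eval (z k).1 + h.eval (z k).1 * (z k).2 ≠ 0 ∧ val p q (z k).1 (z k).2 i ≠ 0 := by
      intro k hk
      obtain ⟨hk1, hk2⟩ := Finset.mem_filter.1 hk
      obtain ⟨hk3, hk4⟩ := Finset.mem_Icc.1 hk1
      have hk0 : k ≠ 0 := by omega
      rw [Finset.mem_union, not_or, Set.Finite.mem_toFinset, Set.Finite.mem_toFinset] at hk2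
      refine ⟨hk0, hk4, fun hcon => hk2.1 ⟨hzeq k hk0, hcon⟩, fun hcon => hk2.2 ⟨hzeq k hk0, hcon⟩⟩
    have hne : ∀ k ∈ Gd, val p q (z k).1 (z k).2 ≠ 0 := by
      intro k hk hcon
      exact (hgood k hk).2.2.2 (congrFun hcon i)
    have : Nonempty (Projectivization L (Fin (N + 1) → L)) := by
      refine ⟨Projectivization.mk L (fun _ => 1) ?_⟩
      intro hcon
      have := congrFun hcon i
      simp at this
    let Φ : ℕ → Projectivization L (Fin (N + 1) → L) := fun k =>
      if hk : val p q (z k).1 (z k).2 ≠ 0 then Projectivization.mk L _ hk else Classical.arbitrary _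
    have hΦ : ∀ k (hk : val p q (z k).1 (z k).2 ≠ 0), Φ k = Projectivization.mk L _ hk := by
      intro k hk
      simp only [Φ, dif_pos hk]
    have himg : (Gd.image Φ : Set _) ⊆ S T := by
      intro v hv
      rw [Finset.mem_coe, Finset.mem_image] at hv
      obtain ⟨k, hk, rfl⟩ := hv
      obtain ⟨hk0, hkB, hk2, hk3⟩ := hgood k hk
      rw [hΦ k (hne k hk)]
      refine ⟨?_, (z k).1, (z k).2, hzeq k hk0, hk2, hne k hk, rfl⟩
      rw [Projectivization.mulHeight_mk]
      have h1 := (hth2 k B hk0 hkB).trans hBT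
      rw [logHeight_eq_log_mulHeight] at h1
      exact (Real.log_le_log_iff (mulHeight_pos _) (by linarith)).1 h1
    have hfib : ∀ a ∈ Gd.image Φ, (Gd.filter (fun k => Φ k = a)).card ≤ F := by
      intro a ha
      obtain ⟨k0, hk0, rfl⟩ := Finset.mem_image.1 ha
      set a0 : L := val p q (z k0).1 (z k0).2 j with ha0
      set b0 : L := val p q (z k0).1 (z k0).2 i with hb0
      have hb0' : b0 ≠ 0 := (hgood k0 hk0).2.2.2
      obtain ⟨z3, z3c⟩ := zeros_card W m (C a0 * p i - C b0 * p j) (C a0 * q i - C b0 * q j)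
        ((natDegree_sub_le _ _).trans (max_le ((natDegree_C_mul_le _ _).trans hm1)
          ((natDegree_C_mul_le _ _).trans hm3)))
        ((natDegree_sub_le _ _).trans (max_le ((natDegree_C_mul_le _ _).trans hm2)
          ((natDegree_C_mul_le _ _).trans hm4)))
        (hind a0 b0 (Or.inr hb0'))
      refine le_trans ?_ z3c
      rw [Set.ncard_eq_toFinset_card _ z3]
      apply Finset.card_le_card_of_injOn z
      · intro k hk
        obtain ⟨hk1, hk2⟩ := Finset.mem_filter.1 (Finset.mem_coe.1 hk)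
        rw [Finset.mem_coe, Set.Finite.mem_toFinset]
        refine ⟨hzeq k (hgood k hk1).1, ?_⟩
        rw [hΦ k (hne k hk1), hΦ k0 (hne k0 hk0), Projectivization.mk_eq_mk_iff'] at hk2
        obtain ⟨t, ht⟩ := hk2
        have e1 : t * b0 = val p q (z k).1 (z k).2 i := congrFun ht i
        have e2 : t * a0 = val p q (z k).1 (z k).2 j := congrFun ht j
        simp only [eval_sub, eval_mul, eval_C]
        have e3 : val p q (z k).1 (z k).2 i =
          (p i).eval (z k).1 + (q i).eval (z k).1 * (z k).2 := rfl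
        have e4 : val p q (z k).1 (z k).2 j =
          (p j).eval (z k).1 + (q j).eval (z k).1 * (z k).2 := rfl
        linear_combination (-a0) * (e1.trans e3) + b0 * (e2.trans e4)
      · intro k hk l hl hkl
        have hk1 := (hgood k (Finset.mem_filter.1 (Finset.mem_coe.1 hk)).1).1
        have hl1 := (hgood l (Finset.mem_filter.1 (Finset.mem_coe.1 hl)).1).1
        exact hzinj k l hk1 hl1 hkl
    have h1 := Finset.card_le_mul_card_image Gd F hfib
    have h2 : (Gd.image Φ).card ≤ (S T).ncard := by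
      rw [← Set.ncard_coe_finset]
      exact Set.ncard_le_ncard himg (hSfin T hT)
    have h3 : B ≤ F * (S T).ncard + 2 * F := by
      calc B ≤ Gd.card + 2 * F := hGd
        _ ≤ F * (Gd.image Φ).card + 2 * F := by omega
        _ ≤ F * (S T).ncard + 2 * F := by gcongr
    have h4 : (B : ℝ) ≤ F * (S T).ncard + 2 * F := by exact_mod_cast h3
    linarith
  -- the final estimate
  set e : ℝ := 1 / ((D : ℝ) + 1) with he
  have hepos : 0 < e := by positivity
  set K : ℝ := 2 * F + 2 with hK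
  have hKpos : 0 < K := by positivity
  -- `u T = (log T / C3) ^ e`
  refine ⟨1 / (2 * F * C3 ^ e), e, Real.exp (C3 * (2 * K) ^ (D + 1)), by positivity, hepos,
    fun T hT => ?_⟩
  have hT1 : 1 ≤ T := by
    refine le_trans ?_ hT
    exact Real.one_le_exp (by positivity)
  have hTpos : 0 < T := by linarith
  have hlog : C3 * (2 * K) ^ (D + 1) ≤ Real.log T := (Real.le_log_iff_exp_le hTpos).2 hT
  set u : ℝ := (Real.log T / C3) ^ e with hu
  have hlog0 : 0 ≤ Real.log T := le_trans (by positivity) hlog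
  have hdiv0 : 0 ≤ Real.log T / C3 := div_nonneg hlog0 hC3pos.le
  have hpowu : u ^ (D + 1) = Real.log T / C3 := by
    rw [hu, ← Real.rpow_natCast, ← Real.rpow_mul hdiv0, he]
    push_cast
    rw [one_div_mul_cancel (by positivity), Real.rpow_one]
  have hu0 : 0 ≤ u := Real.rpow_nonneg hdiv0 _
  have hu2K : 2 * K ≤ u := by
    by_contra hcon
    push Not at hcon
    have h1 : u ^ (D + 1) < (2 * K) ^ (D + 1) := pow_lt_pow_left₀ hcon hu0 (Nat.succ_ne_zero D)
    rw [hpowu, div_lt_iff₀ hC3pos] at h1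
    linarith [mul_comm C3 ((2 * K) ^ (D + 1))]
  obtain ⟨B, hB⟩ : ∃ B : ℕ, (B : ℝ) + 1 ≤ u ∧ u ≤ B + 2 := by
    refine ⟨⌊u⌋₊ - 1, ?_⟩
    have h1 : 1 ≤ ⌊u⌋₊ := by
      rw [Nat.one_le_floor_iff]
      linarith
    have h2 := Nat.floor_le hu0
    have h3 := Nat.lt_floor_add_one u
    rw [Nat.cast_sub h1]
    push_cast
    constructor <;> linarith
  have h1 := hcount B T hT1 (by
    have : ((B : ℝ) + 1) ^ (D + 1) ≤ Real.log T / C3 := by
      rw [← hpowu]
      have : (0 : ℝ) ≤ (B : ℝ) + 1 := by positivity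
      gcongr
      exact hB.1
    calc C3 * ((B : ℝ) + 1) ^ (D + 1) ≤ C3 * (Real.log T / C3) := by gcongr
      _ = Real.log T := by field_simp)
  have h2 : u / 2 ≤ F * (S T).ncard := by
    have : u / 2 ≤ u - K := by linarith
    rw [hK] at this
    linarith [hB.2]
  have h3 : Real.log T ^ e = C3 ^ e * u := by
    rw [hu, Real.div_rpow hlog0 hC3pos.le]
    field_simp
  rw [h3]
  have hFr : (0 : ℝ) < F := by exact_mod_cast hFpos
  have hC3e : 0 < C3 ^ e := Real.rpow_pos_of_pos hC3pos e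
  calc 1 / (2 * F * C3 ^ e) * (C3 ^ e * u) = u / 2 / F := by field_simp
    _ ≤ (S T).ncard := by
        rw [div_le_iff₀ hFr]
        linarith [mul_comm (F : ℝ) ((S T).ncard : ℝ)]

end Pool.Agent.Helper16.A9
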