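import Mathlib
import Pool.Agent.Helper16.A9.Dyn

set_option autoImplicit false

/-!
Varieties with dense images of algebraic groups.
-/

namespace Pool.Agent.Helper16.A9

open Filter Topology Height MvPolynomial
open Pool.Agent.Helper3.A9

variable {K : Type} [Field K] {N m n : ℕ}

lemma growth_seq {a : ℕ → ℝ} (ha0 : ∀ k, 0 ≤ a k) {A : ℝ} (hA1 : 1 ≤ A)
    (hA : ∀ i j, a (i + j) ≤ A * (a i + a j + 1)) :
    ∃ C D : ℕ, ∀ k : ℕ, a k ≤ C * ((k : ℝ) + 1) ^ D := by
  have h10 := ha0 1
  obtain ⟨B, hB⟩ : ∃ B : ℕ, A * A * 3 * (a 1 + 3) + a 0 ≤ B := exists_nat_ge _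
  have hAA : 1 ≤ A * A := by nlinarith
  have h00 := ha0 0
  have hB' : A * A * 3 * (a 1 + 3) ≤ B := by linarith
  have hB1 : (1 : ℝ) ≤ B := by nlinarith
  have key : ∀ j n : ℕ, n < 2 ^ j → a n ≤ (B : ℝ) ^ (2 * (j + 1)) := by
    intro j
    induction j with
    | zero =>
      intro n hn
      have : n = 0 := by simpa using hn
      subst this
      have h1 : a 0 ≤ B := by
        have : 0 ≤ A * A * 3 * (a 1 + 3) := by positivity
        linarith
      refine h1.trans ?_
      calc (B : ℝ) = B ^ 1 := (pow_one _).symm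
        _ ≤ B ^ (2 * (0 + 1)) := pow_le_pow_right₀ hB1 (by norm_num)
    | succ j ih =>
      intro n hn
      have hm : n / 2 < 2 ^ j := by
        rw [pow_succ] at hn
        omega
      have h1 := ih _ hm
      have hBj : (1 : ℝ) ≤ (B : ℝ) ^ (2 * (j + 1)) := one_le_pow₀ hB1
      have h2 := hA (n / 2) (n / 2)
      have h0 := ha0 (n / 2 + n / 2)
      have h0' := ha0 (n / 2)
      have hB0 : (0:ℝ) ≤ B := by linarith
      have h3 : a (n / 2 + n / 2) ≤ 3 * A * (B : ℝ) ^ (2 * (j + 1)) := by nlinarith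
      have hgoal : A * (3 * A * (B : ℝ) ^ (2 * (j + 1)) + a 1 + 1) ≤
          (B : ℝ) ^ (2 * (j + 1 + 1)) := by
        have e : (B : ℝ) ^ (2 * (j + 1 + 1)) = (B : ℝ) ^ (2 * (j + 1)) * (B * B) := by ring
        rw [e]
        have : A * (3 * A * (B : ℝ) ^ (2 * (j + 1)) + a 1 + 1) ≤
            (B : ℝ) ^ (2 * (j + 1)) * (A * A * 3 * (a 1 + 3)) := by
          have q1 : A ≤ A * A := by nlinarith
          have q2 : 0 ≤ A * A := by nlinarith
          have q3 : A * (a 1 + 1) ≤ A * A * (a 1 + 1) := by nlinarith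
          have q4 : A * A * (a 1 + 1) ≤ (B : ℝ) ^ (2 * (j + 1)) * (A * A * (a 1 + 1)) := by
            have : 0 ≤ A * A * (a 1 + 1) := by positivity
            nlinarith
          have q5 : 0 ≤ (B : ℝ) ^ (2 * (j + 1)) * (A * A) := by positivity
          nlinarith
        have hBB : A * A * 3 * (a 1 + 3) ≤ B * B := by nlinarith
        have : (B : ℝ) ^ (2 * (j + 1)) * (A * A * 3 * (a 1 + 3)) ≤
            (B : ℝ) ^ (2 * (j + 1)) * (B * B) := by
          gcongr
        linarith
      rcases Nat.even_or_odd' n with ⟨m, rfl | rfl⟩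
      · have e1 : 2 * m / 2 = m := by omega
        rw [e1] at h3 h1
        have e2 : 2 * m = m + m := by ring
        rw [e2]
        refine h3.trans (le_trans ?_ hgoal)
        have : 0 ≤ 3 * A * (B : ℝ) ^ (2 * (j + 1)) := by positivity
        nlinarith
      · have e1 : (2 * m + 1) / 2 = m := by omega
        rw [e1] at h3 h1
        have e2 : 2 * m + 1 = m + m + 1 := by ring
        rw [e2]
        refine (hA _ _).trans (le_trans ?_ hgoal)
        gcongr
  refine ⟨B ^ 4, 2 * Nat.clog 2 B, fun k => ?_⟩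
  have h1 := key (Nat.log 2 k + 1) k (Nat.lt_pow_succ_log_self one_lt_two k)
  refine h1.trans ?_
  have h2 : (2 : ℕ) ^ Nat.log 2 k ≤ k + 1 := by
    rcases Nat.eq_zero_or_pos k with rfl | hk
    · simp
    · exact (Nat.pow_log_le_self 2 hk.ne').trans (Nat.le_succ k)
  have h3 : B ≤ 2 ^ Nat.clog 2 B := Nat.le_pow_clog one_lt_two B
  have h4 : B ^ (2 * (Nat.log 2 k + 1 + 1)) ≤ B ^ 4 * (k + 1) ^ (2 * Nat.clog 2 B) := by
    calc B ^ (2 * (Nat.log 2 k + 1 + 1)) = B ^ 4 * B ^ (2 * Nat.log 2 k) := by ring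
      _ ≤ B ^ 4 * (2 ^ Nat.clog 2 B) ^ (2 * Nat.log 2 k) := by gcongr
      _ = B ^ 4 * (2 ^ Nat.log 2 k) ^ (2 * Nat.clog 2 B) := by
          rw [← pow_mul, ← pow_mul]
          congr 2
          ring
      _ ≤ B ^ 4 * (k + 1) ^ (2 * Nat.clog 2 B) := by gcongr
  exact_mod_cast h4

/-- Bihomogeneous polynomials of bidegree `(d, e)` in two sets of `N + 1` variables. -/
def BiDeg {R : Type} [CommSemiring R] (p : MvPolynomial (Fin (N + 1) ⊕ Fin (N + 1)) R)
    (d e : ℕ) : Prop :=
  ∀ μ, p.coeff μ ≠ 0 → (∑ i, μ (Sum.inl i) = d ∧ ∑ i, μ (Sum.inr i) = e)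

/-- The values of a tuple of polynomials in two sets of variables at the coordinates of a pair of
points. -/
noncomputable def vals₂ (F : Fin (N + 1) → MvPolynomial (Fin (N + 1) ⊕ Fin (N + 1))
    (AlgebraicClosure K)) (P Q : PP (AlgebraicClosure K) N) : Fin (N + 1) → AlgebraicClosure K :=
  fun i => eval (Sum.elim P.rep Q.rep) (F i)

/-- An algebraic group over the algebraic closure: a group `G`, identified with a set of points of
projective `N`-space, whose multiplication is given, on pieces, by tuples of bihomogeneous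
polynomials: at each pair of points at least one of the tuples does not vanish, and each of those
which do not vanish gives the coordinates of the product. -/
structure AlgGroup (K : Type) [Field K] (N : ℕ) where
  /-- The group. -/
  G : Type
  /-- Its group structure. -/
  grp : Group G
  /-- The embedding into projective space. -/
  pt : G → PP (AlgebraicClosure K) N
  inj : Function.Injective pt
  /-- The number of pieces. -/
  r : ℕ
  /-- The tuples of polynomials. -/
  law : Fin r → Fin (N + 1) → MvPolynomial (Fin (N + 1) ⊕ Fin (N + 1)) (AlgebraicClosure K)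
  bideg : ∀ α, ∃ d e : ℕ, ∀ i, BiDeg (law α i) d e
  mul : ∀ x y : G, (∃ α, vals₂ (law α) (pt x) (pt y) ≠ 0) ∧
    ∀ (α : Fin r) (h : vals₂ (law α) (pt x) (pt y) ≠ 0),
      pt (x * y) = Projectivization.mk _ (vals₂ (law α) (pt x) (pt y)) h

lemma BiDeg.eval_smul {R : Type} [Field R] {p : MvPolynomial (Fin (N + 1) ⊕ Fin (N + 1)) R}
    {d e : ℕ} (hp : BiDeg p d e) (a b : R) (v w : Fin (N + 1) → R) :
    eval (Sum.elim (a • v) (b • w)) p = a ^ d * b ^ e * eval (Sum.elim v w) p := by
  rw [eval_eq', eval_eq', Finset.mul_sum]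
  refine Finset.sum_congr rfl fun μ hμ => ?_
  obtain ⟨h1, h2⟩ := hp μ (mem_support_iff.1 hμ)
  rw [Fintype.prod_sum_type, Fintype.prod_sum_type]
  simp only [Sum.elim_inl, Sum.elim_inr, Pi.smul_apply, smul_eq_mul, mul_pow,
    Finset.prod_mul_distrib, Finset.prod_pow_eq_pow_sum]
  rw [h1, h2]
  ring

lemma BiDeg.isHomogeneous {R : Type} [CommSemiring R]
    {p : MvPolynomial (Fin (N + 1) ⊕ Fin (N + 1)) R}
    {d e : ℕ} (hp : BiDeg p d e) : p.IsHomogeneous (d + e) := by
  intro μ hμ
  obtain ⟨h1, h2⟩ := hp μ hμ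
  rw [Finsupp.weight_apply, Finsupp.sum_fintype _ _ (fun _ => by simp)]
  simp only [Pi.one_apply, smul_eq_mul, mul_one]
  rw [Fintype.sum_sum_type, h1, h2]

/-- Right translation by a point. -/
noncomputable def tr (F : Fin (N + 1) → MvPolynomial (Fin (N + 1) ⊕ Fin (N + 1))
    (AlgebraicClosure K)) (Q : PP (AlgebraicClosure K) N) :
    Fin (N + 1) → MvPolynomial (Fin (N + 1)) (AlgebraicClosure K) :=
  fun i => aeval (Sum.elim (fun j => (X j : MvPolynomial (Fin (N + 1)) (AlgebraicClosure K)))
    (fun j => C (Q.rep j))) (F i)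

lemma vals_tr (F : Fin (N + 1) → MvPolynomial (Fin (N + 1) ⊕ Fin (N + 1))
    (AlgebraicClosure K)) (P Q : PP (AlgebraicClosure K) N) :
    vals (tr F Q) P = vals₂ F P Q := by
  funext i
  simp only [vals, vals₂, tr]
  have h := MvPolynomial.comp_aeval_apply (f := Sum.elim
    (fun j => (X j : MvPolynomial (Fin (N + 1)) (AlgebraicClosure K)))
    (fun j => C (Q.rep j))) (aeval P.rep) (F i)
  rw [aeval_eq_eval] at h
  rw [h]
  have e : (fun j => eval P.rep (Sum.elim (fun j => (X j : MvPolynomial (Fin (N + 1))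
      (AlgebraicClosure K))) (fun j => C (Q.rep j)) j)) = Sum.elim P.rep Q.rep := by
    funext j
    rcases j with j | j <;> simp
  rw [e, aeval_eq_eval]

lemma sameDeg_tr {F : Fin (N + 1) → MvPolynomial (Fin (N + 1) ⊕ Fin (N + 1))
    (AlgebraicClosure K)} {d e : ℕ} (hF : ∀ i, BiDeg (F i) d e)
    (Q : PP (AlgebraicClosure K) N) : SameDeg (tr F Q) := by
  refine ⟨d, fun i => ?_⟩
  simp only [tr]
  rw [aeval_def, eval₂_eq']
  refine IsHomogeneous.sum _ _ _ fun μ hμ => ?_
  obtain ⟨h1, h2⟩ := hF i μ (mem_support_iff.1 hμ)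
  rw [Fintype.prod_sum_type]
  simp only [Sum.elim_inl, Sum.elim_inr]
  have t1 : (∏ j, (X j : MvPolynomial (Fin (N + 1)) (AlgebraicClosure K)) ^ μ (Sum.inl j)).IsHomogeneous
      d := by
    rw [← h1]
    exact IsHomogeneous.prod _ _ _ fun j _ => by
      have := (isHomogeneous_X (AlgebraicClosure K) j).pow (μ (Sum.inl j))
      rwa [one_mul] at this
  have t2 : (∏ j, (C (Q.rep j) : MvPolynomial (Fin (N + 1)) (AlgebraicClosure K)) ^
      μ (Sum.inr j)).IsHomogeneous 0 := by
    have := IsHomogeneous.prod Finset.univ (fun j => (C (Q.rep j) : MvPolynomial (Fin (N + 1))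
      (AlgebraicClosure K)) ^ μ (Sum.inr j)) (fun _ => 0) fun j _ => by
        have := (isHomogeneous_C (Fin (N + 1)) (Q.rep j)).pow (μ (Sum.inr j))
        rwa [zero_mul] at this
    simpa using this
  have t3 : (algebraMap (AlgebraicClosure K) (MvPolynomial (Fin (N + 1)) (AlgebraicClosure K))
      (coeff μ (F i))).IsHomogeneous 0 := isHomogeneous_C _ _
  have := t3.mul (t1.mul t2)
  simpa using this

/-- The images of algebraic groups are dense in `X`: each nonempty open subset `U` of `X` meets the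
image of an algebraic group with an element of infinite order, under a tuple of forms which maps the
group (where it is defined) to `X` with finite fibres of bounded size. -/
def DenseGroups (K : Type) [Field K] {n : ℕ} (X : Set (PP (AlgebraicClosure K) n)) : Prop :=
  ∀ U, IsOpenIn K X U → ∃ (N : ℕ) (A : AlgGroup K N)
    (φ : Fin (n + 1) → MvPolynomial (Fin (N + 1)) (AlgebraicClosure K)),
    (∃ y : A.G, ∀ k : ℕ, 0 < k → A.grp.npow k y ≠ A.grp.one) ∧ SameDeg φ ∧
    (∀ (g : A.G) (h : vals φ (A.pt g) ≠ 0), Projectivization.mk _ (vals φ (A.pt g)) h ∈ X) ∧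
    (∃ b : ℕ, ∀ (P : PP (AlgebraicClosure K) n) (S : Finset A.G),
      (∀ g ∈ S, ∃ h : vals φ (A.pt g) ≠ 0, Projectivization.mk _ (vals φ (A.pt g)) h = P) →
        S.card ≤ b) ∧
    ∃ (g : A.G) (h : vals φ (A.pt g) ≠ 0), Projectivization.mk _ (vals φ (A.pt g)) h ∈ U

section height

variable [NumberField K] (L : IntermediateField K (AlgebraicClosure K))
  (hL : FiniteDimensional K L)

lemma lht_eq_of_mk_eq {v w : Fin (N + 1) → L} (hv : lift L v ≠ 0) (hw : lift L w ≠ 0)
    (h : Projectivization.mk (AlgebraicClosure K) (lift L v) hv =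
      Projectivization.mk _ (lift L w) hw) : lht L hL v = lht L hL w := by
  haveI : NumberField L := NumberField.of_module_finite K L
  rw [Projectivization.mk_eq_mk_iff'] at h
  obtain ⟨a, ha⟩ := h
  obtain ⟨j, hj⟩ : ∃ j, w j ≠ 0 := by
    by_contra hcon
    push Not at hcon
    apply hw
    funext j
    simp [lift, hcon j]
  have hc : v = (v j / w j) • w := by
    have h1 := congrFun ha j
    simp only [lift, Pi.smul_apply, smul_eq_mul] at h1
    have hj' : ((w j : L) : AlgebraicClosure K) ≠ 0 := by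
      intro h0
      apply hj
      exact_mod_cast h0
    have h2 : a = ((v j / w j : L) : AlgebraicClosure K) := by
      have e : ((v j / w j : L) : AlgebraicClosure K) =
          (v j : AlgebraicClosure K) / (w j : AlgebraicClosure K) := by push_cast; rfl
      rw [e, ← h1]
      field_simp
    funext i
    have h3 := congrFun ha i
    simp only [lift, Pi.smul_apply, smul_eq_mul] at h3
    rw [h2] at h3
    have h4 : ((v j / w j * w i : L) : AlgebraicClosure K) = (v i : AlgebraicClosure K) := by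
      rw [← h3]
      push_cast
      rfl
    exact_mod_cast h4.symm
  have hne : v j / w j ≠ 0 := by
    intro h0
    rw [h0, zero_smul] at hc
    apply hv
    rw [hc]
    funext i
    simp [lift]
  show Real.log (mulHeight v) = Real.log (mulHeight w)
  rw [hc, mulHeight_smul_eq_mulHeight w hne]

lemma exists_normal {v : Fin (N + 1) → L} (hv : lift L v ≠ 0) :
    ∃ (v' : Fin (N + 1) → L) (i : Fin (N + 1)) (a : L), a ≠ 0 ∧ v' i = 1 ∧ v = a • v' ∧
      lht L hL v' = lht L hL v := by
  haveI : NumberField L := NumberField.of_module_finite K L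
  obtain ⟨j, hj⟩ : ∃ j, v j ≠ 0 := by
    by_contra hcon
    push Not at hcon
    apply hv
    funext j
    simp [lift, hcon j]
  refine ⟨(v j)⁻¹ • v, j, v j, hj, by simp [hj], by rw [smul_smul, mul_inv_cancel₀ hj, one_smul],
    ?_⟩
  show Real.log (mulHeight _) = Real.log (mulHeight _)
  rw [mulHeight_smul_eq_mulHeight v (inv_ne_zero hj)]

lemma sumElim_height_le {v w : Fin (N + 1) → L} {i j : Fin (N + 1)} (hi : v i = 1)
    (hj : w j = 1) : haveI : NumberField L := NumberField.of_module_finite K L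
    logHeight (Sum.elim v w) ≤ logHeight v + logHeight w := by
  haveI : NumberField L := NumberField.of_module_finite K L
  have hv : v ≠ 0 := by
    intro h
    rw [h] at hi
    simp at hi
  have hw : w ≠ 0 := by
    intro h
    rw [h] at hj
    simp at hj
  rw [← logHeight_fun_mul_eq hv hw]
  have h1 := logHeight_comp_le (Sum.elim (fun a : Fin (N + 1) => (a, j))
    (fun a : Fin (N + 1) => (i, a))) (fun a : Fin (N + 1) × Fin (N + 1) => v a.1 * w a.2)
  refine le_trans (le_of_eq ?_) h1
  congr 1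
  funext a
  rcases a with a | a
  · simp [hj]
  · simp [hi]

/-- Lifting and height of a product. -/
lemma mul_lift (A : AlgGroup K N)
    (law' : Fin A.r → Fin (N + 1) → MvPolynomial (Fin (N + 1) ⊕ Fin (N + 1)) L)
    (hlaw : ∀ α i, map (algebraMap L (AlgebraicClosure K)) (law' α i) = A.law α i) :
    ∃ B : ℝ, 1 ≤ B ∧ ∀ (x y : A.G) (v w : Fin (N + 1) → L) (hv : lift L v ≠ 0)
      (hw : lift L w ≠ 0), A.pt x = Projectivization.mk _ (lift L v) hv →
      A.pt y = Projectivization.mk _ (lift L w) hw →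
      ∃ (u : Fin (N + 1) → L) (hu : lift L u ≠ 0),
        A.pt (A.grp.mul x y) = Projectivization.mk _ (lift L u) hu ∧
        lht L hL u ≤ B * (lht L hL v + lht L hL w + 1) := by
  haveI : NumberField L := NumberField.of_module_finite K L
  choose d e hde using A.bideg
  have hde' : ∀ α i, BiDeg (law' α i) (d α) (e α) := by
    intro α i μ hμ
    apply hde α i μ
    rw [← hlaw α i, coeff_map]
    intro h0
    apply hμ
    exact (algebraMap L (AlgebraicClosure K)).injective (by rw [h0, map_zero])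
  choose c hc using fun α => logHeight_eval_le' (fun i => (hde' α i).isHomogeneous)
  have hs1 : ∀ α, |c α| ≤ ∑ α, |c α| := fun α =>
    Finset.single_le_sum (f := fun α => |c α|) (fun i _ => abs_nonneg _) (Finset.mem_univ α)
  have hs2 : ∀ α, ((d α + e α : ℕ) : ℝ) ≤ ∑ α, ((d α + e α : ℕ) : ℝ) := fun α =>
    Finset.single_le_sum (f := fun α => ((d α + e α : ℕ) : ℝ)) (fun i _ => Nat.cast_nonneg _)
      (Finset.mem_univ α)
  have hs3 : 0 ≤ ∑ α, |c α| := Finset.sum_nonneg fun α _ => abs_nonneg _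
  have hs4 : 0 ≤ ∑ α, ((d α + e α : ℕ) : ℝ) := Finset.sum_nonneg fun α _ => Nat.cast_nonneg _
  refine ⟨∑ α, |c α| + ∑ α, ((d α + e α : ℕ) : ℝ) + 1, by linarith, ?_⟩
  intro x y v w hv hw hx hy
  obtain ⟨v', i, a, ha, hvi, hva, hvl⟩ := exists_normal L hL hv
  obtain ⟨w', j, b, hb, hwj, hwb, hwl⟩ := exists_normal L hL hw
  obtain ⟨⟨α, hα⟩, h1⟩ := A.mul x y
  have h2 := h1 α hα
  obtain ⟨a₁, ha₁⟩ := Projectivization.exists_smul_eq_mk_rep (AlgebraicClosure K) _ hv
  obtain ⟨b₁, hb₁⟩ := Projectivization.exists_smul_eq_mk_rep (AlgebraicClosure K) _ hw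
  rw [← hx] at ha₁
  rw [← hy] at hb₁
  have hva' : (A.pt x).rep = ((a₁ : AlgebraicClosure K) * (a : AlgebraicClosure K)) •
      lift L v' := by
    rw [← ha₁, Units.smul_def, mul_smul]
    congr 1
    rw [hva]
    funext l
    simp [lift]
  have hwb' : (A.pt y).rep = ((b₁ : AlgebraicClosure K) * (b : AlgebraicClosure K)) •
      lift L w' := by
    rw [← hb₁, Units.smul_def, mul_smul]
    congr 1
    rw [hwb]
    funext l
    simp [lift]
  set u : Fin (N + 1) → L := fun l => eval (Sum.elim v' w') (law' α l) with hu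
  have hlu : ∀ l, ((u l : L) : AlgebraicClosure K) =
      eval (Sum.elim (lift L v') (lift L w')) (A.law α l) := by
    intro l
    rw [hu, ← hlaw α l, eval_map]
    have e1 := MvPolynomial.eval₂_comp_right (algebraMap L (AlgebraicClosure K)) (RingHom.id L)
      (Sum.elim v' w') (law' α l)
    rw [MvPolynomial.map_id] at e1
    have e2 : (algebraMap L (AlgebraicClosure K)) ∘ (Sum.elim v' w') =
        Sum.elim (lift L v') (lift L w') := by
      funext t
      rcases t with t | t <;> rfl
    rw [e2] at e1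
    exact e1
  have hval : vals₂ (A.law α) (A.pt x) (A.pt y) =
      (((a₁ : AlgebraicClosure K) * (a : AlgebraicClosure K)) ^ d α *
        ((b₁ : AlgebraicClosure K) * (b : AlgebraicClosure K)) ^ e α) • lift L u := by
    funext l
    simp only [vals₂, Pi.smul_apply, smul_eq_mul]
    rw [hva', hwb', (hde α l).eval_smul]
    congr 1
    exact (hlu l).symm
  have hune : lift L u ≠ 0 := by
    intro h0
    apply hα
    rw [hval, h0, smul_zero]
  refine ⟨u, hune, ?_, ?_⟩
  · have e3 : A.pt (A.grp.mul x y) = Projectivization.mk _ _ hα := h2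
    rw [e3, Projectivization.mk_eq_mk_iff']
    exact ⟨_, hval.symm⟩
  · have h3 := hc α (Sum.elim v' w')
    have h4 := sumElim_height_le L hL hvi hwj
    have h5 : lht L hL u = logHeight u := rfl
    have h6 : lht L hL v' = logHeight v' := rfl
    have h7 : lht L hL w' = logHeight w' := rfl
    rw [h5, ← hvl, ← hwl, h6, h7]
    have h8 : 0 ≤ logHeight v' := logHeight_nonneg v'
    have h9 : 0 ≤ logHeight w' := logHeight_nonneg w'
    have h10 := hs1 α
    have h11 := hs2 α
    have h12 := le_abs_self (c α)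
    have h13 : 0 ≤ logHeight (Sum.elim v' w') := logHeight_nonneg _
    have h14 : (0 : ℝ) ≤ ((d α + e α : ℕ) : ℝ) := Nat.cast_nonneg _
    have h15 : ((d α + e α : ℕ) : ℝ) * logHeight (Sum.elim v' w') ≤
        (∑ α, ((d α + e α : ℕ) : ℝ)) * (logHeight v' + logHeight w') := by gcongr
    have h16 : logHeight u ≤ c α + ((d α + e α : ℕ) : ℝ) * logHeight (Sum.elim v' w') := h3
    nlinarith

end height

end Pool.Agent.Helper16.A9
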