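import Mathlib
import Pool.Agent.Helper16.A9.Grp

set_option autoImplicit false

/-!
Orbits of translations in algebraic groups.
-/

namespace Pool.Agent.Helper16.A9

open Filter Topology Height MvPolynomial
open Pool.Agent.Helper3.A9

variable {K : Type} [Field K] {N m n : ℕ}

lemma AlgGroup.step (A : AlgGroup K N) (x y : A.G) :
    Step (fun α => tr (A.law α) (A.pt y)) (A.pt x) (A.pt (A.grp.mul x y)) := by
  obtain ⟨⟨α, hα⟩, h⟩ := A.mul x y
  refine ⟨⟨α, by rw [vals_tr]; exact hα⟩, fun β hβ => ?_⟩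
  have hβ' : vals₂ (A.law β) (A.pt x) (A.pt y) ≠ 0 := by
    rwa [vals_tr] at hβ
  have h1 := h β hβ'
  refine Eq.trans h1 ?_
  congr 1
  exact (vals_tr _ _ _).symm

lemma exists_mk_of_rep (L : IntermediateField K (AlgebraicClosure K))
    (P : PP (AlgebraicClosure K) N) (h : ∀ i, P.rep i ∈ L) :
    ∃ (v : Fin (N + 1) → L) (hv : lift L v ≠ 0), P = Projectivization.mk _ (lift L v) hv :=
  ⟨fun i => ⟨P.rep i, h i⟩, P.rep_nonzero, P.mk_rep.symm⟩

/-- Heights of the points `x * y ^ k` grow polynomially. -/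
lemma AlgGroup.polyHeight [NumberField K] (A : AlgGroup K N) (x y : A.G) :
    PolyHeight (K := K) (fun k : ℕ => A.pt (A.grp.mul x (A.grp.npow k y))) := by
  letI := A.grp
  obtain ⟨L₁, hL₁, hsub⟩ := exists_field
    (((Set.range (A.pt x).rep ∪ Set.range (A.pt y).rep) ∪ Set.range (A.pt (1 : A.G)).rep) ∪
      (⋃ α, ⋃ i, (((A.law α i).coeffs : Finset _) : Set (AlgebraicClosure K))))
    ((((Set.finite_range _).union (Set.finite_range _)).union (Set.finite_range _)).union
      (Set.finite_iUnion fun α => Set.finite_iUnion fun i => Finset.finite_toSet _))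
  refine ⟨L₁, hL₁, fun L hLL hL => ?_⟩
  have hlawL : ∀ α i, (((A.law α i).coeffs : Finset _) : Set _) ⊆ (L : Set (AlgebraicClosure K)) :=
    fun α i c hc => hLL (hsub (Or.inr (Set.mem_iUnion.2 ⟨α, Set.mem_iUnion.2 ⟨i, hc⟩⟩)))
  choose law' hlaw using fun α i => exists_lift_mv L (A.law α i) (hlawL α i)
  obtain ⟨B, hB, hmul⟩ := mul_lift L hL A law' hlaw
  obtain ⟨vx, hvx, hvx'⟩ := exists_mk_of_rep L (A.pt x)
    (fun i => hLL (hsub (Or.inl (Or.inl (Or.inl ⟨i, rfl⟩)))))
  obtain ⟨vy, hvy, hvy'⟩ := exists_mk_of_rep L (A.pt y)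
    (fun i => hLL (hsub (Or.inl (Or.inl (Or.inr ⟨i, rfl⟩)))))
  obtain ⟨v1, hv1, hv1'⟩ := exists_mk_of_rep L (A.pt (1 : A.G))
    (fun i => hLL (hsub (Or.inl (Or.inr ⟨i, rfl⟩))))
  have hex : ∀ k : ℕ, ∃ (v : Fin (N + 1) → L) (hv : lift L v ≠ 0),
      A.pt (y ^ k) = Projectivization.mk _ (lift L v) hv := by
    intro k
    induction k with
    | zero => exact ⟨v1, hv1, by rw [pow_zero]; exact hv1'⟩
    | succ k ih =>
      obtain ⟨v, hv, hv'⟩ := ih
      obtain ⟨u, hu, hu', -⟩ := hmul (y ^ k) y v vy hv hvy hv' hvy'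
      exact ⟨u, hu, by rw [pow_succ]; exact hu'⟩
  choose v hv hv' using hex
  obtain ⟨C, D, hCD⟩ := growth_seq (a := fun k => lht L hL (v k))
    (fun k => lht_nonneg L hL (v k)) hB (by
      intro i j
      obtain ⟨u, hu, hu', hle⟩ := hmul (y ^ i) (y ^ j) (v i) (v j) (hv i) (hv j) (hv' i) (hv' j)
      have h1 : A.pt (y ^ (i + j)) = Projectivization.mk _ (lift L u) hu := by
        rw [pow_add]; exact hu'
      rw [hv' (i + j)] at h1
      have h2 := lht_eq_of_mk_eq L hL (hv (i + j)) hu h1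
      show lht L hL (v (i + j)) ≤ _
      rw [h2]
      exact hle)
  have hx0 := lht_nonneg L hL vx
  refine ⟨B * (lht L hL vx + C + 1), D, fun k w hw hwk => ?_⟩
  obtain ⟨u, hu, hu', hle⟩ := hmul x (y ^ k) vx (v k) hvx (hv k) hvx' (hv' k)
  have h1 : Projectivization.mk (AlgebraicClosure K) (lift L w) hw =
      Projectivization.mk _ (lift L u) hu := by
    rw [← hwk, ← hu']
    rfl
  have h2 := lht_eq_of_mk_eq L hL hw hu h1
  have h3 : Real.log (height L hL w) = lht L hL u := h2
  rw [h3]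
  refine hle.trans ?_
  have h4 : lht L hL (v k) ≤ C * ((k : ℝ) + 1) ^ D := hCD k
  have hk1 : (1 : ℝ) ≤ ((k : ℝ) + 1) ^ D := one_le_pow₀ (by
    have : (0 : ℝ) ≤ k := Nat.cast_nonneg k
    linarith)
  have hC0 : (0 : ℝ) ≤ C := Nat.cast_nonneg C
  have h5 : lht L hL vx + lht L hL (v k) + 1 ≤ (lht L hL vx + C + 1) * ((k : ℝ) + 1) ^ D := by
    nlinarith
  calc B * (lht L hL vx + lht L hL (v k) + 1) ≤
        B * ((lht L hL vx + C + 1) * ((k : ℝ) + 1) ^ D) := by gcongr
    _ = _ := by ring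

/-- The image of an algebraic group which meets `U` gives an orbit of polynomial height growth
which visits `U`. -/
theorem slow_of_algGroup [NumberField K] {X U : Set (PP (AlgebraicClosure K) n)}
    (hU : IsOpenIn K X U) {A : AlgGroup K N}
    {φ : Fin (n + 1) → MvPolynomial (Fin (N + 1)) (AlgebraicClosure K)}
    (hy : ∃ y : A.G, ∀ k : ℕ, 0 < k → A.grp.npow k y ≠ A.grp.one) (hφ : SameDeg φ)
    (hX : ∀ (g : A.G) (h : vals φ (A.pt g) ≠ 0), Projectivization.mk _ (vals φ (A.pt g)) h ∈ X)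
    (hb : ∃ b : ℕ, ∀ (P : PP (AlgebraicClosure K) n) (S : Finset A.G),
      (∀ g ∈ S, ∃ h : vals φ (A.pt g) ≠ 0, Projectivization.mk _ (vals φ (A.pt g)) h = P) →
        S.card ≤ b)
    (hx : ∃ (g : A.G) (h : vals φ (A.pt g) ≠ 0), Projectivization.mk _ (vals φ (A.pt g)) h ∈ U) :
    ∃ (N r : ℕ)
      (F : Fin r → Fin (N + 1) → MvPolynomial (Fin (N + 1)) (AlgebraicClosure K))
      (s : ℕ → PP (AlgebraicClosure K) N)
      (φ : Fin (n + 1) → MvPolynomial (Fin (N + 1)) (AlgebraicClosure K)),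
      (∀ α, SameDeg (F α)) ∧ (∀ k, Step F (s k) (s (k + 1))) ∧ PolyHeight s ∧ SameDeg φ ∧
        Hits s φ X U := by
  obtain ⟨y, hy⟩ := hy
  obtain ⟨b, hb⟩ := hb
  obtain ⟨x, hx, hxU⟩ := hx
  letI := A.grp
  let s : ℤ → PP (AlgebraicClosure K) N := fun k => A.pt (x * y ^ k)
  have hF : ∀ (z : A.G) α, SameDeg (tr (A.law α) (A.pt z)) := by
    intro z α
    obtain ⟨d, e, hde⟩ := A.bideg α
    exact sameDeg_tr hde _
  have hstep : ∀ k, Step (fun α => tr (A.law α) (A.pt y)) (s k) (s (k + 1)) := by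
    intro k
    have h1 := A.step (x * y ^ k) y
    have e : s (k + 1) = A.pt (A.grp.mul (x * y ^ k) y) := by
      show A.pt (x * y ^ (k + 1)) = A.pt ((x * y ^ k) * y)
      rw [zpow_add_one, mul_assoc]
    rw [e]
    exact h1
  have hstep' : ∀ k, Step (fun α => tr (A.law α) (A.pt y⁻¹)) (s k) (s (k - 1)) := by
    intro k
    have h1 := A.step (x * y ^ k) y⁻¹
    have e : s (k - 1) = A.pt (A.grp.mul (x * y ^ k) y⁻¹) := by
      show A.pt (x * y ^ (k - 1)) = A.pt ((x * y ^ k) * y⁻¹)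
      rw [zpow_sub_one, mul_assoc]
    rw [e]
    exact h1
  have hret := returns (hF y) (hF y⁻¹) hstep hstep'
    (seqClosed_visits s hφ hU (fun k h => hX _ h)) (by
      intro h1
      have e : s 0 = A.pt x := by
        show A.pt (x * y ^ (0 : ℤ)) = A.pt x
        rw [zpow_zero, mul_one]
      have h2 : vals φ (s 0) ≠ 0 := by rw [e]; exact hx
      apply h1 h2
      have h3 : Projectivization.mk (AlgebraicClosure K) (vals φ (s 0)) h2 =
          Projectivization.mk _ (vals φ (A.pt x)) hx := by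
        congr 1
        rw [e]
      rw [h3]
      exact hxU)
  refine ⟨N, A.r, fun α => tr (A.law α) (A.pt y), fun k : ℕ => A.pt (x * y ^ k), φ, hF y, ?_,
    A.polyHeight x y, hφ, ?_, ?_, ?_⟩
  · intro k
    have h1 := hstep k
    have e1 : s (k : ℤ) = A.pt (x * y ^ k) := by
      show A.pt (x * y ^ (k : ℤ)) = _
      rw [zpow_natCast]
    have e2 : s ((k : ℤ) + 1) = A.pt (x * y ^ (k + 1)) := by
      show A.pt (x * y ^ ((k : ℤ) + 1)) = _
      rw [show (k : ℤ) + 1 = ((k + 1 : ℕ) : ℤ) by push_cast; rfl, zpow_natCast]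
    rw [e1, e2] at h1
    exact h1
  · intro k h1
    exact hX _ h1
  · intro l
    obtain ⟨k, hk, hk'⟩ := hret l
    refine ⟨k, hk, ?_⟩
    simp only [Set.mem_setOf_eq, not_forall, not_not, s, zpow_natCast] at hk'
    exact hk'
  · refine ⟨b, fun P S hS => ?_⟩
    have hinj : Function.Injective (fun k : ℕ => x * y ^ k) := by
      intro i j hij
      have h1 : y ^ i = y ^ j := mul_left_cancel hij
      by_contra hne
      rcases Nat.lt_or_gt_of_ne hne with hlt | hlt
      · apply hy (j - i) (by omega)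
        show y ^ (j - i) = 1
        have h2 : y ^ i * y ^ (j - i) = y ^ i * 1 := by
          rw [← pow_add, mul_one, h1]
          congr 1
          omega
        exact mul_left_cancel h2
      · apply hy (i - j) (by omega)
        show y ^ (i - j) = 1
        have h2 : y ^ j * y ^ (i - j) = y ^ j * 1 := by
          rw [← pow_add, mul_one, ← h1]
          congr 1
          omega
        exact mul_left_cancel h2
    classical
    have h1 := hb P (S.image (fun k : ℕ => x * y ^ k)) (by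
      intro g hg
      simp only [Finset.mem_image] at hg
      obtain ⟨k, hk, rfl⟩ := hg
      exact hS k hk)
    rwa [Finset.card_image_of_injective _ hinj] at h1

/-- Dense images of algebraic groups give dense orbits of polynomial height growth. -/
theorem DenseGroups.denseSlowOrbits [NumberField K] {X : Set (PP (AlgebraicClosure K) n)}
    (h : DenseGroups K X) : DenseSlowOrbits K X := by
  intro U hU
  obtain ⟨N, A, φ, hy, hφ, hX, hb, hx⟩ := h U hU
  exact slow_of_algGroup hU hy hφ hX hb hx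

end Pool.Agent.Helper16.A9
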