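import Mathlib
import Pool.Agent.Helper16.A9.GrpOrb

set_option autoImplicit false

/-!
Orbits of finitely generated groups of self-maps, and their growth.
-/

namespace Pool.Agent.Helper16.A9

open Filter Topology Height MvPolynomial
open Pool.Agent.Helper3.A9

variable {K : Type} [Field K] {N m n : ℕ}

/-- The effect of a word in the maps `σ 0, …, σ (q - 1)`. -/
def act {ι : Type} {q : ℕ} (σ : Fin q → ι → ι) (w : List (Fin q)) (i : ι) : ι :=
  w.foldr (fun j y => σ j y) i

/-- The elements reached from `i` by at most `k` applications of the maps `σ j`. -/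
def ball {ι : Type} {q : ℕ} (σ : Fin q → ι → ι) (i : ι) (k : ℕ) : Set ι :=
  {x | ∃ w : List (Fin q), w.length ≤ k ∧ x = act σ w i}

/-- A family of distinct points of `X` over the algebraic closure, with finitely many bijective maps
of the family to itself, closed under inversion, each of which is given on pieces by forms. -/
structure OrbitSys {n : ℕ} (X : Set (PP (AlgebraicClosure K) n)) where
  /-- The indices of the points. -/
  ι : Type
  /-- The points. -/
  s : ι → PP (AlgebraicClosure K) n
  inj : Function.Injective s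
  mem : ∀ i, s i ∈ X
  /-- The number of maps. -/
  q : ℕ
  /-- The number of pieces. -/
  r : ℕ
  /-- The maps. -/
  σ : Fin q → ι → ι
  /-- Their formulas. -/
  F : Fin q → Fin r → Fin (n + 1) → MvPolynomial (Fin (n + 1)) (AlgebraicClosure K)
  deg : ∀ j α, SameDeg (F j α)
  step : ∀ j i, Step (F j) (s i) (s (σ j i))
  inv : ∀ j, ∃ j', ∀ i, σ j' (σ j i) = i

section words

variable {ι : Type} {q : ℕ} {σ : Fin q → ι → ι}

lemma act_nil (i : ι) : act σ [] i = i := rfl

lemma act_cons (j : Fin q) (w : List (Fin q)) (i : ι) : act σ (j :: w) i = σ j (act σ w i) := rfl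

lemma act_append (w w' : List (Fin q)) (i : ι) : act σ (w ++ w') i = act σ w (act σ w' i) := by
  unfold act
  rw [List.foldr_append]

lemma exists_inv_word (hinv : ∀ j, ∃ j', ∀ i, σ j' (σ j i) = i) (w : List (Fin q)) :
    ∃ w', ∀ i, act σ w' (act σ w i) = i := by
  induction w with
  | nil => exact ⟨[], fun i => rfl⟩
  | cons j w ih =>
    obtain ⟨w', hw'⟩ := ih
    obtain ⟨j', hj'⟩ := hinv j
    refine ⟨w' ++ [j'], fun i => ?_⟩
    rw [act_append, act_cons, act_cons, act_nil, hj', hw']

lemma act_injective (hinv : ∀ j, ∃ j', ∀ i, σ j' (σ j i) = i) (w : List (Fin q)) :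
    Function.Injective (act σ w) := by
  obtain ⟨w', hw'⟩ := exists_inv_word hinv w
  exact Function.LeftInverse.injective hw'

lemma words_finite (q k : ℕ) : {w : List (Fin q) | w.length ≤ k}.Finite := by
  have : {w : List (Fin q) | w.length ≤ k} = ⋃ l ∈ Finset.range (k + 1),
      {w : List (Fin q) | w.length = l} := by
    ext w
    simp [Nat.lt_succ_iff]
  rw [this]
  refine Set.Finite.biUnion (Finset.finite_toSet _) fun l _ => ?_
  exact List.finite_length_eq (Fin q) l

lemma ball_finite (i : ι) (k : ℕ) : (ball σ i k).Finite := by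
  have : ball σ i k = (fun w => act σ w i) '' {w : List (Fin q) | w.length ≤ k} := by
    ext x
    constructor
    · rintro ⟨w, hw, rfl⟩
      exact ⟨w, hw, rfl⟩
    · rintro ⟨w, hw, rfl⟩
      exact ⟨w, hw, rfl⟩
  rw [this]
  exact (words_finite q k).image _

lemma ball_mono (i : ι) {k l : ℕ} (h : k ≤ l) : ball σ i k ⊆ ball σ i l := by
  rintro x ⟨w, hw, rfl⟩
  exact ⟨w, hw.trans h, rfl⟩

/-- If the orbit is infinite, the balls have at least `k + 1` elements. -/
lemma ball_card_ge (i : ι) (hinf : (⋃ k, ball σ i k).Infinite) (k : ℕ) :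
    k + 1 ≤ (ball σ i k).ncard := by
  induction k with
  | zero =>
    have : i ∈ ball σ i 0 := ⟨[], le_rfl, rfl⟩
    have h1 : 0 < (ball σ i 0).ncard := (Set.ncard_pos (ball_finite i 0)).2 ⟨i, this⟩
    omega
  | succ k ih =>
    have hne : ball σ i k ≠ ball σ i (k + 1) := by
      intro heq
      apply hinf
      have hst : ∀ x ∈ ball σ i k, ∀ j, σ j x ∈ ball σ i k := by
        rintro x ⟨w, hw, rfl⟩ j
        rw [heq]
        exact ⟨j :: w, by simpa using hw, rfl⟩
      have hall : ∀ w : List (Fin q), act σ w i ∈ ball σ i k := by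
        intro w
        induction w with
        | nil => exact ⟨[], Nat.zero_le _, rfl⟩
        | cons j w ih' => exact hst _ ih' j
      refine (ball_finite (σ := σ) i k).subset ?_
      rintro x hx
      obtain ⟨l, w, hw, rfl⟩ := Set.mem_iUnion.1 hx
      exact hall w
    have hss : ball σ i k ⊂ ball σ i (k + 1) :=
      lt_of_le_of_ne (ball_mono i (Nat.le_succ k)) hne
    have := Set.ncard_lt_ncard hss (ball_finite i (k + 1))
    omega

/-- The complement of a closed set of indices is reached from everywhere in an orbit by words of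
bounded length. -/
lemma bounded_return {s : ι → PP (AlgebraicClosure K) N} {r : ℕ}
    {F : Fin q → Fin r → Fin (N + 1) → MvPolynomial (Fin (N + 1)) (AlgebraicClosure K)}
    (hF : ∀ j α, SameDeg (F j α)) (hs : ∀ j i, Step (F j) (s i) (s (σ j i)))
    (hinv : ∀ j, ∃ j', ∀ i, σ j' (σ j i) = i) {A : Set ι} (hA : SeqClosed s A) {i : ι}
    (hi : i ∉ A) : ∃ g : ℕ, ∀ w : List (Fin q), ∃ u : List (Fin q), u.length ≤ g ∧
      act σ u (act σ w i) ∉ A := by
  have hsh : ∀ w : List (Fin q), SeqClosed s {x | act σ w x ∈ A} := by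
    intro w
    induction w using List.reverseRecOn with
    | nil => exact hA
    | append_singleton w j ih =>
      have h := SeqClosed.preimage (σ := σ j) (hF j) (hs j) ih
      have e : (σ j ⁻¹' {x | act σ w x ∈ A} : Set ι) = {x | act σ (w ++ [j]) x ∈ A} := by
        ext x
        simp only [Set.mem_preimage, Set.mem_setOf_eq]
        rw [act_append, act_cons, act_nil]
      rwa [e] at h
  let B : ℕ → Set ι := fun g => {x | ∀ w : List (Fin q), w.length ≤ g → act σ w x ∈ A}
  have hB : ∀ g, SeqClosed s (B g) := by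
    intro g
    have h := SeqClosed.iInter (s := s) (J := {w : List (Fin q) // w.length ≤ g})
      (A := fun w => {x | act σ w.1 x ∈ A}) (fun w => hsh w.1)
    have e : (⋂ w : {w : List (Fin q) // w.length ≤ g}, {x | act σ w.1 x ∈ A} : Set ι) = B g := by
      ext x
      simp only [Set.mem_iInter, Set.mem_setOf_eq, B, Subtype.forall]
    rwa [e] at h
  obtain ⟨g, hg⟩ := seq_dcc hB (fun a b hab x hx w hw => hx w (hw.trans hab))
  refine ⟨g, fun w => ?_⟩
  by_contra hcon
  push Not at hcon
  obtain ⟨w', hw'⟩ := exists_inv_word hinv w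
  have h1 : act σ w i ∈ B (max g w'.length) := by
    rw [hg _ (le_max_left _ _)]
    exact hcon
  have h2 := h1 w' (le_max_right _ _)
  rw [hw' i] at h2
  exact hi h2

end words

/-- Growth of the orbit and growth of the counting function. -/
theorem orbit_growth [NumberField K] {X : Set (PP (AlgebraicClosure K) n)}
    {H : PP (AlgebraicClosure K) n → ℝ} (hH : Comparable X H)
    {U : Set (PP (AlgebraicClosure K) n)} (hU : IsOpenIn K X U) (O : OrbitSys X) (i : O.ι)
    (hi : O.s i ∈ U) :
    ∃ L₀ : IntermediateField K (AlgebraicClosure K), FiniteDimensional K L₀ ∧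
      ∀ L : IntermediateField K (AlgebraicClosure K), L₀ ≤ L → FiniteDimensional K L →
        ∃ (E : ℝ) (Z : ℕ), 0 < E ∧ 0 < Z ∧ ∀ (T : ℝ) (k : ℕ),
          Real.exp (Real.exp (E * ((k : ℝ) + 1))) ≤ T →
            (ball O.σ i k).ncard ≤ Z * count U H L T := by
  classical
  have hUX : U ⊆ X := by
    obtain ⟨-, Z, -, rfl⟩ := hU
    exact Set.sdiff_subset
  have hφ : SameDeg (fun i => (MvPolynomial.X i : MvPolynomial (Fin (n + 1))
      (AlgebraicClosure K))) := ⟨1, fun i => isHomogeneous_X _ i⟩
  have hmk : ∀ (P : PP (AlgebraicClosure K) n) (h : vals (fun i => (MvPolynomial.X i :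
      MvPolynomial (Fin (n + 1)) (AlgebraicClosure K))) P ≠ 0),
      Projectivization.mk _ (vals (fun i => (MvPolynomial.X i :
      MvPolynomial (Fin (n + 1)) (AlgebraicClosure K))) P) h = P := by
    intro P h
    have : Projectivization.mk _ P.rep P.rep_nonzero = P := P.mk_rep
    conv_rhs => rw [← this]
    congr 1
    exact vals_X P
  have hclosed : SeqClosed O.s {x | O.s x ∉ U} := by
    have h1 := seqClosed_visits O.s hφ hU (fun k h => by rw [hmk]; exact O.mem k)
    have e : {k | ∀ h : vals (fun i => (MvPolynomial.X i :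
      MvPolynomial (Fin (n + 1)) (AlgebraicClosure K))) (O.s k) ≠ 0,
        Projectivization.mk _ (vals (fun i => (MvPolynomial.X i :
      MvPolynomial (Fin (n + 1)) (AlgebraicClosure K))) (O.s k)) h ∉ U} = {x | O.s x ∉ U} := by
      ext x
      simp only [Set.mem_setOf_eq]
      constructor
      · intro h
        have h3 : vals (fun i => (MvPolynomial.X i : MvPolynomial (Fin (n + 1))
          (AlgebraicClosure K))) (O.s x) ≠ 0 := by
          rw [vals_X]
          exact (O.s x).rep_nonzero
        have h4 := h h3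
        rwa [hmk] at h4
      · intro h h3
        rwa [hmk]
    rwa [e] at h1
  obtain ⟨g, hg⟩ := bounded_return O.deg O.step O.inv hclosed (i := i) (by simpa using hi)
  obtain ⟨L₀, hL₀, hsub⟩ := exists_field
    (Set.range (O.s i).rep ∪
      (⋃ j, ⋃ α, ⋃ l, (((O.F j α l).coeffs : Finset _) : Set (AlgebraicClosure K))))
    ((Set.finite_range _).union (Set.finite_iUnion fun j => Set.finite_iUnion fun α =>
      Set.finite_iUnion fun l => Finset.finite_toSet _))
  refine ⟨L₀, hL₀, fun L hLL hL => ?_⟩
  haveI : NumberField L := NumberField.of_module_finite K L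
  have hFL : ∀ j α l, (((O.F j α l).coeffs : Finset _) : Set _) ⊆
      (L : Set (AlgebraicClosure K)) :=
    fun j α l c hc => hLL (hsub (Or.inr
      (Set.mem_iUnion.2 ⟨j, Set.mem_iUnion.2 ⟨α, Set.mem_iUnion.2 ⟨l, hc⟩⟩⟩)))
  choose F' hF' using fun j α l => exists_lift_mv L (O.F j α l) (hFL j α l)
  have hFeq : ∀ j, O.F j = fun α l => map (algebraMap L (AlgebraicClosure K)) (F' j α l) := by
    intro j
    funext α l
    exact (hF' j α l).symm
  have hF'd : ∀ j α, SameDeg (F' j α) := by
    intro j α
    apply sameDeg_of_map (F := AlgebraicClosure K)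
    have := O.deg j α
    rw [hFeq] at this
    exact this
  choose D C hD hC hstep using fun j => step_lift L hL (hF'd j)
  set D₀ : ℝ := ∑ j, D j + 1 with hD₀
  set C₀ : ℝ := ∑ j, C j with hC₀
  have hDj : ∀ j, D j ≤ D₀ := fun j => by
    have := Finset.single_le_sum (f := D) (fun j _ => (zero_le_one.trans (hD j))) (Finset.mem_univ j)
    linarith
  have hCj : ∀ j, C j ≤ C₀ := fun j =>
    Finset.single_le_sum (f := C) (fun j _ => hC j) (Finset.mem_univ j)
  have hD1 : 1 ≤ D₀ := by
    have : 0 ≤ ∑ j, D j := Finset.sum_nonneg fun j _ => zero_le_one.trans (hD j)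
    linarith
  have hC00 : 0 ≤ C₀ := Finset.sum_nonneg fun j _ => hC j
  obtain ⟨v0, hv0, hv0'⟩ := exists_mk_of_rep L (O.s i) (fun l => hLL (hsub (Or.inl ⟨l, rfl⟩)))
  have h00 := lht_nonneg L hL v0
  have hlift : ∀ w : List (Fin O.q), ∃ (v : Fin (n + 1) → L) (hv : lift L v ≠ 0),
      O.s (act O.σ w i) = Projectivization.mk _ (lift L v) hv ∧
      lht L hL v + C₀ ≤ (D₀ + 1) ^ w.length * (lht L hL v0 + C₀) := by
    intro w
    induction w with
    | nil => exact ⟨v0, hv0, hv0', by simp⟩
    | cons j w ih =>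
      obtain ⟨v, hv, hv', hle⟩ := ih
      have h1 := O.step j (act O.σ w i)
      rw [hv', hFeq j] at h1
      obtain ⟨u, hu, hu', hle'⟩ := hstep j v hv _ h1
      refine ⟨u, hu, hu', ?_⟩
      have h2 := lht_nonneg L hL v
      have h3 := hDj j
      have h4 := hCj j
      have h5 := hD j
      have h6 : D j * lht L hL v ≤ D₀ * lht L hL v := by gcongr
      calc lht L hL u + C₀ ≤ (D₀ + 1) * (lht L hL v + C₀) := by nlinarith
        _ ≤ (D₀ + 1) * ((D₀ + 1) ^ w.length * (lht L hL v0 + C₀)) := by gcongr
        _ = _ := by rw [List.length_cons]; ring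
  obtain ⟨C₂, α, β, hC₂, hα, hβ, hcmp⟩ := hH L hL
  -- the height bound
  set B : ℝ := β * (lht L hL v0 + C₀) + |Real.log C₂| + 1 with hB
  have hB0 : 0 < B := by positivity
  have hHle : ∀ w : List (Fin O.q), H (O.s (act O.σ w i)) ≤
      Real.exp (B * (D₀ + 1) ^ w.length) := by
    intro w
    obtain ⟨v, hv, hv', hle⟩ := hlift w
    have hX : Projectivization.mk _ (lift L v) hv ∈ X := by rw [← hv']; exact O.mem _
    rw [hv']
    refine (hcmp v hv hX).2.trans ?_
    have hpos : 0 < height L hL v := Height.mulHeight_pos _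
    have h3 : height L hL v ^ β = Real.exp (β * lht L hL v) := by
      unfold lht
      rw [Real.rpow_def_of_pos hpos, mul_comm]
    rw [h3, ← Real.exp_log hC₂, ← Real.exp_add]
    apply Real.exp_le_exp.2
    have h4 : (1 : ℝ) ≤ (D₀ + 1) ^ w.length := one_le_pow₀ (by linarith)
    have h5 := le_abs_self (Real.log C₂)
    have h6 := abs_nonneg (Real.log C₂)
    have h7 : β * lht L hL v ≤ β * ((D₀ + 1) ^ w.length * (lht L hL v0 + C₀)) := by
      gcongr
      linarith
    rw [hB]
    nlinarith
  set W := (words_finite O.q g).toFinset with hW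
  have hWpos : 0 < W.card := by
    apply Finset.card_pos.2
    exact ⟨[], by simp [hW]⟩
  have hlD : 0 < Real.log (D₀ + 1) := Real.log_pos (by linarith)
  refine ⟨|Real.log B| + Real.log (D₀ + 1) * (g + 1) + 1, W.card, by positivity, hWpos,
    fun T k hT => ?_⟩
  -- the map from the ball to the points of `U`
  have hch : ∀ x : O.ι, ∃ u : List (Fin O.q), u.length ≤ g ∧
      (x ∈ ball O.σ i k → O.s (act O.σ u x) ∈ U) := by
    intro x
    by_cases hx : x ∈ ball O.σ i k
    · obtain ⟨w, hw, rfl⟩ := hx
      obtain ⟨u, hu, hu'⟩ := hg w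
      exact ⟨u, hu, fun _ => by simpa using hu'⟩
    · exact ⟨[], Nat.zero_le _, fun h => absurd h hx⟩
  choose u hu hu' using hch
  set Bk := (ball_finite (σ := O.σ) i k).toFinset with hBk
  have hcard : (ball O.σ i k).ncard = Bk.card := Set.ncard_eq_toFinset_card _ _
  have h1 : Bk.card ≤ W.card * (Bk.image (fun x => O.s (act O.σ (u x) x))).card := by
    refine Finset.card_le_mul_card_image _ _ fun P _ => ?_
    refine Finset.card_le_card_of_injOn u ?_ ?_
    · intro x hx
      simp only [hW, Set.Finite.coe_toFinset, Set.mem_setOf_eq]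
      exact hu x
    · intro x hx y hy hxy
      simp only [Finset.coe_filter, Set.mem_setOf_eq] at hx hy
      have h2 : O.s (act O.σ (u x) x) = O.s (act O.σ (u y) y) := by rw [hx.2, hy.2]
      have h3 := O.inj h2
      rw [hxy] at h3
      exact act_injective O.inv _ h3
  rw [hcard]
  refine h1.trans (Nat.mul_le_mul_left _ ?_)
  unfold count
  rw [← Set.ncard_coe_finset]
  refine Set.ncard_le_ncard ?_ (((upper (cardLe n) hH L hL).1 T).subset (by
    rintro P ⟨h1, h2, h3⟩
    exact ⟨hUX h1, h2, h3⟩))
  intro P hP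
  simp only [Finset.coe_image, Set.mem_image, Finset.mem_coe, hBk, Set.Finite.mem_toFinset] at hP
  obtain ⟨x, hx, rfl⟩ := hP
  have hxU := hu' x hx
  obtain ⟨w, hw, rfl⟩ := hx
  have happ : act O.σ (u (act O.σ w i)) (act O.σ w i) = act O.σ (u (act O.σ w i) ++ w) i :=
    (act_append _ _ _).symm
  obtain ⟨v, hv, hv', -⟩ := hlift (u (act O.σ w i) ++ w)
  refine ⟨hxU, ⟨v, hv, by rw [happ]; exact hv'⟩, ?_⟩
  rw [happ]
  refine (hHle _).trans (le_trans (Real.exp_le_exp.2 ?_) hT)
  have hlen : (u (act O.σ w i) ++ w).length ≤ g + k := by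
    rw [List.length_append]
    have := hu (act O.σ w i)
    omega
  have h4 : (D₀ + 1) ^ (u (act O.σ w i) ++ w).length ≤ (D₀ + 1) ^ (g + k) :=
    pow_le_pow_right₀ (by linarith) hlen
  have h5 : B * (D₀ + 1) ^ (g + k) = Real.exp (Real.log B + ((g + k : ℕ) : ℝ) *
      Real.log (D₀ + 1)) := by
    rw [Real.exp_add, Real.exp_log hB0, mul_comm ((g + k : ℕ) : ℝ), Real.exp_mul, Real.exp_log
      (by linarith), Real.rpow_natCast]
  calc B * (D₀ + 1) ^ (u (act O.σ w i) ++ w).length ≤ B * (D₀ + 1) ^ (g + k) := by gcongr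
    _ = Real.exp (Real.log B + ((g + k : ℕ) : ℝ) * Real.log (D₀ + 1)) := h5
    _ ≤ _ := by
      apply Real.exp_le_exp.2
      have h6 := le_abs_self (Real.log B)
      have h7 := abs_nonneg (Real.log B)
      have h8 : (0 : ℝ) ≤ k := Nat.cast_nonneg k
      have h9 : (0 : ℝ) ≤ g := Nat.cast_nonneg g
      push_cast
      have h10 : 0 ≤ |Real.log B| * k := by positivity
      have h11 : 0 ≤ Real.log (D₀ + 1) * g * k := by positivity
      have h12 : 0 ≤ Real.log (D₀ + 1) * k := by positivity
      nlinarith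

end Pool.Agent.Helper16.A9
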