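import Mathlib
import Pool.Agent.Helper16.A9.Exp

set_option autoImplicit false

/-!
Polylogarithmic and iterated logarithmic lower bounds: final forms.
-/

namespace Pool.Agent.Helper16.A9

open Filter Topology MvPolynomial
open Pool.Agent.Helper3.A9

variable {K : Type} [Field K] {N m n : ℕ}

/-- A group `G` of points of projective `N`-space (over the algebraic closure) whose multiplication
is given, on pieces, by tuples of bihomogeneous polynomials: at each pair of points at least one of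
the tuples does not vanish, and each of those which do not vanish gives the product. -/
def IsAlgGroup {G : Type} [Group G] (pt : G → PP (AlgebraicClosure K) N) : Prop :=
  Function.Injective pt ∧ ∃ (r : ℕ)
    (law : Fin r → Fin (N + 1) → MvPolynomial (Fin (N + 1) ⊕ Fin (N + 1)) (AlgebraicClosure K)),
    (∀ α, ∃ d e : ℕ, ∀ i, BiDeg (law α i) d e) ∧
    ∀ x y : G, (∃ α, vals₂ (law α) (pt x) (pt y) ≠ 0) ∧
      ∀ (α : Fin r) (h : vals₂ (law α) (pt x) (pt y) ≠ 0),
        pt (x * y) = Projectivization.mk _ (vals₂ (law α) (pt x) (pt y)) h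

/-- `U` meets the image in `X` of an elliptic curve, under a non-constant map given by
polynomials. -/
def EllMeets {n : ℕ} (X U : Set (PP (AlgebraicClosure K) n)) : Prop :=
  ∃ (W : WeierstrassCurve (AlgebraicClosure K)) (_ : W.IsElliptic)
    (p q : Fin (n + 1) → Polynomial (AlgebraicClosure K)),
    Meets (fun (P : Aff W) i => (p i).eval P.1.1 + (q i).eval P.1.1 * P.1.2) X U

/-- `U` meets the image in `X`, under a tuple of forms with finite fibres of bounded size, of an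
algebraic group which has an element of infinite order. -/
def GroupMeets {n : ℕ} (X U : Set (PP (AlgebraicClosure K) n)) : Prop :=
  ∃ (N : ℕ) (G : Type) (_ : Group G) (pt : G → PP (AlgebraicClosure K) N)
    (φ : Fin (n + 1) → MvPolynomial (Fin (N + 1)) (AlgebraicClosure K)),
    IsAlgGroup pt ∧ (∃ y : G, ∀ k : ℕ, 0 < k → y ^ k ≠ 1) ∧ SameDeg φ ∧
    (∀ (g : G) (h : vals φ (pt g) ≠ 0), Projectivization.mk _ (vals φ (pt g)) h ∈ X) ∧
    (∃ b : ℕ, ∀ (P : PP (AlgebraicClosure K) n) (S : Finset G),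
      (∀ g ∈ S, ∃ h : vals φ (pt g) ≠ 0, Projectivization.mk _ (vals φ (pt g)) h = P) →
        S.card ≤ b) ∧
    ∃ (g : G) (h : vals φ (pt g) ≠ 0), Projectivization.mk _ (vals φ (pt g)) h ∈ U

/-- Each nonempty open subset of `X` meets the image of an elliptic curve or of an algebraic
group. -/
def DenseGroupImages (K : Type) [Field K] {n : ℕ} (X : Set (PP (AlgebraicClosure K) n)) : Prop :=
  ∀ U, IsOpenIn K X U → EllMeets X U ∨ GroupMeets X U

/-- `U` has at least `c (log T) ^ c'` points, over all large number fields. -/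
def PolylogMany {n : ℕ} (U : Set (PP (AlgebraicClosure K) n))
    (H : PP (AlgebraicClosure K) n → ℝ) : Prop :=
  ∃ L₀ : IntermediateField K (AlgebraicClosure K), FiniteDimensional K L₀ ∧
    ∀ L : IntermediateField K (AlgebraicClosure K), L₀ ≤ L → FiniteDimensional K L →
      ∃ c c' : ℝ, 0 < c ∧ 0 < c' ∧ ∀ᶠ T : ℝ in atTop, c * Real.log T ^ c' ≤ count U H L T

/-- `U` has at least `c log log T` points, over all large number fields. -/
def LoglogMany {n : ℕ} (U : Set (PP (AlgebraicClosure K) n))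
    (H : PP (AlgebraicClosure K) n → ℝ) : Prop :=
  ∃ L₀ : IntermediateField K (AlgebraicClosure K), FiniteDimensional K L₀ ∧
    ∀ L : IntermediateField K (AlgebraicClosure K), L₀ ≤ L → FiniteDimensional K L →
      ∃ c : ℝ, 0 < c ∧ ∀ᶠ T : ℝ in atTop, c * Real.log (Real.log T) ≤ count U H L T

lemma slow_of_group [NumberField K] {X U : Set (PP (AlgebraicClosure K) n)}
    (hU : IsOpenIn K X U) (h : GroupMeets X U) : ∃ (N r : ℕ)
    (F : Fin r → Fin (N + 1) → MvPolynomial (Fin (N + 1)) (AlgebraicClosure K))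
    (s : ℕ → PP (AlgebraicClosure K) N)
    (φ : Fin (n + 1) → MvPolynomial (Fin (N + 1)) (AlgebraicClosure K)),
    (∀ α, SameDeg (F α)) ∧ (∀ k, Step F (s k) (s (k + 1))) ∧ PolyHeight s ∧ SameDeg φ ∧
      Hits s φ X U := by
  obtain ⟨N, G, hG, pt, φ, ⟨hinj, r, law, hdeg, hlaw⟩, ⟨y, hy⟩, hφ, hX, hb, g, hg, hgU⟩ := h
  exact (slow_of_algGroup (A := ⟨G, hG, pt, hinj, r, law, hdeg, hlaw⟩) hU ⟨y, hy⟩ hφ hX hb
    ⟨g, hg, hgU⟩)

/-- The lower bound for images of elliptic curves and algebraic groups. -/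
theorem polylog_of_groupImages [NumberField K] {X : Set (PP (AlgebraicClosure K) n)}
    {H : PP (AlgebraicClosure K) n → ℝ} (hH : Comparable X H) (hD : DenseGroupImages K X)
    {U : Set (PP (AlgebraicClosure K) n)} (hU : IsOpenIn K X U) : PolylogMany U H := by
  rcases hD U hU with ⟨W, hW, p, q, h⟩ | h
  · exact lower_elliptic hH hU W hW p q h
  · obtain ⟨N, r, F, s, φ, hF, hs, hp, hφ, hit⟩ := slow_of_group hU h
    exact lower_dyn_poly hH hU hF hs hp hφ hit

/-- Polylogarithmic lower bounds exclude the orders above one. -/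
theorem orders_of_polylog [NumberField K] {X : Set (PP (AlgebraicClosure K) n)}
    {H : PP (AlgebraicClosure K) n → ℝ} (h : ∀ U, IsOpenIn K X U → PolylogMany U H) :
    (∀ a, HasOrder K X H a → a ≤ 1) ∧ ¬ HasOrderTop K X H := by
  constructor
  · rintro a ⟨m, hm, U₀, hU₀, h1⟩
    obtain ⟨L₁, hL₁, h2⟩ := h1 U₀ hU₀ subset_rfl
    obtain ⟨L₂, hL₂, h3⟩ := h U₀ hU₀
    haveI := hL₁
    haveI := hL₂
    have hL : FiniteDimensional K (L₁ ⊔ L₂ : IntermediateField K (AlgebraicClosure K)) :=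
      IntermediateField.finiteDimensional_sup L₁ L₂
    obtain ⟨c, c', hc, hc', hlo⟩ := h3 (L₁ ⊔ L₂) le_sup_right hL
    exact order_le_one (N := fun T => (count U₀ H (L₁ ⊔ L₂) T : ℝ)) hc hc' hlo m a (by omega)
      (h2 (L₁ ⊔ L₂) le_sup_left hL)
  · rintro ⟨m, hm, U₀, hU₀, h1⟩
    obtain ⟨L₂, hL₂, h3⟩ := h U₀ hU₀
    obtain ⟨c, c', hc, hc', hlo⟩ := h3 L₂ le_rfl hL₂
    exact not_order_top (N := fun T => (count U₀ H L₂ T : ℝ)) hc hc' hlo m (by omega)
      (h1 U₀ hU₀ subset_rfl L₂ hL₂ 1)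

/-- Loglog lower bounds exclude the orders above two. -/
theorem orders_of_loglog [NumberField K] {X : Set (PP (AlgebraicClosure K) n)}
    {H : PP (AlgebraicClosure K) n → ℝ} (h : ∀ U, IsOpenIn K X U → LoglogMany U H) :
    (∀ a, HasOrder K X H a → a ≤ 2) ∧ ¬ HasOrderTop K X H := by
  constructor
  · rintro a ⟨m, hm, U₀, hU₀, h1⟩
    obtain ⟨L₁, hL₁, h2⟩ := h1 U₀ hU₀ subset_rfl
    obtain ⟨L₂, hL₂, h3⟩ := h U₀ hU₀
    haveI := hL₁
    haveI := hL₂
    have hL : FiniteDimensional K (L₁ ⊔ L₂ : IntermediateField K (AlgebraicClosure K)) :=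
      IntermediateField.finiteDimensional_sup L₁ L₂
    obtain ⟨c, hc, hlo⟩ := h3 (L₁ ⊔ L₂) le_sup_right hL
    exact order_le_two (N := fun T => (count U₀ H (L₁ ⊔ L₂) T : ℝ)) hc hlo m a (by omega)
      (h2 (L₁ ⊔ L₂) le_sup_left hL)
  · rintro ⟨m, hm, U₀, hU₀, h1⟩
    obtain ⟨L₂, hL₂, h3⟩ := h U₀ hU₀
    obtain ⟨c, hc, hlo⟩ := h3 L₂ le_rfl hL₂
    exact not_order_top_two (N := fun T => (count U₀ H L₂ T : ℝ)) hc hlo m (by omega)
      (h1 U₀ hU₀ subset_rfl L₂ hL₂ 2)

/-! ### Orbits -/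

/-- `U` is visited infinitely often by the forward orbit of a self-map given by forms on pieces
(the points of the orbit are distinct and lie in `X`). -/
def ForwardVisits {n : ℕ} (X U : Set (PP (AlgebraicClosure K) n)) : Prop :=
  ∃ (r : ℕ) (F : Fin r → Fin (n + 1) → MvPolynomial (Fin (n + 1)) (AlgebraicClosure K))
    (s : ℕ → PP (AlgebraicClosure K) n), (∀ α, SameDeg (F α)) ∧
      (∀ k, Step F (s k) (s (k + 1))) ∧ Function.Injective s ∧ (∀ k, s k ∈ X) ∧
      {k | s k ∈ U}.Infinite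

/-- `U` contains a point of `X` with an infinite orbit under a group generated by finitely many
invertible self-maps given by forms on pieces. -/
def InfiniteOrbitMeets {n : ℕ} (X U : Set (PP (AlgebraicClosure K) n)) : Prop :=
  ∃ (O : OrbitSys X) (i : O.ι), O.s i ∈ U ∧ (⋃ k, ball O.σ i k).Infinite

/-- `U` contains a point of `X` with an orbit of exponential growth under a group generated by
finitely many invertible self-maps given by forms on pieces. -/
def ExpOrbitMeets {n : ℕ} (X U : Set (PP (AlgebraicClosure K) n)) : Prop :=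
  ∃ (O : OrbitSys X) (i : O.ι) (c θ : ℝ), O.s i ∈ U ∧ 0 < c ∧ 1 < θ ∧
    ∀ k : ℕ, c * θ ^ k ≤ (ball O.σ i k).ncard

/-- Infinite orbits are dense in `X`. -/
def DenseInfiniteOrbits (K : Type) [Field K] {n : ℕ} (X : Set (PP (AlgebraicClosure K) n)) :
    Prop :=
  ∀ U, IsOpenIn K X U → ForwardVisits X U ∨ InfiniteOrbitMeets X U

/-- Orbits of exponential growth are dense in `X`. -/
def DenseExpOrbits (K : Type) [Field K] {n : ℕ} (X : Set (PP (AlgebraicClosure K) n)) : Prop :=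
  ∀ U, IsOpenIn K X U → ExpOrbitMeets X U

theorem loglog_of_orbits [NumberField K] {X : Set (PP (AlgebraicClosure K) n)}
    {H : PP (AlgebraicClosure K) n → ℝ} (hH : Comparable X H) (hD : DenseInfiniteOrbits K X)
    {U : Set (PP (AlgebraicClosure K) n)} (hU : IsOpenIn K X U) : LoglogMany U H := by
  rcases hD U hU with ⟨r, F, s, hF, hs, hinj, hX, hinf⟩ | ⟨O, i, hi, hinf⟩
  · have hφ : SameDeg (fun i => (MvPolynomial.X i : MvPolynomial (Fin (n + 1))
        (AlgebraicClosure K))) := ⟨1, fun i => isHomogeneous_X _ i⟩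
    have hmk : ∀ (P : PP (AlgebraicClosure K) n) (h : vals (fun i => (MvPolynomial.X i :
        MvPolynomial (Fin (n + 1)) (AlgebraicClosure K))) P ≠ 0),
        Projectivization.mk _ (vals (fun i => (MvPolynomial.X i :
        MvPolynomial (Fin (n + 1)) (AlgebraicClosure K))) P) h = P := by
      intro P h
      have : Projectivization.mk _ P.rep P.rep_nonzero = P := P.mk_rep
      conv_rhs => rw [← this]
      congr 1
      exact vals_X P
    refine lower_dyn hH hU hF hs hφ ⟨?_, ?_, ?_⟩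
    · intro k h
      rw [hmk]
      exact hX k
    · intro l
      obtain ⟨k, hk, hlk⟩ := hinf.exists_gt l
      refine ⟨k, hlk.le, ?_, ?_⟩
      · rw [vals_X]
        exact (s k).rep_nonzero
      · rw [hmk]
        exact hk
    · refine ⟨1, fun P S hS => ?_⟩
      rw [Finset.card_le_one]
      intro a ha b hb
      obtain ⟨h1, h2⟩ := hS a ha
      obtain ⟨h3, h4⟩ := hS b hb
      rw [hmk] at h2 h4
      exact hinj (h2.trans h4.symm)
  · obtain ⟨L₀, hL₀, h⟩ := orbit_growth hH hU O i hi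
    refine ⟨L₀, hL₀, fun L hLL hL => ?_⟩
    obtain ⟨E, Z, hE, hZ, h1⟩ := h L hLL hL
    obtain ⟨c, hc, hcT⟩ := seq_lower_loglog (N := fun T => (count U H L T : ℝ)) hZ hE (by
      intro T M hM
      have hN : (0 : ℝ) ≤ Z * count U H L T := by positivity
      rcases Nat.eq_zero_or_pos M with rfl | hMpos
      · have : (0 : ℝ) ≤ (Z : ℝ) := Nat.cast_nonneg _
        push_cast
        linarith
      · have h2 := h1 T (M - 1) (hM (M - 1) (by omega))
        have h3 := ball_card_ge (σ := O.σ) i hinf (M - 1)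
        have h4 : M ≤ Z * count U H L T := by omega
        have h5 : (M : ℝ) ≤ Z * count U H L T := by exact_mod_cast h4
        have : (0 : ℝ) ≤ (Z : ℝ) := Nat.cast_nonneg _
        linarith)
    exact ⟨c, hc, hcT⟩

lemma exp_lower {N : ℝ → ℝ} {E c θ : ℝ} {Z : ℕ} (hE : 0 < E) (hZ : 0 < Z) (hc : 0 < c)
    (hθ : 1 < θ)
    (h : ∀ (T : ℝ) (k : ℕ), Real.exp (Real.exp (E * ((k : ℝ) + 1))) ≤ T → c * θ ^ k ≤ Z * N T) :
    ∃ c₁ c₂ : ℝ, 0 < c₁ ∧ 0 < c₂ ∧ ∀ᶠ T in atTop, c₁ * Real.log T ^ c₂ ≤ N T := by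
  have hlθ : 0 < Real.log θ := Real.log_pos hθ
  have hZ' : (0 : ℝ) < Z := by exact_mod_cast hZ
  have hθ0 : 0 < θ := by linarith
  refine ⟨c / Z * θ ^ (-2 : ℝ), Real.log θ / E, by positivity, by positivity, ?_⟩
  have h1 : Tendsto (fun T : ℝ => Real.log (Real.log T)) atTop atTop :=
    Real.tendsto_log_atTop.comp Real.tendsto_log_atTop
  filter_upwards [h1.eventually_ge_atTop (2 * E), eventually_gt_atTop 1] with T hT hT1
  have hlT : 0 < Real.log T := Real.log_pos hT1
  set x := Real.log (Real.log T) with hx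
  have hxE : 2 ≤ x / E := by rw [le_div_iff₀ hE]; exact hT
  have hfl : 2 ≤ ⌊x / E⌋₊ := Nat.le_floor (by exact_mod_cast hxE)
  have hfl1 : (⌊x / E⌋₊ : ℝ) ≤ x / E := Nat.floor_le (by linarith)
  have hfl2 : x / E < ⌊x / E⌋₊ + 1 := Nat.lt_floor_add_one _
  have hk : ((⌊x / E⌋₊ - 1 : ℕ) : ℝ) = (⌊x / E⌋₊ : ℝ) - 1 := by
    rw [Nat.cast_sub (by omega)]
    simp
  have h2 := h T (⌊x / E⌋₊ - 1) (by
    rw [hk]
    have h3 : E * ((⌊x / E⌋₊ : ℝ) - 1 + 1) ≤ x := by
      calc E * ((⌊x / E⌋₊ : ℝ) - 1 + 1) = E * (⌊x / E⌋₊ : ℝ) := by ring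
        _ ≤ E * (x / E) := by gcongr
        _ = x := by field_simp
    calc Real.exp (Real.exp (E * ((⌊x / E⌋₊ : ℝ) - 1 + 1))) ≤ Real.exp (Real.exp x) :=
          Real.exp_le_exp.2 (Real.exp_le_exp.2 h3)
      _ = T := by
          rw [hx, Real.exp_log hlT, Real.exp_log (by linarith)])
  have h4 : θ ^ (-2 : ℝ) * Real.log T ^ (Real.log θ / E) ≤ θ ^ (⌊x / E⌋₊ - 1 : ℕ) := by
    have e1 : Real.log T ^ (Real.log θ / E) = θ ^ (x / E) := by
      rw [Real.rpow_def_of_pos hlT, Real.rpow_def_of_pos hθ0]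
      congr 1
      rw [← hx]
      ring
    rw [e1, ← Real.rpow_add hθ0, ← Real.rpow_natCast, hk]
    apply Real.rpow_le_rpow_of_exponent_le hθ.le
    linarith
  have h5 : c * (θ ^ (-2 : ℝ) * Real.log T ^ (Real.log θ / E)) ≤ Z * N T :=
    (mul_le_mul_of_nonneg_left h4 hc.le).trans h2
  calc c / Z * θ ^ (-2 : ℝ) * Real.log T ^ (Real.log θ / E) =
        c * (θ ^ (-2 : ℝ) * Real.log T ^ (Real.log θ / E)) / Z := by ring
    _ ≤ N T := by
        rw [div_le_iff₀ hZ']
        linarith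

theorem polylog_of_expOrbits [NumberField K] {X : Set (PP (AlgebraicClosure K) n)}
    {H : PP (AlgebraicClosure K) n → ℝ} (hH : Comparable X H) (hD : DenseExpOrbits K X)
    {U : Set (PP (AlgebraicClosure K) n)} (hU : IsOpenIn K X U) : PolylogMany U H := by
  obtain ⟨O, i, c, θ, hi, hc, hθ, hgr⟩ := hD U hU
  obtain ⟨L₀, hL₀, h⟩ := orbit_growth hH hU O i hi
  refine ⟨L₀, hL₀, fun L hLL hL => ?_⟩
  obtain ⟨E, Z, hE, hZ, h1⟩ := h L hLL hL
  exact exp_lower (N := fun T => (count U H L T : ℝ)) hE hZ hc hθ (by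
    intro T k hT
    have h2 := h1 T k hT
    have h3 : ((ball O.σ i k).ncard : ℝ) ≤ Z * count U H L T := by exact_mod_cast h2
    exact (hgr k).trans h3)

end Pool.Agent.Helper16.A9
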