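import Mathlib

set_option autoImplicit false

/-!
Finiteness of the 2-Selmer group `K(S, 2)` of a number field.
-/

namespace Pool.Agent.Helper16.A9

open NumberField IsDedekindDomain WithZero
open scoped nonZeroDivisors

/-- Covered by finitely many classes modulo squares. -/
def SqCovered {L : Type} [Field L] (A : Set L) : Prop :=
  ∃ R : Set L, R.Finite ∧ (∀ r ∈ R, r ≠ 0) ∧ ∀ x ∈ A, ∃ r ∈ R, ∃ y : L, y ≠ 0 ∧ x = r * y ^ 2

lemma cover_step {L : Type} [Field L] {A B : Set L} {F : Type} [Finite F] (f : L → F)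
    (hA : ∀ x ∈ A, x ≠ 0) (h : ∀ x ∈ A, ∀ x' ∈ A, f x = f x' → x / x' ∈ B)
    (hB : SqCovered B) : SqCovered A := by
  classical
  obtain ⟨R, hR, hR0, hcov⟩ := hB
  let g : F → L := fun c => if hc : ∃ x ∈ A, f x = c then hc.choose else 1
  have hg : ∀ x ∈ A, g (f x) ∈ A ∧ f (g (f x)) = f x := by
    intro x hx
    have hc : ∃ x' ∈ A, f x' = f x := ⟨x, hx, rfl⟩
    have e : g (f x) = hc.choose := by
      simp only [g]
      rw [dif_pos hc]
    rw [e]
    exact hc.choose_spec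
  have hg0 : ∀ c, g c ≠ 0 := by
    intro c
    by_cases hc : ∃ x ∈ A, f x = c
    · obtain ⟨x, hx, rfl⟩ := hc
      exact hA _ (hg x hx).1
    · simp only [g]
      rw [dif_neg hc]
      exact one_ne_zero
  refine ⟨Set.image2 (fun c r => c * r) (Set.range g) R, (Set.finite_range g).image2 _ hR, ?_, ?_⟩
  · rintro _ ⟨_, ⟨c, rfl⟩, r, hr, rfl⟩
    exact mul_ne_zero (hg0 c) (hR0 r hr)
  · intro x hx
    obtain ⟨hg1, hg2⟩ := hg x hx
    obtain ⟨r, hr, y, hy, hxy⟩ := hcov _ (h x hx _ hg1 hg2.symm)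
    refine ⟨g (f x) * r, ⟨g (f x), ⟨f x, rfl⟩, r, hr, rfl⟩, y, hy, ?_⟩
    rw [div_eq_iff (hg0 (f x))] at hxy
    linear_combination hxy

variable (L : Type) [Field L] [NumberField L]

instance finite_units_mod_sq :
    Finite ((𝓞 L)ˣ ⧸ (powMonoidHom 2 : (𝓞 L)ˣ →* (𝓞 L)ˣ).range) := by
  haveI : Group.FG (𝓞 L)ˣ := Group.fg_iff_monoid_fg.2 inferInstance
  haveI : Group.FG ((𝓞 L)ˣ ⧸ (powMonoidHom 2 : (𝓞 L)ˣ →* (𝓞 L)ˣ).range) := inferInstance
  apply CommGroup.finite_of_fg_isMulTorsion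
  intro q
  obtain ⟨u, rfl⟩ := QuotientGroup.mk_surjective q
  rw [isOfFinOrder_iff_pow_eq_one]
  refine ⟨2, by norm_num, ?_⟩
  rw [← QuotientGroup.mk_pow, QuotientGroup.eq_one_iff]
  exact ⟨u, rfl⟩

lemma units_covered : SqCovered {x : L | ∃ (u : (𝓞 L)ˣ) (y : L), y ≠ 0 ∧
    x = ((u : 𝓞 L) : L) * y ^ 2} := by
  classical
  let g : ((𝓞 L)ˣ ⧸ (powMonoidHom 2 : (𝓞 L)ˣ →* (𝓞 L)ˣ).range) → (𝓞 L)ˣ := fun q => q.out
  have hu0 : ∀ u : (𝓞 L)ˣ, ((u : 𝓞 L) : L) ≠ 0 := by
    intro u h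
    have h1 : (u : 𝓞 L) = 0 := RingOfIntegers.coe_injective (h.trans (map_zero _).symm)
    exact u.ne_zero h1
  refine ⟨Set.range (fun q => (((g q : (𝓞 L)ˣ) : 𝓞 L) : L)), Set.finite_range _, ?_, ?_⟩
  · rintro _ ⟨q, rfl⟩
    exact hu0 _
  · rintro x ⟨u, y, hy, rfl⟩
    have h1 : (QuotientGroup.mk (g (QuotientGroup.mk u)) :
        (𝓞 L)ˣ ⧸ (powMonoidHom 2 : (𝓞 L)ˣ →* (𝓞 L)ˣ).range) = QuotientGroup.mk u :=
      Quotient.out_eq _
    rw [QuotientGroup.eq] at h1
    obtain ⟨w, hw⟩ := h1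
    refine ⟨_, ⟨QuotientGroup.mk u, rfl⟩, ((w : 𝓞 L) : L) * y, mul_ne_zero (hu0 w) hy, ?_⟩
    have h2 : u = g (QuotientGroup.mk u) * w ^ 2 := by
      have h3 : w ^ 2 = (g (QuotientGroup.mk u))⁻¹ * u := hw
      rw [h3, mul_inv_cancel_left]
    have h3 : ((u : 𝓞 L) : L) = (((g (QuotientGroup.mk u) : (𝓞 L)ˣ) : 𝓞 L) : L) *
        ((w : 𝓞 L) : L) ^ 2 := by
      conv_lhs => rw [h2]
      push_cast
      rfl
    rw [h3]
    ring

variable {L}

lemma isSquare_exp {m : ℤ} : IsSquare (exp m : ℤᵐ⁰) ↔ Even m := by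
  constructor
  · rintro ⟨z, hz⟩
    have hz0 : z ≠ 0 := by
      rintro rfl
      rw [zero_mul] at hz
      exact exp_ne_zero hz
    obtain ⟨k, rfl⟩ : ∃ k : ℤ, z = exp k := ⟨log z, (exp_log hz0).symm⟩
    rw [← exp_add] at hz
    exact ⟨k, exp_injective hz⟩
  · rintro ⟨k, rfl⟩
    exact ⟨exp k, by rw [← exp_add]⟩

lemma isSquare_div {a b : ℤᵐ⁰} (ha : a ≠ 0) (hb : b ≠ 0) (h : IsSquare a ↔ IsSquare b) :
    IsSquare (a / b) := by
  obtain ⟨m, rfl⟩ : ∃ k : ℤ, a = exp k := ⟨log a, (exp_log ha).symm⟩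
  obtain ⟨k, rfl⟩ : ∃ k : ℤ, b = exp k := ⟨log b, (exp_log hb).symm⟩
  rw [isSquare_exp, isSquare_exp] at h
  rw [← exp_sub, isSquare_exp, Int.even_sub]
  exact h

/-- An algebraic integer with even valuations generates the square of an ideal. -/
lemma exists_sqrt_ideal {a : 𝓞 L} (ha : a ≠ 0)
    (h : ∀ v : HeightOneSpectrum (𝓞 L), IsSquare (v.valuation L (a : L))) :
    ∃ J : Ideal (𝓞 L), J ≠ 0 ∧ Ideal.span {a} = J ^ 2 := by
  classical
  have hI : (Ideal.span {a} : Ideal (𝓞 L)) ≠ 0 := by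
    rw [Ne, Ideal.zero_eq_bot, Ideal.span_singleton_eq_bot]
    exact ha
  let c : HeightOneSpectrum (𝓞 L) → ℕ := fun v =>
    (Associates.mk v.asIdeal).count (Associates.mk (Ideal.span {a} : Ideal (𝓞 L))).factors
  have hc : ∀ v, Even (c v) := by
    intro v
    have h1 := h v
    have h2 : v.valuation L (a : L) = exp (-(c v : ℤ)) := by
      have e : (a : L) = algebraMap (𝓞 L) L a := rfl
      rw [e, HeightOneSpectrum.valuation_of_algebraMap, HeightOneSpectrum.intValuation_if_neg _ ha]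
    rw [h2, isSquare_exp, even_neg] at h1
    exact_mod_cast h1
  have hfin : (Function.mulSupport fun v : HeightOneSpectrum (𝓞 L) =>
      v.asIdeal ^ (c v / 2)).Finite := by
    refine (Ideal.hasFiniteMulSupport hI).subset ?_
    intro v hv
    rw [Function.mem_mulSupport] at hv ⊢
    intro h0
    apply hv
    have h1 : v.asIdeal ^ c v = 1 := h0
    obtain ⟨k, hk⟩ := hc v
    have h2 : c v / 2 = k := by omega
    rw [h2]
    rw [hk, pow_add] at h1
    exact Ideal.isUnit_iff.1 (IsUnit.of_mul_eq_one _ h1) |>.trans Ideal.one_eq_top.symm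
  refine ⟨∏ᶠ v : HeightOneSpectrum (𝓞 L), v.asIdeal ^ (c v / 2), ?_, ?_⟩
  · intro h0
    have h1 : (∏ᶠ v : HeightOneSpectrum (𝓞 L), v.asIdeal ^ (c v / 2)) ^ 2 =
        Ideal.span {a} := by
      rw [finprod_pow hfin, ← Ideal.finprod_heightOneSpectrum_factorization hI]
      refine finprod_congr fun v => ?_
      rw [← pow_mul, HeightOneSpectrum.maxPowDividing]
      congr 1
      exact Nat.div_mul_cancel (hc v).two_dvd
    rw [h0] at h1
    apply hI
    rw [← h1]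
    exact zero_pow two_ne_zero
  · rw [finprod_pow hfin, ← Ideal.finprod_heightOneSpectrum_factorization hI]
    refine finprod_congr fun v => ?_
    rw [← pow_mul, HeightOneSpectrum.maxPowDividing]
    congr 1
    exact (Nat.div_mul_cancel (hc v).two_dvd).symm

variable (L)

/-- Elements with all valuations even. -/
lemma even_covered : SqCovered {x : L | x ≠ 0 ∧
    ∀ v : HeightOneSpectrum (𝓞 L), IsSquare (v.valuation L x)} := by
  classical
  have hex : ∀ x : L, (x ≠ 0 ∧ ∀ v : HeightOneSpectrum (𝓞 L), IsSquare (v.valuation L x)) →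
      ∃ (a b : 𝓞 L) (J : (Ideal (𝓞 L))⁰), a ≠ 0 ∧ b ≠ 0 ∧ x * (b : L) ^ 2 = (a : L) ∧
        Ideal.span {a} = (J : Ideal (𝓞 L)) ^ 2 := by
    rintro x ⟨hx0, hx⟩
    obtain ⟨a, b, hb, hab⟩ := IsFractionRing.div_surjective (A := 𝓞 L) x
    have hb0 : b ≠ 0 := nonZeroDivisors.ne_zero hb
    have hb0' : (algebraMap (𝓞 L) L b) ≠ 0 := by
      rwa [Ne, FaithfulSMul.algebraMap_eq_zero_iff]
    have ha0 : a ≠ 0 := by
      rintro rfl
      rw [map_zero, zero_div] at hab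
      exact hx0 hab.symm
    have hxb : x * (b : L) ^ 2 = ((a * b : 𝓞 L) : L) := by
      have e1 : ((a * b : 𝓞 L) : L) = algebraMap (𝓞 L) L a * algebraMap (𝓞 L) L b := by
        rw [← map_mul]
      have e2 : (b : L) = algebraMap (𝓞 L) L b := rfl
      rw [e1, e2, ← hab]
      field_simp
    obtain ⟨J, hJ0, hJ⟩ := exists_sqrt_ideal (mul_ne_zero ha0 hb0) (fun v => by
      rw [← hxb, map_mul, map_pow]
      exact (hx v).mul (IsSquare.sq _))
    exact ⟨a * b, b, ⟨J, mem_nonZeroDivisors_of_ne_zero hJ0⟩, mul_ne_zero ha0 hb0, hb0, hxb, hJ⟩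
  let f : L → ClassGroup (𝓞 L) := fun x =>
    if hx : x ≠ 0 ∧ ∀ v : HeightOneSpectrum (𝓞 L), IsSquare (v.valuation L x) then
      ClassGroup.mk0 (hex x hx).choose_spec.choose_spec.choose else 1
  refine cover_step f (fun x hx => hx.1) ?_ (units_covered L)
  intro x hx x' hx' hff
  have hfx : f x = ClassGroup.mk0 (hex x hx).choose_spec.choose_spec.choose := dif_pos hx
  have hfx' : f x' = ClassGroup.mk0 (hex x' hx').choose_spec.choose_spec.choose := dif_pos hx'
  rw [hfx, hfx', ClassGroup.mk0_eq_mk0_iff] at hff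
  obtain ⟨ha, hb, hxab, hJ⟩ := (hex x hx).choose_spec.choose_spec.choose_spec
  obtain ⟨ha', hb', hxab', hJ'⟩ := (hex x' hx').choose_spec.choose_spec.choose_spec
  set a := (hex x hx).choose
  set b := (hex x hx).choose_spec.choose
  set J := (hex x hx).choose_spec.choose_spec.choose
  set a' := (hex x' hx').choose
  set b' := (hex x' hx').choose_spec.choose
  set J' := (hex x' hx').choose_spec.choose_spec.choose
  obtain ⟨p, q, hp, hq, hpq⟩ := hff
  have h1 : Ideal.span {p ^ 2 * a} = Ideal.span {q ^ 2 * a'} := by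
    rw [← Ideal.span_singleton_mul_span_singleton, ← Ideal.span_singleton_mul_span_singleton,
      ← Ideal.span_singleton_pow, ← Ideal.span_singleton_pow, hJ, hJ', ← mul_pow, ← mul_pow, hpq]
  rw [Ideal.span_singleton_eq_span_singleton] at h1
  obtain ⟨u, hu⟩ := h1.symm
  have hcoe : ∀ z : 𝓞 L, z ≠ 0 → (z : L) ≠ 0 := by
    intro z hz h0
    exact hz (RingOfIntegers.coe_injective (h0.trans (map_zero _).symm))
  have h2 : ((p : 𝓞 L) : L) ^ 2 * (a : L) = (q : L) ^ 2 * (a' : L) * ((u : 𝓞 L) : L) := by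
    have h3 : algebraMap (𝓞 L) L (p ^ 2 * a) = algebraMap (𝓞 L) L (q ^ 2 * a' * u) :=
      congrArg _ hu.symm
    rw [map_mul, map_mul, map_mul, map_pow, map_pow] at h3
    exact h3
  refine ⟨u, (q : L) * (b' : L) / ((p : L) * (b : L)), ?_, ?_⟩
  · exact div_ne_zero (mul_ne_zero (hcoe q hq) (hcoe b' hb'))
      (mul_ne_zero (hcoe p hp) (hcoe b hb))
  · have hp' := hcoe p hp
    have hq' := hcoe q hq
    have hb1 := hcoe b hb
    have hb1' := hcoe b' hb'
    have hx0 := hx.1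
    have hx0' := hx'.1
    rw [← hxab, ← hxab'] at h2
    field_simp
    linear_combination h2

/-- The finiteness of the 2-Selmer group of a number field: up to squares there are only finitely
many nonzero elements with even valuation at all primes outside a finite set. -/
theorem selmer_finite (S : Set (HeightOneSpectrum (𝓞 L))) (hS : S.Finite) :
    ∃ R : Set L, R.Finite ∧ (∀ r ∈ R, r ≠ 0) ∧ ∀ x : L, x ≠ 0 →
      (∀ v : HeightOneSpectrum (𝓞 L), v ∉ S → IsSquare (v.valuation L x)) →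
      ∃ r ∈ R, ∃ y : L, y ≠ 0 ∧ x = r * y ^ 2 := by
  haveI : Finite S := hS
  have h : SqCovered {x : L | x ≠ 0 ∧
      ∀ v : HeightOneSpectrum (𝓞 L), v ∉ S → IsSquare (v.valuation L x)} := by
    refine cover_step (F := S → Prop) (fun x v => IsSquare ((v : HeightOneSpectrum
      (𝓞 L)).valuation L x)) (fun x hx => hx.1) ?_ (even_covered L)
    rintro x ⟨hx0, hx⟩ x' ⟨hx0', hx'⟩ hff
    refine ⟨div_ne_zero hx0 hx0', fun v => ?_⟩
    rw [map_div₀]
    apply isSquare_div ((Valuation.ne_zero_iff _).2 hx0) ((Valuation.ne_zero_iff _).2 hx0')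
    by_cases hv : v ∈ S
    · have := congrFun hff ⟨v, hv⟩
      simp only at this
      rw [this]
    · exact ⟨fun _ => hx' v hv, fun _ => hx v hv⟩
  obtain ⟨R, hR, hR0, hcov⟩ := h
  exact ⟨R, hR, hR0, fun x hx0 hx => hcov x ⟨hx0, hx⟩⟩

end Pool.Agent.Helper16.A9
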