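import Mathlib
import Pool.Agent.Helper16.A9.Selmer
import Pool.Agent.Helper72.TD.Descent
import Pool.Agent.Helper72.TD.Halving

set_option autoImplicit false

/-!
The weak Mordell-Weil theorem for elliptic curves with full 2-torsion over a number field.
-/

namespace Pool.Agent.Helper16.A9

open NumberField IsDedekindDomain WithZero
open Pool.Agent.Helper72.TD

section val

variable {L Γ : Type} [Field L] [LinearOrderedCommGroupWithZero Γ] (v : Valuation L Γ)

/-- The valuation lemma: outside the bad primes the differences `x - e_i` have even valuation. -/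
lemma isSquare_val {e1 e2 e3 x y : L} (he1 : v e1 ≤ 1) (he2 : v e2 ≤ 1) (he3 : v e3 ≤ 1)
    (h12 : v (e1 - e2) = 1) (h13 : v (e1 - e3) = 1)
    (hxy : y ^ 2 = (x - e1) * (x - e2) * (x - e3)) : IsSquare (v (x - e1)) := by
  have hv : v y ^ 2 = v (x - e1) * v (x - e2) * v (x - e3) := by
    rw [← map_pow, hxy, map_mul, map_mul]
  by_cases hx : 1 < v x
  · have k1 : v (x - e1) = v x := Valuation.map_sub_eq_of_lt_left v (lt_of_le_of_lt he1 hx)
    have k2 : v (x - e2) = v x := Valuation.map_sub_eq_of_lt_left v (lt_of_le_of_lt he2 hx)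
    have k3 : v (x - e3) = v x := Valuation.map_sub_eq_of_lt_left v (lt_of_le_of_lt he3 hx)
    rw [k1, k2, k3] at hv
    have hx0 : v x ≠ 0 := (lt_trans zero_lt_one hx).ne'
    rw [k1]
    refine ⟨v y / v x, ?_⟩
    have : v x = v y ^ 2 / (v x ^ 2) := by
      rw [hv, eq_div_iff (pow_ne_zero 2 hx0), pow_two, mul_assoc]
    conv_lhs => rw [this]
    rw [← div_pow, pow_two]
  · push Not at hx
    have k1 : v (x - e1) ≤ 1 := (v.map_sub _ _).trans (max_le hx he1)
    rcases lt_or_eq_of_le k1 with hlt | heq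
    · have k2 : v (x - e2) = 1 := by
        have : x - e2 = (x - e1) + (e1 - e2) := by ring
        rw [this, Valuation.map_add_eq_of_lt_right v (by rw [h12]; exact hlt), h12]
      have k3 : v (x - e3) = 1 := by
        have : x - e3 = (x - e1) + (e1 - e3) := by ring
        rw [this, Valuation.map_add_eq_of_lt_right v (by rw [h13]; exact hlt), h13]
      rw [k2, k3, mul_one, mul_one] at hv
      exact ⟨v y, by rw [← hv, pow_two]⟩
    · rw [heq]
      exact ⟨1, (mul_one 1).symm⟩

end val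

variable (L : Type) [Field L] [NumberField L]

lemma finite_val_gt (k : L) :
    {v : HeightOneSpectrum (𝓞 L) | 1 < v.valuation L k}.Finite :=
  HeightOneSpectrum.Support.finite (𝓞 L) k

lemma finite_val_ne (k : L) (hk : k ≠ 0) :
    {v : HeightOneSpectrum (𝓞 L) | v.valuation L k ≠ 1}.Finite := by
  refine ((finite_val_gt L k).union (finite_val_gt L k⁻¹)).subset ?_
  intro v hv
  rcases lt_or_gt_of_ne hv with h | h
  · right
    show 1 < v.valuation L k⁻¹
    rw [map_inv₀]
    exact (one_lt_inv₀ (zero_lt_iff.2 ((Valuation.ne_zero_iff _).2 hk))).2 h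
  · left
    exact h

/-- The differences `x - e_i` of the points have only finitely many classes modulo squares. -/
lemma classes_finite {e1 e2 e3 : L} (h12 : e1 ≠ e2) (h13 : e1 ≠ e3) (h23 : e2 ≠ e3) :
    ∃ R : Set L, R.Finite ∧ (∀ r ∈ R, r ≠ 0) ∧ ∀ x y : L, y ≠ 0 →
      y ^ 2 = (x - e1) * (x - e2) * (x - e3) →
      (∃ r ∈ R, ∃ z : L, z ≠ 0 ∧ x - e1 = r * z ^ 2) ∧
      (∃ r ∈ R, ∃ z : L, z ≠ 0 ∧ x - e2 = r * z ^ 2) := by
  set S : Set (HeightOneSpectrum (𝓞 L)) :=
    (({v | 1 < v.valuation L e1} ∪ {v | 1 < v.valuation L e2}) ∪ {v | 1 < v.valuation L e3}) ∪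
    (({v | v.valuation L (e1 - e2) ≠ 1} ∪ {v | v.valuation L (e1 - e3) ≠ 1}) ∪
      ({v | v.valuation L (e2 - e1) ≠ 1} ∪ {v | v.valuation L (e2 - e3) ≠ 1})) with hS
  have hfin : S.Finite := (((finite_val_gt L e1).union (finite_val_gt L e2)).union
    (finite_val_gt L e3)).union (((finite_val_ne L _ (sub_ne_zero.2 h12)).union
    (finite_val_ne L _ (sub_ne_zero.2 h13))).union
      ((finite_val_ne L _ (sub_ne_zero.2 h12.symm)).union
      (finite_val_ne L _ (sub_ne_zero.2 h23))))
  obtain ⟨R, hR, hR0, hcov⟩ := selmer_finite L S hfin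
  refine ⟨R, hR, hR0, fun x y hy hxy => ?_⟩
  have hne : (x - e1) * (x - e2) * (x - e3) ≠ 0 := by
    rw [← hxy]
    exact pow_ne_zero 2 hy
  have hne1 : x - e1 ≠ 0 := left_ne_zero_of_mul (left_ne_zero_of_mul hne)
  have hne2 : x - e2 ≠ 0 := right_ne_zero_of_mul (left_ne_zero_of_mul hne)
  have hval : ∀ v : HeightOneSpectrum (𝓞 L), v ∉ S → v.valuation L e1 ≤ 1 ∧
      v.valuation L e2 ≤ 1 ∧ v.valuation L e3 ≤ 1 ∧ v.valuation L (e1 - e2) = 1 ∧
      v.valuation L (e1 - e3) = 1 ∧ v.valuation L (e2 - e1) = 1 ∧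
      v.valuation L (e2 - e3) = 1 := by
    intro v hv
    simp only [hS, Set.mem_union, Set.mem_setOf_eq, not_or, not_lt, not_not] at hv
    tauto
  constructor
  · refine hcov _ hne1 fun v hv => ?_
    obtain ⟨a1, a2, a3, a4, a5, a6, a7⟩ := hval v hv
    exact isSquare_val _ a1 a2 a3 a4 a5 hxy
  · refine hcov _ hne2 fun v hv => ?_
    obtain ⟨a1, a2, a3, a4, a5, a6, a7⟩ := hval v hv
    exact isSquare_val _ a2 a1 a3 a6 a7 (by rw [hxy]; ring)

lemma hasClass_neg {K : Type} [Field K] {e1 e2 e3 : K} {P : (curve e1 e2 e3).toAffine.Point}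
    {d1 d2 : K} (h : HasClass P d1 d2) : HasClass (-P) d1 d2 := by
  match P, h with
  | .zero, h => exact h
  | .some x y hxy, h => exact h

/-- Weak Mordell-Weil: the points are covered by finitely many cosets of the doubles. -/
theorem weak_mw [DecidableEq L] {e1 e2 e3 : L} (h12 : e1 ≠ e2) (h13 : e1 ≠ e3) (h23 : e2 ≠ e3) :
    ∃ T : Set (curve e1 e2 e3).toAffine.Point, T.Finite ∧ ∀ P, ∃ t ∈ T, ∃ Q, P = Q + Q + t := by
  classical
  have h2 : (2 : L) ≠ 0 := two_ne_zero
  obtain ⟨R, hR, hR0, hcov⟩ := classes_finite L h12 h13 h23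
  let t : L × L → (curve e1 e2 e3).toAffine.Point := fun r =>
    if h : ∃ P : (curve e1 e2 e3).toAffine.Point, HasClass P r.1 r.2 then h.choose else 0
  have ht : ∀ r : L × L, (∃ P : (curve e1 e2 e3).toAffine.Point, HasClass P r.1 r.2) →
      HasClass (t r) r.1 r.2 := by
    intro r h
    have e : t r = h.choose := by
      simp only [t]
      rw [dif_pos h]
    rw [e]
    exact h.choose_spec
  have htors : {P : (curve e1 e2 e3).toAffine.Point | P + P = 0}.Finite := by
    have h := card_two_torsion h2 h12 h13 h23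
    have : Finite {P : (curve e1 e2 e3).toAffine.Point // P + P = 0} := by
      apply Nat.finite_of_card_ne_zero
      rw [h]
      norm_num
    exact this
  refine ⟨(t '' (R ×ˢ R)) ∪ {P | P + P = 0}, ((hR.prod hR).image t).union htors, ?_⟩
  intro P
  match P with
  | .zero => exact ⟨0, Or.inr (add_zero _), 0, by rw [add_zero, add_zero]; rfl⟩
  | .some x y hxy =>
    have heq := equation_of hxy
    by_cases hy : y = 0
    · refine ⟨.some x y hxy, Or.inr ?_, 0, by rw [add_zero, zero_add]⟩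
      show WeierstrassCurve.Affine.Point.some x y hxy +
        WeierstrassCurve.Affine.Point.some x y hxy = 0
      apply WeierstrassCurve.Affine.Point.add_self_of_Y_eq
      simp [WeierstrassCurve.Affine.negY, curve, hy]
    · obtain ⟨⟨r1, hr1, z1, hz1, hx1⟩, ⟨r2, hr2, z2, hz2, hx2⟩⟩ := hcov x y hy heq
      have hr10 := hR0 r1 hr1
      have hr20 := hR0 r2 hr2
      have hP : HasClass (WeierstrassCurve.Affine.Point.some x y hxy) r1 r2 := by
        refine ⟨z1, z2, y / (r1 * r2 * z1 * z2), hx1, hx2, ?_⟩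
        have h3 : y ^ 2 = r1 * z1 ^ 2 * (r2 * z2 ^ 2) * (x - e3) := by rw [heq, hx1, hx2]
        field_simp
        linear_combination -h3
      have ht' := ht (r1, r2) ⟨_, hP⟩
      have hadd := hasClass_add h2 h12 h13 h23 hr10 hr20 hr10 hr20 hP (hasClass_neg ht')
      have hone : HasClass (WeierstrassCurve.Affine.Point.some x y hxy + -t (r1, r2)) 1 1 := by
        rw [← hasClass_mul_sq (s1 := r1) (s2 := r2) hr10 hr20]
        have e1' : (1 : L) * r1 ^ 2 = r1 * r1 := by ring
        have e2' : (1 : L) * r2 ^ 2 = r2 * r2 := by ring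
        rw [e1', e2']
        exact hadd
      obtain ⟨Q, hQ⟩ := exists_half h2 h12 h13 h23 hone
      refine ⟨t (r1, r2), Or.inl ⟨(r1, r2), ⟨hr1, hr2⟩, rfl⟩, Q, ?_⟩
      rw [← hQ, neg_add_cancel_right]

end Pool.Agent.Helper16.A9
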