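import Mathlib
import Pool.Agent.Helper16.A9.WeakMW
import Pool.Agent.Helper16.A9.NonTorsion

set_option autoImplicit false

/-!
Counting points on an elliptic curve with full 2-torsion over a number field: polynomially many in
the logarithmic height.
-/

namespace Pool.Agent.Helper16.A9

open NumberField Height WeierstrassCurve
open Pool.Agent.Helper72.TD

section

variable {L : Type} [Field L]

/-- The logarithmic height of the `x`-coordinate (0 at the origin). -/
noncomputable def hx [AdmissibleAbsValues L] {e1 e2 e3 : L} :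
    (curve e1 e2 e3).toAffine.Point → ℝ
  | .zero => 0
  | .some x _ _ => logHeight₁ x

lemma hx_nonneg [AdmissibleAbsValues L] {e1 e2 e3 : L} (P : (curve e1 e2 e3).toAffine.Point) :
    0 ≤ hx P := by
  rcases P with _ | ⟨x, y, h⟩
  · exact le_rfl
  · exact zero_le_logHeight₁ x

lemma isElliptic_curve [CharZero L] {e1 e2 e3 : L} (h12 : e1 ≠ e2) (h13 : e1 ≠ e3)
    (h23 : e2 ≠ e3) : (curve e1 e2 e3).IsElliptic := by
  refine ⟨?_⟩
  rw [isUnit_iff_ne_zero]
  have h : (curve e1 e2 e3).Δ = 16 * ((e1 - e2) * (e1 - e3) * (e2 - e3)) ^ 2 := by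
    unfold WeierstrassCurve.Δ WeierstrassCurve.b₂ WeierstrassCurve.b₄ WeierstrassCurve.b₆
      WeierstrassCurve.b₈ curve
    ring
  rw [h]
  have h16 : (16 : L) ≠ 0 := by norm_num
  exact mul_ne_zero h16 (pow_ne_zero 2 (mul_ne_zero (mul_ne_zero (sub_ne_zero.2 h12)
    (sub_ne_zero.2 h13)) (sub_ne_zero.2 h23)))

lemma psi_curve {e1 e2 e3 : L} (x : L) :
    psi (curve e1 e2 e3) x = 4 * ((x - e1) * (x - e2) * (x - e3)) := by
  unfold psi WeierstrassCurve.b₂ WeierstrassCurve.b₄ WeierstrassCurve.b₆ curve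
  ring

/-- The height of `(1, x, x², y)` on the curve. -/
lemma height_y [AdmissibleAbsValues L] (e1 e2 e3 : L) : ∃ C : ℝ, ∀ x y : L,
    y ^ 2 = (x - e1) * (x - e2) * (x - e3) →
      logHeight ![1, x, x ^ 2, y] ≤ 2 * logHeight₁ x + C := by
  let p : Fin 4 → MvPolynomial (Fin 2) L := ![MvPolynomial.X 1 ^ 4,
    MvPolynomial.X 0 ^ 2 * MvPolynomial.X 1 ^ 2, MvPolynomial.X 0 ^ 4,
    (MvPolynomial.X 0 - MvPolynomial.C e1 * MvPolynomial.X 1) *
    (MvPolynomial.X 0 - MvPolynomial.C e2 * MvPolynomial.X 1) *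
    (MvPolynomial.X 0 - MvPolynomial.C e3 * MvPolynomial.X 1) * MvPolynomial.X 1]
  have hlin : ∀ e : L, (MvPolynomial.X 0 - MvPolynomial.C e * MvPolynomial.X 1 :
      MvPolynomial (Fin 2) L).IsHomogeneous 1 := by
    intro e
    refine (MvPolynomial.isHomogeneous_X _ _).sub ?_
    have := (MvPolynomial.isHomogeneous_C (Fin 2) e).mul (MvPolynomial.isHomogeneous_X L (1 : Fin 2))
    rwa [zero_add] at this
  have hom : ∀ i, (p i).IsHomogeneous 4 := by
    intro i
    fin_cases i
    · have := (MvPolynomial.isHomogeneous_X L (1 : Fin 2)).pow 4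
      simpa [p] using this
    · have := ((MvPolynomial.isHomogeneous_X L (0 : Fin 2)).pow 2).mul
        ((MvPolynomial.isHomogeneous_X L (1 : Fin 2)).pow 2)
      simpa [p] using this
    · have := (MvPolynomial.isHomogeneous_X L (0 : Fin 2)).pow 4
      simpa [p] using this
    · have := (((hlin e1).mul (hlin e2)).mul (hlin e3)).mul
        (MvPolynomial.isHomogeneous_X L (1 : Fin 2))
      simpa [p] using this
  obtain ⟨C, hC⟩ := logHeight_eval_le' hom
  refine ⟨C / 2, fun x y hxy => ?_⟩
  have h1 := hC ![x, 1]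
  have h2 : (fun j => MvPolynomial.eval ![x, 1] (p j)) = ![1, x, x ^ 2, y] ^ 2 := by
    funext j
    fin_cases j
    · simp [p]
    · simp [p]
    · simp [p]
      ring
    · simp [p]
      rw [hxy]
  rw [h2, logHeight_pow, ← logHeight₁_eq_logHeight] at h1
  push_cast at h1
  linarith

lemma eval_lin {a : Fin 4 → L} (v : Fin 4 → L) :
    MvPolynomial.eval v (∑ j, MvPolynomial.C (a j) * MvPolynomial.X j) = ∑ j, a j * v j := by
  simp

/-- Translation by a fixed point at most doubles the height. -/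
lemma height_translate [AdmissibleAbsValues L] [DecidableEq L] {e1 e2 e3 : L}
    (t : (curve e1 e2 e3).toAffine.Point) :
    ∃ C : ℝ, ∀ P : (curve e1 e2 e3).toAffine.Point, hx (P + t) ≤ 2 * hx P + C := by
  rcases t with _ | ⟨a, b, hab⟩
  · refine ⟨0, fun P => ?_⟩
    have h1 : P + WeierstrassCurve.Affine.Point.zero = P := add_zero P
    rw [h1]
    have := hx_nonneg P
    linarith
  obtain ⟨C₁, hC₁⟩ := height_y e1 e2 e3
  set s := e1 + e2 + e3 with hs
  set s2 := e1 * e2 + e1 * e3 + e2 * e3 with hs2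
  set s3 := e1 * e2 * e3 with hs3
  let cN : Fin 4 → L := ![b ^ 2 - s3 + (s - a) * a ^ 2, s2 - 2 * a * s + a ^ 2, a, -2 * b]
  let cD : Fin 4 → L := ![a ^ 2, -2 * a, 1, 0]
  let q : Fin 2 → MvPolynomial (Fin 4) L :=
    ![∑ j, MvPolynomial.C (cN j) * MvPolynomial.X j, ∑ j, MvPolynomial.C (cD j) * MvPolynomial.X j]
  have hl : ∀ c : Fin 4 → L, (∑ j, MvPolynomial.C (c j) * MvPolynomial.X j :
      MvPolynomial (Fin 4) L).IsHomogeneous 1 := by
    intro c
    refine MvPolynomial.IsHomogeneous.sum _ _ _ fun j _ => ?_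
    have := (MvPolynomial.isHomogeneous_C (Fin 4) (c j)).mul (MvPolynomial.isHomogeneous_X L j)
    rwa [zero_add] at this
  have hom : ∀ i, (q i).IsHomogeneous 1 := by
    intro i
    fin_cases i
    · exact hl cN
    · exact hl cD
  obtain ⟨C₂, hC₂⟩ := logHeight_eval_le' hom
  set t : (curve e1 e2 e3).toAffine.Point := WeierstrassCurve.Affine.Point.some a b hab with ht
  have n1 := hx_nonneg t
  have n2 := hx_nonneg (t + t)
  refine ⟨|C₁| + |C₂| + hx t + hx (t + t), fun P => ?_⟩
  have a1 := abs_nonneg C₁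
  have a2 := abs_nonneg C₂
  have b1 := le_abs_self C₁
  have b2 := le_abs_self C₂
  rcases P with _ | ⟨x, y, hxy⟩
  · have h1 : WeierstrassCurve.Affine.Point.zero + t = t := zero_add t
    rw [h1]
    have : hx (WeierstrassCurve.Affine.Point.zero : (curve e1 e2 e3).toAffine.Point) = 0 := rfl
    rw [this]
    linarith
  have hE := equation_of hxy
  have hE' := equation_of hab
  have hP0 : 0 ≤ hx (WeierstrassCurve.Affine.Point.some x y hxy) := hx_nonneg _
  by_cases hxa : x = a
  · subst hxa
    have hyb : (y - b) * (y + b) = 0 := by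
      have : y ^ 2 = b ^ 2 := by rw [hE, hE']
      linear_combination this
    rcases mul_eq_zero.1 hyb with h | h
    · have hy : y = b := by linear_combination h
      subst hy
      show hx (t + t) ≤ _
      linarith
    · have hy : y = -b := by linear_combination h
      have h1 : WeierstrassCurve.Affine.Point.some x y hxy + t = 0 := by
        apply WeierstrassCurve.Affine.Point.add_of_Y_eq rfl
        rw [hy]
        simp [WeierstrassCurve.Affine.negY, curve]
      rw [h1]
      have : hx (0 : (curve e1 e2 e3).toAffine.Point) = 0 := rfl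
      rw [this]
      linarith
  · have hxa' : x - a ≠ 0 := sub_ne_zero.2 hxa
    have hadd : WeierstrassCurve.Affine.Point.some x y hxy + t =
        WeierstrassCurve.Affine.Point.some _ _
          (WeierstrassCurve.Affine.nonsingular_add hxy hab (fun h => hxa h.1)) :=
      WeierstrassCurve.Affine.Point.add_some (fun h => hxa h.1)
    rw [hadd]
    show logHeight₁ ((curve e1 e2 e3).toAffine.addX x a
      ((curve e1 e2 e3).toAffine.slope x a y b)) ≤ _
    have hX : (curve e1 e2 e3).toAffine.addX x a ((curve e1 e2 e3).toAffine.slope x a y b) =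
        (∑ j, cN j * (![1, x, x ^ 2, y] : Fin 4 → L) j) /
          (∑ j, cD j * (![1, x, x ^ 2, y] : Fin 4 → L) j) := by
      rw [WeierstrassCurve.Affine.slope_of_X_ne hxa]
      have hD : (∑ j, cD j * (![1, x, x ^ 2, y] : Fin 4 → L) j) = (x - a) ^ 2 := by
        simp [Fin.sum_univ_four, cD]
        ring
      have hN : (∑ j, cN j * (![1, x, x ^ 2, y] : Fin 4 → L) j) =
          (y - b) ^ 2 + (s - x - a) * (x - a) ^ 2 := by
        simp [Fin.sum_univ_four, cN]
        linear_combination -hE
      rw [hD, hN]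
      unfold WeierstrassCurve.Affine.addX
      simp only [curve]
      field_simp
      ring
    rw [hX, logHeight₁_div_eq_logHeight]
    have h1 := hC₂ ![1, x, x ^ 2, y]
    have h2 : (fun j => MvPolynomial.eval ![1, x, x ^ 2, y] (q j)) =
        ![∑ j, cN j * (![1, x, x ^ 2, y] : Fin 4 → L) j,
          ∑ j, cD j * (![1, x, x ^ 2, y] : Fin 4 → L) j] := by
      funext j
      fin_cases j
      · exact eval_lin _
      · exact eval_lin _
    rw [h2] at h1
    have h3 := hC₁ x y hE
    have h4 : hx (WeierstrassCurve.Affine.Point.some x y hxy) = logHeight₁ x := rfl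
    rw [h4]
    push_cast at h1
    linarith

/-- Doubling multiplies the height by four. -/
lemma height_two [CharZero L] [AdmissibleAbsValues L] [DecidableEq L] {e1 e2 e3 : L}
    (h12 : e1 ≠ e2) (h13 : e1 ≠ e3) (h23 : e2 ≠ e3) :
    ∃ C : ℝ, ∀ Q : (curve e1 e2 e3).toAffine.Point, 4 * hx Q ≤ hx (Q + Q) + C := by
  haveI := isElliptic_curve h12 h13 h23
  obtain ⟨C, hC⟩ := height_double (curve e1 e2 e3)
  have m1 := zero_le_logHeight₁ e1
  have m2 := zero_le_logHeight₁ e2
  have m3 := zero_le_logHeight₁ e3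
  refine ⟨|C| + 4 * (logHeight₁ e1 + logHeight₁ e2 + logHeight₁ e3), fun Q => ?_⟩
  have c1 := abs_nonneg C
  have c2 := le_abs_self C
  have n := hx_nonneg (Q + Q)
  rcases Q with _ | ⟨x, y, hxy⟩
  · have : hx (WeierstrassCurve.Affine.Point.zero : (curve e1 e2 e3).toAffine.Point) = 0 := rfl
    rw [this]
    linarith
  have hE := equation_of hxy
  have hh : hx (WeierstrassCurve.Affine.Point.some x y hxy) = logHeight₁ x := rfl
  by_cases hpsi : psi (curve e1 e2 e3) x = 0
  · rw [psi_curve] at hpsi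
    have h4 : (4 : L) ≠ 0 := by norm_num
    rcases mul_eq_zero.1 hpsi with h | h
    · exact absurd h h4
    · rw [hh]
      rcases mul_eq_zero.1 h with h | h
      · rcases mul_eq_zero.1 h with h | h
        · have hl : logHeight₁ x = logHeight₁ e1 := by
            congr 1
            linear_combination h
          linarith
        · have hl : logHeight₁ x = logHeight₁ e2 := by
            congr 1
            linear_combination h
          linarith
      · have hl : logHeight₁ x = logHeight₁ e3 := by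
          congr 1
          linear_combination h
        linarith
  · obtain ⟨y', h', hdbl⟩ := two_smul_some (curve e1 e2 e3).toAffine hxy hpsi
    rw [two_smul] at hdbl
    rw [hdbl, hh]
    have h1 : hx (WeierstrassCurve.Affine.Point.some (W' := (curve e1 e2 e3).toAffine)
        (dbl (curve e1 e2 e3) x) y' h') = logHeight₁ (dbl (curve e1 e2 e3) x) := rfl
    rw [h1]
    unfold dbl
    rw [logHeight₁_div_eq_logHeight]
    have := hC x
    linarith

end

variable (L : Type) [Field L] [NumberField L]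

lemma points_finite {e1 e2 e3 : L} (B : ℝ) :
    {P : (curve e1 e2 e3).toAffine.Point | hx P ≤ B}.Finite := by
  classical
  have hX : {x : L | logHeight₁ x ≤ B}.Finite := Northcott.finite_le B
  have hY : ∀ c : L, {y : L | y ^ 2 = c}.Finite := by
    intro c
    by_cases h : ∃ y₀ : L, y₀ ^ 2 = c
    · obtain ⟨y₀, h0⟩ := h
      refine (Set.toFinite ({y₀, -y₀} : Set L)).subset ?_
      intro y hy
      have h1 : (y - y₀) * (y + y₀) = 0 := by
        have : y ^ 2 = y₀ ^ 2 := by rw [h0]; exact hy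
        linear_combination this
      rcases mul_eq_zero.1 h1 with h | h
      · left; linear_combination h
      · right
        have : y = -y₀ := by linear_combination h
        exact this
    · refine Set.Finite.subset Set.finite_empty ?_
      intro y hy
      exact h ⟨y, hy⟩
  let S : Set (L × L) := ⋃ x ∈ {x : L | logHeight₁ x ≤ B},
    (fun y => (x, y)) '' {y : L | y ^ 2 = (x - e1) * (x - e2) * (x - e3)}
  have hS : S.Finite := Set.Finite.biUnion hX fun x _ => (hY _).image _
  let f : (curve e1 e2 e3).toAffine.Point → Option (L × L) := fun P =>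
    match P with
    | .zero => none
    | .some x y _ => some (x, y)
  have hf : Function.Injective f := by
    intro P Q h
    rcases P with _ | ⟨x, y, hxy⟩ <;> rcases Q with _ | ⟨x', y', hxy'⟩
    · rfl
    · cases h
    · cases h
    · simp only [f, Option.some.injEq, Prod.mk.injEq] at h
      obtain ⟨rfl, rfl⟩ := h
      rfl
  refine Set.Finite.of_finite_image (f := f) ?_ hf.injOn
  refine ((hS.image some).insert none).subset ?_
  rintro _ ⟨P, hP, rfl⟩
  rcases P with _ | ⟨x, y, hxy⟩
  · left; rfl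
  · right
    refine ⟨(x, y), ?_, rfl⟩
    simp only [S, Set.mem_iUnion]
    exact ⟨x, hP, y, equation_of hxy, rfl⟩

/-- The number of points with logarithmic height at most `B` is at most polynomial in `B`. -/
theorem mw_count [DecidableEq L] {e1 e2 e3 : L} (h12 : e1 ≠ e2) (h13 : e1 ≠ e3)
    (h23 : e2 ≠ e3) : ∃ C D : ℕ, ∀ B : ℝ, 1 ≤ B →
      ({P : (curve e1 e2 e3).toAffine.Point | hx P ≤ B}.ncard : ℝ) ≤ C * B ^ D := by
  classical
  obtain ⟨T, hT, hcov⟩ := weak_mw L h12 h13 h23
  obtain ⟨C₁, hC₁⟩ := height_two (L := L) h12 h13 h23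
  choose C₂ hC₂ using fun t : (curve e1 e2 e3).toAffine.Point => height_translate (-t)
  obtain ⟨C₃, hC₃⟩ := (hT.image C₂).bddAbove
  set c : ℝ := (|C₁| + |C₃|) / 4 + 1 with hc
  have hc1 : 1 ≤ c := by
    have := abs_nonneg C₁
    have := abs_nonneg C₃
    rw [hc]; linarith
  have hhalf : ∀ P, ∃ t ∈ T, ∃ Q, P = Q + Q + t ∧ hx Q ≤ hx P / 2 + c := by
    intro P
    obtain ⟨t, ht, Q, hQ⟩ := hcov P
    refine ⟨t, ht, Q, hQ, ?_⟩
    have h1 := hC₂ t P
    have h2 : P + -t = Q + Q := by rw [hQ, add_neg_cancel_right]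
    rw [h2] at h1
    have h3 := hC₁ Q
    have h4 : C₂ t ≤ C₃ := hC₃ ⟨t, ht, rfl⟩
    have h5 := le_abs_self C₁
    have h6 := le_abs_self C₃
    rw [hc]
    linarith
  choose t ht Q hQ hQh using hhalf
  let N : ℝ → ℕ := fun B => {P : (curve e1 e2 e3).toAffine.Point | hx P ≤ B}.ncard
  have hrec : ∀ B, N B ≤ T.ncard * N (B / 2 + c) := by
    intro B
    have h1 : N B ≤ (T ×ˢ {P : (curve e1 e2 e3).toAffine.Point | hx P ≤ B / 2 + c}).ncard := by
      refine Set.ncard_le_ncard_of_injOn (fun P => (t P, Q P)) ?_ ?_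
        (hT.prod (points_finite L _))
      · intro P hP
        refine ⟨ht P, ?_⟩
        show hx (Q P) ≤ B / 2 + c
        have : hx P ≤ B := hP
        have := hQh P
        linarith
      · intro P _ P' _ h
        simp only [Prod.mk.injEq] at h
        rw [hQ P, hQ P', h.1, h.2]
    rw [Set.ncard_prod] at h1
    exact h1
  have hmono : ∀ B B', B ≤ B' → N B ≤ N B' := by
    intro B B' h
    exact Set.ncard_le_ncard (fun P hP => le_trans hP h) (points_finite L _)
  have hr1 : 1 ≤ T.ncard := by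
    rw [Nat.one_le_iff_ne_zero, Ne, Set.ncard_eq_zero hT]
    exact Set.Nonempty.ne_empty ⟨t 0, ht 0⟩
  obtain ⟨D, hD⟩ : ∃ D : ℕ, (T.ncard : ℝ) ≤ (4 / 3 : ℝ) ^ D :=
    ((tendsto_pow_atTop_atTop_of_one_lt (by norm_num : (1 : ℝ) < 4 / 3)).eventually_ge_atTop
      _).exists
  refine ⟨N (4 * c), D, fun B hB => ?_⟩
  have key : ∀ k : ℕ, ∀ B : ℝ, 1 ≤ B → B ≤ 4 * c * (4 / 3) ^ k → (N B : ℝ) ≤ N (4 * c) * B ^ D := by
    intro k
    induction k with
    | zero =>
      intro B hB hB'
      rw [pow_zero, mul_one] at hB'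
      have h1 : (N B : ℝ) ≤ N (4 * c) := by exact_mod_cast hmono _ _ hB'
      have h2 : (1 : ℝ) ≤ B ^ D := one_le_pow₀ hB
      have h3 : (0 : ℝ) ≤ N (4 * c) := Nat.cast_nonneg _
      nlinarith
    | succ k ih =>
      intro B hB hB'
      by_cases hB4 : B ≤ 4 * c
      · have h1 : (N B : ℝ) ≤ N (4 * c) := by exact_mod_cast hmono _ _ hB4
        have h2 : (1 : ℝ) ≤ B ^ D := one_le_pow₀ hB
        have h3 : (0 : ℝ) ≤ N (4 * c) := Nat.cast_nonneg _
        nlinarith
      · push Not at hB4
        have h1 : B / 2 + c ≤ 3 / 4 * B := by linarith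
        have h2 : (N B : ℝ) ≤ T.ncard * N (B / 2 + c) := by exact_mod_cast hrec B
        have h3 : (N (B / 2 + c) : ℝ) ≤ N (3 / 4 * B) := by exact_mod_cast hmono _ _ h1
        have h4 := ih (3 / 4 * B) (by linarith) (by
          rw [pow_succ] at hB'
          linarith)
        have h5 : (T.ncard : ℝ) * (3 / 4) ^ D ≤ 1 := by
          calc (T.ncard : ℝ) * (3 / 4) ^ D ≤ (4 / 3) ^ D * (3 / 4) ^ D := by gcongr
            _ = 1 := by rw [← mul_pow]; norm_num
        calc (N B : ℝ) ≤ T.ncard * N (B / 2 + c) := h2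
          _ ≤ T.ncard * (N (4 * c) * (3 / 4 * B) ^ D) := by
              gcongr
              exact h3.trans h4
          _ = (T.ncard * (3 / 4) ^ D) * (N (4 * c) * B ^ D) := by rw [mul_pow]; ring
          _ ≤ 1 * (N (4 * c) * B ^ D) := by gcongr
          _ = _ := one_mul _
  obtain ⟨k, hk⟩ : ∃ k : ℕ, B ≤ 4 * c * (4 / 3) ^ k := by
    have h1 := (tendsto_pow_atTop_atTop_of_one_lt (by norm_num : (1 : ℝ) < 4 / 3)).eventually_ge_atTop
      (B / (4 * c))
    obtain ⟨k, hk⟩ := h1.exists
    refine ⟨k, ?_⟩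
    rw [div_le_iff₀ (by linarith)] at hk
    linarith
  exact key k B hB hk

end Pool.Agent.Helper16.A9
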